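import Pool.Agent.Lib.MP_562b47_mp.WO.Mix

/-!
MP_562b47, d = 2, Lemma H' (weak form), local theorem: definitions.

`ι` = all sites of the box, `A` real symmetric, `v : ι → ℂ` = the potential at the sites which are
NOT varied (exterior and frozen sites).  `Lam` = varied sites, `Fz` = frozen sites, `s` = the site
whose background is lowered, `B = insert s (Lam ∪ Fz)`.
-/

open MeasureTheory Matrix Finset

namespace Pool.Agent.Lib.MP_562b47_mp.LW

open Pool.Agent.Lib.MP_562b47_mp.AL Pool.Agent.Lib.MP_562b47_mp.WO Pool.Agent.Lib.MP_562b47_mp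

variable {ι : Type*} [Fintype ι] [DecidableEq ι]

/-- the potential `V y - i γ y` on `S`, `v` elsewhere -/
noncomputable def pot (S : Finset ι) (γ : ι → ℝ) (v : ι → ℂ) (V : ι → ℝ) : ι → ℂ :=
  fun y => if y ∈ S then (V y : ℂ) - (γ y : ℂ) * Complex.I else v y

/-- the potential `-i` on `S`, `v` elsewhere -/
noncomputable def flat (S : Finset ι) (v : ι → ℂ) : ι → ℂ :=
  fun y => if y ∈ S then -Complex.I else v y

open Classical in
/-- indicator of the window event: `V y ∈ [lo y, hi y]` for all `y ∈ S` -/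
noncomputable def win (S : Finset ι) (lo hi : ι → ℝ) (V : ι → ℝ) : ℝ :=
  if ∀ y ∈ S, V y ∈ Set.Icc (lo y) (hi y) then 1 else 0

/-- multi-affine functions of the potential -/
def MA (F : (ι → ℂ) → ℂ) : Prop :=
  ∀ (u : ι → ℂ) (z : ι), ∃ α β : ℂ, ∀ t : ℂ, F (Function.update u z t) = α + β * t

/-- the numerator of the Green function: `adj y x = det * G y x` -/
noncomputable def adj (A : Matrix ι ι ℝ) (y x : ι) (u : ι → ℂ) : ℂ := (HM A u).adjugate y x

/-- the denominator -/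
noncomputable def dt (A : Matrix ι ι ℝ) (u : ι → ℂ) : ℂ := (HM A u).det

variable (c a : ℝ) (A : Matrix ι ι ℝ) (v : ι → ℂ) (Lam Fz : Finset ι) (s x : ι)

/-- the region -/
def BB : Finset ι := insert s (Lam ∪ Fz)

/-- the left side: `u_s = e - i (t + a)`, `t ∈ [0, l]`, real potentials (background `a`) on `Lam` -/
noncomputable def UU (e l : ℝ) (om : (ι → ℝ) → ℝ) : ℝ :=
  ∫ V, (om V * ∫ t in (0 : ℝ)..l,
    ‖GM A (Function.update (pot Lam (fun _ => a) v V) s
      ((e : ℂ) - ((t + a : ℝ) : ℂ) * Complex.I)) s x‖ ^ 2) ∂(muc ι c)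

/-- the left side at `u_s = - i (1 + a)` -/
noncomputable def UU1 (om : (ι → ℝ) → ℝ) : ℝ :=
  ∫ V, om V * ‖GM A (Function.update (pot Lam (fun _ => a) v V) s
      (-((1 + a : ℝ) : ℂ) * Complex.I)) s x‖ ^ 2 ∂(muc ι c)

/-- background share of the region, all potentials in `[j0, j1]` -/
noncomputable def A1 (j0 j1 : ℝ) : ℝ :=
  ∫ V, win (BB Lam Fz s) (fun _ => j0) (fun _ => j1) V *
    ∑ y ∈ BB Lam Fz s, a * ‖GM A (pot (BB Lam Fz s) (fun _ => a) v V) y x‖ ^ 2 ∂(muc ι c)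

/-- the gadget at `s` (losses `γ` on `B - s`, potential `us V` at `s`), `V` in the windows -/
noncomputable def A2 (lo hi : ι → ℝ) (γ : ι → ℝ) (us : (ι → ℝ) → ℂ) : ℝ :=
  ∫ V, win ((BB Lam Fz s).erase s) lo hi V *
    ‖GM A (Function.update (pot ((BB Lam Fz s).erase s) γ v V) s (us V)) s x‖ ^ 2 ∂(muc ι c)

/-- real world background share, `V_s = e + σ w`, `w ∈ [0, l]`, `σ = ± 1` -/
noncomputable def A3 (e l σ : ℝ) (om : (ι → ℝ) → ℝ) : ℝ :=
  ∫ V, (om V * ∫ w in (0 : ℝ)..l, ∑ y ∈ insert s Lam,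
    a * ‖GM A (Function.update (pot Lam (fun _ => a) v V) s
      (((e + σ * w : ℝ) : ℂ) - (a : ℂ) * Complex.I)) y x‖ ^ 2) ∂(muc ι c)

/-- hypotheses of the local theorem (everything but (G) and (F)) -/
structure Setup (R : ℝ) : Prop where
  symm : A.IsSymm
  c_pos : 0 < c
  a_pos : 0 < a
  a_le : a ≤ 1 / 2
  R_ge : 3 * c + 3 ≤ R
  loss : Loss v
  frz : ∀ y ∈ Fz, ‖v y‖ ≤ R
  s_lam : s ∉ Lam
  s_frz : s ∉ Fz
  disj : Disjoint Lam Fz

/-- (G): the entries of the flat Green function at the frozen sites and `s` -/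
def HypG (Γ : ℝ) (us : ℂ) : Prop :=
  ∀ y ∈ insert s Fz, ∀ z ∈ insert s Fz,
    ‖GM A (Function.update (flat Lam v) s us) y z‖ ≤ Γ

/-- (F): the frozen sites are controlled by the others -/
def HypF (Γ : ℝ) (us : ℂ) : Prop :=
  ∀ V : ι → ℝ, (∀ y ∈ Lam, V y ∈ Set.Icc (-c) c) →
    ∑ y ∈ Fz, ‖GM A (Function.update (pot Lam (fun _ => a) v V) s us) y x‖ ^ 2 ≤
      Γ ^ 2 * ∑ y ∈ insert s Lam,
        ‖GM A (Function.update (pot Lam (fun _ => a) v V) s us) y x‖ ^ 2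

/-- the constant in front of `A1`, `A2` -/
noncomputable def ZZ (C Γ : ℝ) : ℝ :=
  C ^ (3 * (BB Lam Fz s).card + 3) * ((Fz.card + 1).factorial : ℝ) ^ 2 * Γ ^ (2 * Fz.card + 4) *
    Real.log (2 / a) ^ (Lam.card + 1)

/-- the price of the windows -/
noncomputable def WW (lo hi : ι → ℝ) : ℝ := ∏ y ∈ (BB Lam Fz s).erase s, ((hi y - lo y) ^ 3)⁻¹

end Pool.Agent.Lib.MP_562b47_mp.LW
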