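import Pool.Agent.Lib.MP_562b47_mp.Unif

/-!
MP_562b47, Lemma H' (weak form), local theorem: one variable lemmas.

* `ov_a`    : values of an affine function against its mean square over a window
* `ov_b`    : affine functions without zeros in the lower half plane
* `ov_c`    : mean of `1 / |affine|`
* `ov_conv` : conversion of the segment below `e` into a real interval at `e`
* `ov_one`  : `|∫ dv / (v - y)²|` against the segments below the end points

Part (a), (b) follow helper87.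
-/

set_option autoImplicit false

open MeasureTheory Set Filter Topology
open scoped Real Interval

namespace Pool.Agent.Lib.MP_562b47_mp.LW

open Pool.Agent.Lib.MP_562b47_mp

/-! ### (a) -/

theorem ov_int_quad (lo hi A B D : ℝ) :
    ∫ v in lo..hi, (A + B * (v - (lo + hi) / 2) + D * (v - (lo + hi) / 2) ^ 2) =
      A * (hi - lo) + D * (hi - lo) ^ 3 / 12 := by
  have h : ∀ v ∈ Set.uIcc lo hi, HasDerivAt
      (fun v : ℝ => A * v + B * (v - (lo + hi) / 2) ^ 2 / 2 + D * (v - (lo + hi) / 2) ^ 3 / 3)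
      (A + B * (v - (lo + hi) / 2) + D * (v - (lo + hi) / 2) ^ 2) v := by
    intro v _
    have h1 : HasDerivAt (fun v : ℝ => v - (lo + hi) / 2) 1 v := (hasDerivAt_id v).sub_const _
    have h2 := (h1.pow 2).const_mul (B / 2)
    have h3 := (h1.pow 3).const_mul (D / 3)
    have h4 := ((hasDerivAt_id v).const_mul A).add (h2.add h3)
    refine (h4.congr_deriv ?_).congr_of_eventuallyEq (Filter.Eventually.of_forall fun y => ?_)
    · norm_num; ring
    · simp; ring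
  rw [intervalIntegral.integral_eq_sub_of_hasDerivAt h]
  · ring
  · apply Continuous.intervalIntegrable
    fun_prop

theorem ov_int_aff (lo hi : ℝ) (α β ga : ℂ) :
    ∫ v in lo..hi, ‖α + β * ((v : ℂ) - ga)‖ ^ 2 =
      ‖α + β * ((((lo + hi) / 2 : ℝ) : ℂ) - ga)‖ ^ 2 * (hi - lo) + ‖β‖ ^ 2 * (hi - lo) ^ 3 / 12 := by
  rw [← ov_int_quad lo hi _ (2 * ((α + β * ((((lo + hi) / 2 : ℝ) : ℂ) - ga)).re * β.re +
    (α + β * ((((lo + hi) / 2 : ℝ) : ℂ) - ga)).im * β.im)) _]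
  congr 1
  funext v
  have e : α + β * ((v : ℂ) - ga) = (α + β * ((((lo + hi) / 2 : ℝ) : ℂ) - ga)) +
      β * ((v - (lo + hi) / 2 : ℝ) : ℂ) := by push_cast; ring
  rw [e]
  set w := α + β * ((((lo + hi) / 2 : ℝ) : ℂ) - ga) with hw
  set s : ℝ := v - (lo + hi) / 2 with hs
  rw [← Complex.normSq_eq_norm_sq, ← Complex.normSq_eq_norm_sq, ← Complex.normSq_eq_norm_sq,
    Complex.normSq_apply, Complex.normSq_apply, Complex.normSq_apply]
  simp only [Complex.add_re, Complex.add_im, Complex.mul_re, Complex.mul_im, Complex.ofReal_re,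
    Complex.ofReal_im]
  ring

theorem ov_aff_le (lo hi R : ℝ) (hlt : lo < hi) (hR : 0 < R) (hlo : -R ≤ lo) (hhi : hi ≤ R)
    (α β ga u : ℂ) (hga : ‖ga‖ ≤ R) (hu : ‖u‖ ≤ R) :
    ‖α + β * u‖ ^ 2 ≤ 216 * R ^ 2 / (hi - lo) ^ 3 * ∫ v in lo..hi, ‖α + β * ((v : ℂ) - ga)‖ ^ 2 := by
  rw [ov_int_aff]
  set w := α + β * ((((lo + hi) / 2 : ℝ) : ℂ) - ga) with hw
  have hl : 0 < hi - lo := sub_pos.2 hlt
  have e : α + β * u = w + β * (u - (((lo + hi) / 2 : ℝ) : ℂ) + ga) := by rw [hw]; ring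
  have hm : ‖(((lo + hi) / 2 : ℝ) : ℂ)‖ ≤ R := by
    rw [Complex.norm_real, Real.norm_eq_abs, abs_le]
    constructor <;> linarith
  have h1 : ‖α + β * u‖ ≤ ‖w‖ + ‖β‖ * (3 * R) := by
    rw [e]
    refine (norm_add_le _ _).trans (add_le_add_right ?_ _)
    rw [norm_mul]
    refine mul_le_mul_of_nonneg_left ?_ (norm_nonneg _)
    refine (norm_add_le _ _).trans ?_
    have := norm_sub_le u (((lo + hi) / 2 : ℝ) : ℂ)
    linarith
  have h2 : ‖α + β * u‖ ^ 2 ≤ 2 * ‖w‖ ^ 2 + 18 * R ^ 2 * ‖β‖ ^ 2 := by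
    have := pow_le_pow_left₀ (norm_nonneg _) h1 2
    nlinarith [sq_nonneg (‖w‖ - ‖β‖ * (3 * R))]
  refine h2.trans ?_
  have hl2 : hi - lo ≤ 2 * R := by linarith
  have e2 : 216 * R ^ 2 / (hi - lo) ^ 3 * (‖w‖ ^ 2 * (hi - lo) + ‖β‖ ^ 2 * (hi - lo) ^ 3 / 12) =
      216 * R ^ 2 / (hi - lo) ^ 2 * ‖w‖ ^ 2 + 18 * R ^ 2 * ‖β‖ ^ 2 := by
    field_simp
    ring
  rw [e2]
  have h3 : 2 ≤ 216 * R ^ 2 / (hi - lo) ^ 2 := by
    rw [le_div_iff₀ (by positivity)]
    nlinarith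
  nlinarith [sq_nonneg ‖w‖]

theorem ov_norm_ga {γ R : ℝ} (h0 : 0 ≤ γ) (h1 : γ ≤ 1) (hR : 1 ≤ R) :
    ‖(γ : ℂ) * Complex.I‖ ≤ R := by
  rw [norm_mul, Complex.norm_I, mul_one, Complex.norm_real, Real.norm_of_nonneg h0]
  linarith

open Classical in
/-- the window in `unif c` -/
theorem ov_int_win {c lo hi : ℝ} (hc : 0 < c) (hlo : -c ≤ lo) (hhi : hi ≤ c) (hlt : lo ≤ hi)
    (f : ℝ → ℝ) :
    ∫ v, (if v ∈ Set.Icc lo hi then (1 : ℝ) else 0) * f v ∂(unif c) =
      (2 * c)⁻¹ * ∫ v in lo..hi, f v := by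
  unfold unif
  rw [integral_smul_measure, ENNReal.toReal_inv, ENNReal.toReal_ofReal (by linarith), smul_eq_mul]
  congr 1
  have h1 : (fun v => (if v ∈ Set.Icc lo hi then (1 : ℝ) else 0) * f v) =
      (Set.Icc lo hi).indicator f := by
    funext v
    by_cases hv : v ∈ Set.Icc lo hi
    · rw [if_pos hv, one_mul, Set.indicator_of_mem hv]
    · rw [if_neg hv, zero_mul, Set.indicator_of_notMem hv]
  rw [h1, integral_indicator measurableSet_Icc, Measure.restrict_restrict measurableSet_Icc,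
    Set.inter_eq_self_of_subset_left (Set.Icc_subset_Icc hlo hhi),
    intervalIntegral.integral_of_le hlt, integral_Icc_eq_integral_Ioc]

open Classical in
/-- (a) -/
theorem ov_a {c R lo hi γ : ℝ} (hc : 0 < c) (hcR : c ≤ R) (hR : 1 ≤ R) (hlo : -c ≤ lo)
    (hhi : hi ≤ c) (hlt : lo < hi) (h0 : 0 ≤ γ) (h1 : γ ≤ 1) (α β u : ℂ) (hu : ‖u‖ ≤ R) :
    (hi - lo) ^ 3 * ‖α + β * u‖ ^ 2 ≤ 432 * c * R ^ 2 *
      ∫ v, (if v ∈ Set.Icc lo hi then (1 : ℝ) else 0) *
        ‖α + β * ((v : ℂ) - (γ : ℂ) * Complex.I)‖ ^ 2 ∂(unif c) := by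
  rw [ov_int_win hc hlo hhi hlt.le]
  have h := ov_aff_le lo hi R hlt (by linarith) (by linarith) (by linarith) α β
    ((γ : ℂ) * Complex.I) u (ov_norm_ga h0 h1 hR) hu
  have hl : 0 < hi - lo := sub_pos.2 hlt
  set J := ∫ v in lo..hi, ‖α + β * ((v : ℂ) - (γ : ℂ) * Complex.I)‖ ^ 2 with hJ
  have e : 432 * c * R ^ 2 * ((2 * c)⁻¹ * J) = (hi - lo) ^ 3 * (216 * R ^ 2 / (hi - lo) ^ 3 * J) := by
    field_simp
    ring
  rw [e]
  exact mul_le_mul_of_nonneg_left h (by positivity)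

/-! ### (b) -/

theorem ov_b' {R τ : ℝ} {α β u : ℂ} (hτ : 0 < τ) (hu : ‖u‖ ≤ R)
    (h0 : ∀ z : ℂ, z.im < 0 → α + β * z ≠ 0) :
    ‖α + β * u‖ ≤ ((R + τ) / τ + 1) * ‖α + β * (-(τ : ℂ) * Complex.I)‖ := by
  have hR : 0 ≤ R := (norm_nonneg _).trans hu
  by_cases hβ : β = 0
  · subst hβ
    simp only [zero_mul, add_zero]
    have : 0 ≤ (R + τ) / τ := by positivity
    nlinarith [norm_nonneg α]
  · set z := -α / β with hz
    have hzz : α + β * z = 0 := by rw [hz]; field_simp; ring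
    have him : 0 ≤ z.im := by
      by_contra hc
      exact h0 z (not_le.1 hc) hzz
    have e1 : ∀ x, α + β * x = β * (x - z) := fun x => by linear_combination hzz
    rw [e1, e1, norm_mul, norm_mul]
    have h1 : τ ≤ ‖-(τ : ℂ) * Complex.I - z‖ := by
      refine le_trans ?_ (Complex.abs_im_le_norm _)
      have : (-(τ : ℂ) * Complex.I - z).im = -τ - z.im := by simp
      rw [this, abs_of_neg (by linarith)]
      linarith
    have h2 : ‖u - z‖ ≤ (R + τ) + ‖-(τ : ℂ) * Complex.I - z‖ := by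
      have e2 : u - z = (u + (τ : ℂ) * Complex.I) + (-(τ : ℂ) * Complex.I - z) := by ring
      rw [e2]
      refine (norm_add_le _ _).trans (add_le_add_left ?_ _)
      refine (norm_add_le _ _).trans (add_le_add hu ?_)
      simp [abs_of_pos hτ]
    have h3 : (R + τ) ≤ (R + τ) / τ * ‖-(τ : ℂ) * Complex.I - z‖ := by
      have : (R + τ) = (R + τ) / τ * τ := by field_simp
      calc (R + τ) = (R + τ) / τ * τ := this
        _ ≤ _ := mul_le_mul_of_nonneg_left h1 (by positivity)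
    have h4 : ‖u - z‖ ≤ ((R + τ) / τ + 1) * ‖-(τ : ℂ) * Complex.I - z‖ := by linarith
    calc ‖β‖ * ‖u - z‖ ≤ ‖β‖ * (((R + τ) / τ + 1) * ‖-(τ : ℂ) * Complex.I - z‖) :=
          mul_le_mul_of_nonneg_left h4 (norm_nonneg _)
      _ = _ := by ring

/-- (b) -/
theorem ov_b {R : ℝ} {α β u : ℂ} (hu : ‖u‖ ≤ R)
    (h0 : ∀ z : ℂ, z.im < 0 → α + β * z ≠ 0) :
    ‖α + β * u‖ ≤ (R + 2) * ‖α + β * (-Complex.I)‖ := by
  have h := ov_b' (τ := 1) one_pos hu h0
  have e : ((R + 1) / 1 + 1) * ‖α + β * (-((1 : ℝ) : ℂ) * Complex.I)‖ =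
      (R + 2) * ‖α + β * (-Complex.I)‖ := by
    rw [Complex.ofReal_one, neg_mul, one_mul]
    ring
  rw [← e]
  exact h

/-! ### (c) -/

theorem ov_arsinh_le (t : ℝ) : Real.arsinh t ≤ Real.log (1 + 2 * |t|) := by
  rw [Real.arsinh]
  have h1 : Real.sqrt (1 + t ^ 2) ≤ 1 + |t| := by
    apply Real.sqrt_le_iff.2
    refine ⟨by positivity, ?_⟩
    nlinarith [sq_abs t, abs_nonneg t]
  have h2 : |t| < Real.sqrt (1 + t ^ 2) := by
    apply Real.lt_sqrt_of_sq_lt
    rw [sq_abs]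
    linarith
  apply Real.log_le_log
  · have := neg_abs_le t
    linarith
  · have := le_abs_self t
    linarith

theorem ov_int_inv_sqrt (c x a : ℝ) (ha : 0 < a) :
    ∫ v in (-c)..c, (Real.sqrt ((v - x) ^ 2 + a ^ 2))⁻¹ =
      Real.arsinh ((c - x) / a) - Real.arsinh ((-c - x) / a) := by
  have h : ∀ v ∈ Set.uIcc (-c) c, HasDerivAt (fun v : ℝ => Real.arsinh ((v - x) / a))
      ((Real.sqrt ((v - x) ^ 2 + a ^ 2))⁻¹) v := by
    intro v _
    have h1 : HasDerivAt (fun v : ℝ => (v - x) / a) (1 / a) v :=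
      ((hasDerivAt_id v).sub_const _).div_const _
    have h2 := (Real.hasDerivAt_arsinh ((v - x) / a)).comp v h1
    refine h2.congr_deriv ?_
    have e1 : (v - x) ^ 2 + a ^ 2 = a ^ 2 * (1 + ((v - x) / a) ^ 2) := by
      field_simp
      ring
    rw [e1, Real.sqrt_mul (sq_nonneg _), Real.sqrt_sq ha.le, mul_inv]
    ring
  rw [intervalIntegral.integral_eq_sub_of_hasDerivAt h]
  apply Continuous.intervalIntegrable
  apply Continuous.inv₀
  · fun_prop
  · intro v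
    have : 0 < (v - x) ^ 2 + a ^ 2 := by positivity
    exact (Real.sqrt_pos.2 this).ne'

theorem ov_log_ge {a : ℝ} (ha : 0 < a) (ha2 : a ≤ 1 / 2) : 1 ≤ Real.log (2 / a) := by
  have h4 : (4 : ℝ) ≤ 2 / a := by
    rw [le_div_iff₀ ha]; linarith
  have h2 : Real.log 4 ≤ Real.log (2 / a) := Real.log_le_log (by norm_num) h4
  have h3 : Real.log 4 = 2 * Real.log 2 := by
    rw [show (4 : ℝ) = 2 ^ 2 by norm_num, Real.log_pow]; norm_num
  have := Real.log_two_gt_d9
  linarith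

theorem ov_log_le {a K : ℝ} (ha : 0 < a) (ha2 : a ≤ 1 / 2) (hK : 0 ≤ K) :
    Real.log (1 + K / a) ≤ (1 + Real.log (1 + K)) * Real.log (2 / a) := by
  have hL := ov_log_ge ha ha2
  have h1 : 1 + K / a ≤ (1 + K) * (2 / a) := by
    have : (1 + K) * (2 / a) - (1 + K / a) = (2 - a + K) / a := by
      field_simp
      ring
    have h2 : 0 ≤ (2 - a + K) / a := div_nonneg (by linarith) ha.le
    linarith
  have h2 : Real.log (1 + K / a) ≤ Real.log ((1 + K) * (2 / a)) :=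
    Real.log_le_log (by positivity) h1
  rw [Real.log_mul (by positivity) (by positivity)] at h2
  have h3 : 0 ≤ Real.log (1 + K) := Real.log_nonneg (by linarith)
  nlinarith

/-- the constant of (c) -/
noncomputable def Cc (c : ℝ) : ℝ :=
  4 + 4 * (c + 2) / c * (1 + Real.log (1 + 2 * (3 * c + 6)))

theorem Cc_pos {c : ℝ} (hc : 0 < c) : 0 < Cc c := by
  unfold Cc
  have : 0 ≤ Real.log (1 + 2 * (3 * c + 6)) := Real.log_nonneg (by linarith)
  positivity

theorem Cc_ge {c : ℝ} (hc : 0 < c) : 1 ≤ Cc c := by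
  unfold Cc
  have : 0 ≤ Real.log (1 + 2 * (3 * c + 6)) := Real.log_nonneg (by linarith)
  have h2 : 0 ≤ 4 * (c + 2) / c * (1 + Real.log (1 + 2 * (3 * c + 6))) := by positivity
  linarith

theorem ov_cont_inv {α β : ℂ} {a : ℝ} (ha : 0 < a)
    (h0 : ∀ z : ℂ, z.im < 0 → α + β * z ≠ 0) :
    Continuous fun v : ℝ => ‖α + β * ((v : ℂ) - (a : ℂ) * Complex.I)‖⁻¹ := by
  apply Continuous.inv₀
  · fun_prop
  · intro v
    refine norm_ne_zero_iff.2 (h0 _ ?_)
    simp [ha]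

/-- (c) -/
theorem ov_c {c a : ℝ} {α β : ℂ} (hc : 0 < c) (ha : 0 < a) (ha2 : a ≤ 1 / 2)
    (h0 : ∀ z : ℂ, z.im < 0 → α + β * z ≠ 0) :
    ∫ v, ‖α + β * ((v : ℂ) - (a : ℂ) * Complex.I)‖⁻¹ ∂(unif c) ≤
      Cc c * Real.log (2 / a) * ‖α + β * (-Complex.I)‖⁻¹ := by
  have hL := ov_log_ge ha ha2
  have hlogK : 0 ≤ Real.log (1 + 2 * (3 * c + 6)) := Real.log_nonneg (by linarith)
  rw [integral_unif hc]
  by_cases hβ : β = 0
  · subst hβ
    simp only [zero_mul, add_zero]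
    rw [intervalIntegral.integral_const, smul_eq_mul]
    have e : (2 * c)⁻¹ * ((c - -c) * ‖α‖⁻¹) = ‖α‖⁻¹ := by
      field_simp
      ring
    rw [e]
    have h1 : 1 ≤ Cc c * Real.log (2 / a) := by
      have := Cc_ge hc
      nlinarith
    have h2 : 0 ≤ ‖α‖⁻¹ := by positivity
    nlinarith
  · set z := -α / β with hz
    have hzz : α + β * z = 0 := by rw [hz]; field_simp; ring
    have him : 0 ≤ z.im := by
      by_contra hc
      exact h0 z (not_le.1 hc) hzz
    have e1 : ∀ x, α + β * x = β * (x - z) := fun x => by linear_combination hzz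
    have hβ' : 0 < ‖β‖ := norm_pos_iff.2 hβ
    have e2 : ∀ x, ‖α + β * x‖⁻¹ = ‖β‖⁻¹ * ‖x - z‖⁻¹ := fun x => by
      rw [e1, norm_mul, mul_inv]
    simp only [e2]
    rw [intervalIntegral.integral_const_mul]
    have hpos : ∀ v : ℝ, 0 < ‖(v : ℂ) - (a : ℂ) * Complex.I - z‖ := by
      intro v
      rw [norm_pos_iff]
      intro h
      have := congrArg Complex.im h
      simp at this
      linarith
    have hcont : Continuous fun v : ℝ => ‖(v : ℂ) - (a : ℂ) * Complex.I - z‖⁻¹ := by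
      apply Continuous.inv₀
      · fun_prop
      · intro v
        exact (hpos v).ne'
    have hm1 : 1 ≤ ‖-Complex.I - z‖ := by
      refine le_trans ?_ (Complex.abs_im_le_norm _)
      have : (-Complex.I - z).im = -1 - z.im := by simp
      rw [this, abs_of_neg (by linarith)]
      linarith
    have key : (2 * c)⁻¹ * ∫ v in (-c)..c, ‖(v : ℂ) - (a : ℂ) * Complex.I - z‖⁻¹ ≤
        Cc c * Real.log (2 / a) * ‖-Complex.I - z‖⁻¹ := by
      set D := ‖-Complex.I - z‖ with hD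
      have hDpos : 0 < D := by linarith
      by_cases hbig : 2 * (c + 2) ≤ D
      · have hle : ∀ v ∈ Set.Icc (-c) c, ‖(v : ℂ) - (a : ℂ) * Complex.I - z‖⁻¹ ≤ 2 * D⁻¹ := by
          intro v hv
          have h1 : D ≤ ‖(v : ℂ) - (a : ℂ) * Complex.I - z‖ + (c + 1) := by
            have e3 : -Complex.I - z = ((v : ℂ) - (a : ℂ) * Complex.I - z) +
                (-(v : ℂ) + ((a - 1 : ℝ) : ℂ) * Complex.I) := by push_cast; ring
            rw [hD, e3]
            refine (norm_add_le _ _).trans (add_le_add_right ?_ _)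
            refine (norm_add_le _ _).trans (add_le_add ?_ ?_)
            · rw [norm_neg, Complex.norm_real, Real.norm_eq_abs, abs_le]
              exact ⟨hv.1, hv.2⟩
            · rw [norm_mul, Complex.norm_I, mul_one, Complex.norm_real, Real.norm_eq_abs, abs_le]
              constructor <;> linarith
          have h2 : D / 2 ≤ ‖(v : ℂ) - (a : ℂ) * Complex.I - z‖ := by linarith
          calc ‖(v : ℂ) - (a : ℂ) * Complex.I - z‖⁻¹ ≤ (D / 2)⁻¹ :=
                inv_anti₀ (by positivity) h2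
            _ = 2 * D⁻¹ := by rw [inv_div]; ring
        have h3 : ∫ v in (-c)..c, ‖(v : ℂ) - (a : ℂ) * Complex.I - z‖⁻¹ ≤
            ∫ v in (-c)..c, 2 * D⁻¹ :=
          intervalIntegral.integral_mono_on (by linarith) (hcont.intervalIntegrable _ _)
            (continuous_const.intervalIntegrable _ _) hle
        rw [intervalIntegral.integral_const, smul_eq_mul] at h3
        have h4 : (2 * c)⁻¹ * ∫ v in (-c)..c, ‖(v : ℂ) - (a : ℂ) * Complex.I - z‖⁻¹ ≤ 2 * D⁻¹ := by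
          calc _ ≤ (2 * c)⁻¹ * ((c - -c) * (2 * D⁻¹)) :=
                mul_le_mul_of_nonneg_left h3 (by positivity)
            _ = 2 * D⁻¹ := by field_simp; ring
        refine h4.trans (mul_le_mul_of_nonneg_right ?_ (by positivity))
        have h5 : 2 ≤ Cc c := by
          unfold Cc
          have : 0 ≤ 4 * (c + 2) / c * (1 + Real.log (1 + 2 * (3 * c + 6))) := by positivity
          linarith
        nlinarith
      · rw [not_le] at hbig
        have hre : |z.re| ≤ 2 * (c + 2) := by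
          have h1 := Complex.abs_re_le_norm (-Complex.I - z)
          have h2 : (-Complex.I - z).re = -z.re := by simp
          rw [h2, abs_neg] at h1
          linarith
        have hle : ∀ v ∈ Set.Icc (-c) c, ‖(v : ℂ) - (a : ℂ) * Complex.I - z‖⁻¹ ≤
            (Real.sqrt ((v - z.re) ^ 2 + a ^ 2))⁻¹ := by
          intro v _
          refine inv_anti₀ (Real.sqrt_pos.2 (by positivity)) ?_
          rw [Complex.norm_def, Complex.normSq_apply]
          apply Real.sqrt_le_sqrt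
          simp only [Complex.sub_re, Complex.sub_im, Complex.mul_re, Complex.mul_im,
            Complex.ofReal_re, Complex.ofReal_im, Complex.I_re, Complex.I_im]
          nlinarith
        have h3 : ∫ v in (-c)..c, ‖(v : ℂ) - (a : ℂ) * Complex.I - z‖⁻¹ ≤
            ∫ v in (-c)..c, (Real.sqrt ((v - z.re) ^ 2 + a ^ 2))⁻¹ := by
          refine intervalIntegral.integral_mono_on (by linarith) (hcont.intervalIntegrable _ _)
            ?_ hle
          apply Continuous.intervalIntegrable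
          apply Continuous.inv₀
          · fun_prop
          · intro v
            have : 0 < (v - z.re) ^ 2 + a ^ 2 := by positivity
            exact (Real.sqrt_pos.2 this).ne'
        rw [ov_int_inv_sqrt c z.re a ha] at h3
        have hb : ∀ t : ℝ, |t| ≤ 3 * c + 6 →
            Real.arsinh (t / a) ≤ (1 + Real.log (1 + 2 * (3 * c + 6))) * Real.log (2 / a) := by
          intro t ht
          refine (ov_arsinh_le _).trans ?_
          have h5 := ov_log_le (K := 2 * (3 * c + 6)) ha ha2 (by linarith)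
          refine le_trans (Real.log_le_log (by positivity) ?_) h5
          rw [abs_div, abs_of_pos ha]
          have : 2 * (|t| / a) ≤ 2 * (3 * c + 6) / a := by
            rw [mul_div_assoc]
            exact mul_le_mul_of_nonneg_left (div_le_div_of_nonneg_right ht ha.le) (by norm_num)
          linarith
        have hz1 := abs_le.1 hre
        have h6 := hb (c - z.re) (by rw [abs_le]; constructor <;> linarith [hz1.1, hz1.2])
        have h7 := hb (c + z.re) (by rw [abs_le]; constructor <;> linarith [hz1.1, hz1.2])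
        have h8 : Real.arsinh ((-c - z.re) / a) = -Real.arsinh ((c + z.re) / a) := by
          rw [← Real.arsinh_neg]
          congr 1
          ring
        rw [h8] at h3
        have h9 : ∫ v in (-c)..c, ‖(v : ℂ) - (a : ℂ) * Complex.I - z‖⁻¹ ≤
            2 * ((1 + Real.log (1 + 2 * (3 * c + 6))) * Real.log (2 / a)) := by linarith
        have h10 : (1 : ℝ) ≤ 2 * (c + 2) * D⁻¹ := by
          rw [← div_eq_mul_inv, le_div_iff₀ hDpos]
          linarith
        set X := (1 + Real.log (1 + 2 * (3 * c + 6))) with hX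
        have hX0 : 0 ≤ X := by linarith
        have hXL : 0 ≤ X * Real.log (2 / a) := mul_nonneg hX0 (by linarith)
        calc (2 * c)⁻¹ * ∫ v in (-c)..c, ‖(v : ℂ) - (a : ℂ) * Complex.I - z‖⁻¹
            ≤ (2 * c)⁻¹ * (2 * (X * Real.log (2 / a))) :=
              mul_le_mul_of_nonneg_left h9 (by positivity)
          _ = 1 / c * (X * Real.log (2 / a)) * 1 := by field_simp
          _ ≤ 1 / c * (X * Real.log (2 / a)) * (2 * (c + 2) * D⁻¹) :=
              mul_le_mul_of_nonneg_left h10 (by positivity)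
          _ = (2 * (c + 2) / c * X) * Real.log (2 / a) * D⁻¹ := by ring
          _ ≤ Cc c * Real.log (2 / a) * D⁻¹ := by
              refine mul_le_mul_of_nonneg_right (mul_le_mul_of_nonneg_right ?_ (by linarith))
                (by positivity)
              unfold Cc
              rw [← hX]
              have h11 : 0 ≤ 2 * (c + 2) / c * X := by positivity
              have h12 : 4 * (c + 2) / c * X = 2 * (2 * (c + 2) / c * X) := by ring
              rw [h12]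
              linarith
    calc (2 * c)⁻¹ * (‖β‖⁻¹ * ∫ v in (-c)..c, ‖(v : ℂ) - (a : ℂ) * Complex.I - z‖⁻¹)
        = ‖β‖⁻¹ * ((2 * c)⁻¹ * ∫ v in (-c)..c, ‖(v : ℂ) - (a : ℂ) * Complex.I - z‖⁻¹) := by ring
      _ ≤ ‖β‖⁻¹ * (Cc c * Real.log (2 / a) * ‖-Complex.I - z‖⁻¹) :=
          mul_le_mul_of_nonneg_left key (by positivity)
      _ = _ := by ring

/-! ### (d) -/

/-- the real core: decreasing weight `1 / (p + q w)²` -/
theorem ov_core {p q P Q s l : ℝ} (hp : 0 < p) (hq : 0 ≤ q) (hP : 0 ≤ P) (hQ : 0 ≤ Q)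
    (hs : s ^ 2 ≤ P * Q) (hl : 0 ≤ l) :
    ∫ w in (0 : ℝ)..l, (P + Q * w ^ 2) / (p + q * w) ^ 2 ≤
      16 * ∫ w in (0 : ℝ)..l, (P + 2 * s * w + Q * w ^ 2) / (p + q * w) ^ 2 := by
  have hne : ∀ w ∈ Set.uIcc 0 l, p + q * w ≠ 0 := by
    intro w hw
    rw [Set.uIcc_of_le hl] at hw
    have := mul_nonneg hq hw.1
    linarith [hw.1]
  have hcd : ContinuousOn (fun w : ℝ => ((p + q * w) ^ 2)⁻¹) (Set.uIcc 0 l) := by
    apply ContinuousOn.inv₀
    · fun_prop
    · intro w hw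
      exact pow_ne_zero 2 (hne w hw)
  have hcd3 : ContinuousOn (fun w : ℝ => ((p + q * w) ^ 3)⁻¹) (Set.uIcc 0 l) := by
    apply ContinuousOn.inv₀
    · fun_prop
    · intro w hw
      exact pow_ne_zero 3 (hne w hw)
  have hii : ∀ f : ℝ → ℝ, Continuous f →
      IntervalIntegrable (fun w => f w / (p + q * w) ^ 2) volume 0 l := by
    intro f hf
    apply ContinuousOn.intervalIntegrable
    simp only [div_eq_mul_inv]
    exact hf.continuousOn.mul hcd
  -- `H w = 15 P w + 16 s w² + 5 Q w³`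
  have hH0 : ∀ w : ℝ, 0 ≤ w → 0 ≤ 15 * P * w + 16 * s * w ^ 2 + 5 * Q * w ^ 3 := by
    intro w hw
    have h1 : 0 ≤ 15 * P + 16 * s * w + 5 * Q * w ^ 2 := by
      rcases eq_or_lt_of_le hQ with hQ0 | hQ0
      · have hs0 : s = 0 := by
          rw [← hQ0, mul_zero] at hs
          exact pow_eq_zero_iff two_ne_zero |>.1 (le_antisymm hs (sq_nonneg _))
        rw [hs0, ← hQ0]
        linarith
      · have h2 : 0 ≤ Q * (15 * P + 16 * s * w + 5 * Q * w ^ 2) := by
          nlinarith [sq_nonneg (5 * Q * w + 8 * s), sq_nonneg s, mul_nonneg hP hQ]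
        exact nonneg_of_mul_nonneg_right h2 hQ0
    have : 15 * P * w + 16 * s * w ^ 2 + 5 * Q * w ^ 3 =
        w * (15 * P + 16 * s * w + 5 * Q * w ^ 2) := by ring
    rw [this]
    exact mul_nonneg hw h1
  have hder : ∀ w ∈ Set.uIcc 0 l, HasDerivAt
      (fun w : ℝ => (15 * P * w + 16 * s * w ^ 2 + 5 * Q * w ^ 3) * ((p + q * w) ^ 2)⁻¹)
      ((15 * P + 32 * s * w + 15 * Q * w ^ 2) / (p + q * w) ^ 2 -
        2 * q * (15 * P * w + 16 * s * w ^ 2 + 5 * Q * w ^ 3) * ((p + q * w) ^ 3)⁻¹) w := by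
    intro w hw
    have h1 : HasDerivAt (fun w : ℝ => 15 * P * w + 16 * s * w ^ 2 + 5 * Q * w ^ 3)
        (15 * P + 32 * s * w + 15 * Q * w ^ 2) w := by
      have a1 := (hasDerivAt_id w).const_mul (15 * P)
      have a2 := ((hasDerivAt_id w).pow 2).const_mul (16 * s)
      have a3 := ((hasDerivAt_id w).pow 3).const_mul (5 * Q)
      refine (((a1.add a2).add a3).congr_deriv ?_).congr_of_eventuallyEq
        (Filter.Eventually.of_forall fun y => ?_)
      · norm_num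
        ring
      · simp
    have h2 : HasDerivAt (fun w : ℝ => p + q * w) q w := by
      have := ((hasDerivAt_id w).const_mul q).const_add p
      simpa using this
    have hn := hne w hw
    have h3 : HasDerivAt (fun w : ℝ => ((p + q * w) ^ 2)⁻¹) (-(2 * q) * ((p + q * w) ^ 3)⁻¹) w := by
      have h5 : HasDerivAt (fun w : ℝ => (p + q * w) ^ 2) (2 * (p + q * w) * q) w := by
        refine (h2.pow 2).congr_deriv ?_
        norm_num
      have h6 : HasDerivAt (fun w : ℝ => ((p + q * w) ^ 2)⁻¹)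
          (-(2 * (p + q * w) * q) / ((p + q * w) ^ 2) ^ 2) w := h5.inv (pow_ne_zero 2 hn)
      refine h6.congr_deriv ?_
      field_simp
    have h4 : HasDerivAt
        (fun w : ℝ => (15 * P * w + 16 * s * w ^ 2 + 5 * Q * w ^ 3) * ((p + q * w) ^ 2)⁻¹)
        ((15 * P + 32 * s * w + 15 * Q * w ^ 2) * ((p + q * w) ^ 2)⁻¹ +
          (15 * P * w + 16 * s * w ^ 2 + 5 * Q * w ^ 3) *
            (-(2 * q) * ((p + q * w) ^ 3)⁻¹)) w := h1.mul h3
    refine h4.congr_deriv ?_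
    ring
  have hint1 : IntervalIntegrable (fun w : ℝ => (15 * P + 32 * s * w + 15 * Q * w ^ 2) /
      (p + q * w) ^ 2) volume 0 l := hii _ (by fun_prop)
  have hint2 : IntervalIntegrable (fun w : ℝ =>
      2 * q * (15 * P * w + 16 * s * w ^ 2 + 5 * Q * w ^ 3) * ((p + q * w) ^ 3)⁻¹) volume 0 l := by
    apply ContinuousOn.intervalIntegrable
    refine ContinuousOn.mul ?_ hcd3
    fun_prop
  have hFTC := intervalIntegral.integral_eq_sub_of_hasDerivAt hder (hint1.sub hint2)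
  rw [intervalIntegral.integral_sub hint1 hint2] at hFTC
  have hpos2 : 0 ≤ ∫ w in (0 : ℝ)..l,
      2 * q * (15 * P * w + 16 * s * w ^ 2 + 5 * Q * w ^ 3) * ((p + q * w) ^ 3)⁻¹ := by
    apply intervalIntegral.integral_nonneg hl
    intro w hw
    have h1 := hH0 w hw.1
    have h2 : 0 ≤ p + q * w := by
      have := mul_nonneg hq hw.1
      linarith
    positivity
  have hend : 0 ≤ (15 * P * l + 16 * s * l ^ 2 + 5 * Q * l ^ 3) * ((p + q * l) ^ 2)⁻¹ :=
    mul_nonneg (hH0 l hl) (by positivity)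
  have hzero : (15 * P * 0 + 16 * s * 0 ^ 2 + 5 * Q * 0 ^ 3) * ((p + q * 0) ^ 2)⁻¹ = 0 := by
    ring
  have hfin : 0 ≤ ∫ w in (0 : ℝ)..l, (15 * P + 32 * s * w + 15 * Q * w ^ 2) / (p + q * w) ^ 2 := by
    rw [hzero, sub_zero] at hFTC
    linarith
  have e : ∫ w in (0 : ℝ)..l, (15 * P + 32 * s * w + 15 * Q * w ^ 2) / (p + q * w) ^ 2 =
      16 * (∫ w in (0 : ℝ)..l, (P + 2 * s * w + Q * w ^ 2) / (p + q * w) ^ 2) -
        ∫ w in (0 : ℝ)..l, (P + Q * w ^ 2) / (p + q * w) ^ 2 := by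
    rw [← intervalIntegral.integral_const_mul, ← intervalIntegral.integral_sub]
    · apply intervalIntegral.integral_congr
      intro w _
      simp only
      ring
    · exact (hii _ (by fun_prop)).const_mul 16
    · exact hii _ (by fun_prop)
  linarith

/-- conversion at the origin -/
theorem ov_conv0 {l : ℝ} {A B A' B' : ℂ} {σ : ℝ} (hl : 0 ≤ l) (hσ : σ = 1 ∨ σ = -1)
    (h0 : ∀ z : ℂ, z.im ≤ 0 → A' + B' * z ≠ 0) :
    ∫ t in (0 : ℝ)..l, ‖A - B * ((t : ℂ) * Complex.I)‖ ^ 2 /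
        ‖A' - B' * ((t : ℂ) * Complex.I)‖ ^ 2 ≤
      64 * ∫ w in (0 : ℝ)..l, ‖A + B * ((σ * w : ℝ) : ℂ)‖ ^ 2 /
        ‖A' + B' * ((σ * w : ℝ) : ℂ)‖ ^ 2 := by
  have hσ2 : σ ^ 2 = 1 := by rcases hσ with h | h <;> rw [h] <;> norm_num
  have hσa : |σ| = 1 := by rcases hσ with h | h <;> rw [h] <;> norm_num
  have hA' : 0 < ‖A'‖ := by
    rw [norm_pos_iff]
    have := h0 0 (by simp)
    simpa using this
  have hn1 : ∀ t : ℝ, 0 ≤ t → A' - B' * ((t : ℂ) * Complex.I) ≠ 0 := by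
    intro t ht
    have := h0 (-((t : ℂ) * Complex.I)) (by simp [ht])
    rw [mul_neg, ← sub_eq_add_neg] at this
    exact this
  have hn2 : ∀ w : ℝ, A' + B' * ((σ * w : ℝ) : ℂ) ≠ 0 := by
    intro w
    exact h0 _ (by rw [Complex.ofReal_im])
  -- the sign condition
  have hsign : 0 ≤ A'.im * B'.re - A'.re * B'.im → True := fun _ => trivial
  have him : A'.im * B'.re - A'.re * B'.im ≤ 0 := by
    by_contra hcon
    rw [not_le] at hcon
    have hB : B' ≠ 0 := by
      rintro rfl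
      simp at hcon
    have hz : A' + B' * (-A' / B') = 0 := by field_simp; ring
    refine h0 (-A' / B') ?_ hz
    have hB2 : 0 < Complex.normSq B' := Complex.normSq_pos.2 hB
    have : (-A' / B').im = -(A'.im * B'.re - A'.re * B'.im) / Complex.normSq B' := by
      rw [Complex.div_im]
      simp only [Complex.neg_im, Complex.neg_re]
      ring
    rw [this]
    exact (div_neg_of_neg_of_pos (by linarith) hB2).le
  have hden1 : ∀ t : ℝ, 0 ≤ t → (‖A'‖ + ‖B'‖ * t) ^ 2 ≤ 2 * ‖A' - B' * ((t : ℂ) * Complex.I)‖ ^ 2 := by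
    intro t ht
    have e : ‖A' - B' * ((t : ℂ) * Complex.I)‖ ^ 2 = ‖A'‖ ^ 2 + ‖B'‖ ^ 2 * t ^ 2 -
        2 * t * (A'.im * B'.re - A'.re * B'.im) := by
      rw [← Complex.normSq_eq_norm_sq, ← Complex.normSq_eq_norm_sq, ← Complex.normSq_eq_norm_sq,
        Complex.normSq_apply, Complex.normSq_apply, Complex.normSq_apply]
      simp only [Complex.sub_re, Complex.sub_im, Complex.mul_re, Complex.mul_im,
        Complex.ofReal_re, Complex.ofReal_im, Complex.I_re, Complex.I_im]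
      ring
    rw [e]
    have h1 : 0 ≤ t * -(A'.im * B'.re - A'.re * B'.im) := mul_nonneg ht (by linarith)
    nlinarith [sq_nonneg (‖A'‖ - ‖B'‖ * t)]
  have hden2 : ∀ w : ℝ, 0 ≤ w → ‖A' + B' * ((σ * w : ℝ) : ℂ)‖ ^ 2 ≤ (‖A'‖ + ‖B'‖ * w) ^ 2 := by
    intro w hw
    refine pow_le_pow_left₀ (norm_nonneg _) ?_ 2
    refine (norm_add_le _ _).trans (add_le_add_right ?_ _)
    rw [norm_mul, Complex.norm_real, Real.norm_eq_abs, abs_mul, hσa, one_mul, abs_of_nonneg hw]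
  have hnum1 : ∀ t : ℝ, 0 ≤ t → ‖A - B * ((t : ℂ) * Complex.I)‖ ^ 2 ≤
      2 * (‖A‖ ^ 2 + ‖B‖ ^ 2 * t ^ 2) := by
    intro t ht
    have h1 : ‖A - B * ((t : ℂ) * Complex.I)‖ ≤ ‖A‖ + ‖B‖ * t := by
      refine (norm_sub_le _ _).trans (add_le_add_right ?_ _)
      rw [norm_mul, norm_mul, Complex.norm_I, mul_one, Complex.norm_real, Real.norm_of_nonneg ht]
    have h2 := pow_le_pow_left₀ (norm_nonneg _) h1 2
    nlinarith [sq_nonneg (‖A‖ - ‖B‖ * t)]
  set s : ℝ := σ * (A.re * B.re + A.im * B.im) with hs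
  have hnum2 : ∀ w : ℝ, ‖A + B * ((σ * w : ℝ) : ℂ)‖ ^ 2 =
      ‖A‖ ^ 2 + 2 * s * w + ‖B‖ ^ 2 * w ^ 2 := by
    intro w
    rw [← Complex.normSq_eq_norm_sq, ← Complex.normSq_eq_norm_sq, ← Complex.normSq_eq_norm_sq,
      Complex.normSq_apply, Complex.normSq_apply, Complex.normSq_apply]
    simp only [Complex.add_re, Complex.add_im, Complex.mul_re, Complex.mul_im,
      Complex.ofReal_re, Complex.ofReal_im]
    have : σ * σ = 1 := by rw [← hσ2]; ring
    rw [hs]
    linear_combination (B.re ^ 2 * w ^ 2 + B.im ^ 2 * w ^ 2) * this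
  have hsPQ : s ^ 2 ≤ ‖A‖ ^ 2 * ‖B‖ ^ 2 := by
    rw [hs, mul_pow, hσ2, one_mul, ← Complex.normSq_eq_norm_sq, ← Complex.normSq_eq_norm_sq,
      Complex.normSq_apply, Complex.normSq_apply]
    nlinarith [sq_nonneg (A.re * B.im - A.im * B.re)]
  have hcore := ov_core (p := ‖A'‖) (q := ‖B'‖) (P := ‖A‖ ^ 2) (Q := ‖B‖ ^ 2) (s := s) hA'
    (norm_nonneg _) (sq_nonneg _) (sq_nonneg _) hsPQ hl
  have hdpos : ∀ w : ℝ, 0 ≤ w → 0 < ‖A'‖ + ‖B'‖ * w := by
    intro w hw
    have := mul_nonneg (norm_nonneg B') hw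
    linarith
  -- integrability
  have hdc : ContinuousOn (fun w : ℝ => ((‖A'‖ + ‖B'‖ * w) ^ 2)⁻¹) (Set.uIcc 0 l) := by
    apply ContinuousOn.inv₀
    · fun_prop
    · intro w hw
      rw [Set.uIcc_of_le hl] at hw
      exact pow_ne_zero 2 (hdpos w hw.1).ne'
  have hi1 : IntervalIntegrable (fun t : ℝ => ‖A - B * ((t : ℂ) * Complex.I)‖ ^ 2 /
        ‖A' - B' * ((t : ℂ) * Complex.I)‖ ^ 2) volume 0 l := by
    apply ContinuousOn.intervalIntegrable
    apply ContinuousOn.div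
    · fun_prop
    · fun_prop
    · intro w hw
      rw [Set.uIcc_of_le hl] at hw
      exact pow_ne_zero 2 (norm_ne_zero_iff.2 (hn1 w hw.1))
  have hi2 : IntervalIntegrable (fun w : ℝ => ‖A + B * ((σ * w : ℝ) : ℂ)‖ ^ 2 /
        ‖A' + B' * ((σ * w : ℝ) : ℂ)‖ ^ 2) volume 0 l := by
    apply ContinuousOn.intervalIntegrable
    apply ContinuousOn.div
    · fun_prop
    · fun_prop
    · intro w hw
      exact pow_ne_zero 2 (norm_ne_zero_iff.2 (hn2 w))
  have hi3 : IntervalIntegrable (fun w : ℝ => (‖A‖ ^ 2 + ‖B‖ ^ 2 * w ^ 2) /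
      (‖A'‖ + ‖B'‖ * w) ^ 2) volume 0 l := by
    apply ContinuousOn.intervalIntegrable
    simp only [div_eq_mul_inv]
    refine ContinuousOn.mul ?_ hdc
    fun_prop
  have hi4 : IntervalIntegrable (fun w : ℝ => (‖A‖ ^ 2 + 2 * s * w + ‖B‖ ^ 2 * w ^ 2) /
      (‖A'‖ + ‖B'‖ * w) ^ 2) volume 0 l := by
    apply ContinuousOn.intervalIntegrable
    simp only [div_eq_mul_inv]
    refine ContinuousOn.mul ?_ hdc
    fun_prop
  have hL : ∫ t in (0 : ℝ)..l, ‖A - B * ((t : ℂ) * Complex.I)‖ ^ 2 /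
        ‖A' - B' * ((t : ℂ) * Complex.I)‖ ^ 2 ≤
      4 * ∫ w in (0 : ℝ)..l, (‖A‖ ^ 2 + ‖B‖ ^ 2 * w ^ 2) / (‖A'‖ + ‖B'‖ * w) ^ 2 := by
    rw [← intervalIntegral.integral_const_mul]
    refine intervalIntegral.integral_mono_on hl hi1 (hi3.const_mul 4) ?_
    intro t ht
    have h1 := hden1 t ht.1
    have h2 := hnum1 t ht.1
    have h3 := hdpos t ht.1
    have h4 : 0 < ‖A' - B' * ((t : ℂ) * Complex.I)‖ ^ 2 := by
      have := norm_pos_iff.2 (hn1 t ht.1)
      positivity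
    rw [← mul_div_assoc, div_le_div_iff₀ h4 (by positivity)]
    have h5 : 0 ≤ ‖A‖ ^ 2 + ‖B‖ ^ 2 * t ^ 2 := by positivity
    calc ‖A - B * ((t : ℂ) * Complex.I)‖ ^ 2 * (‖A'‖ + ‖B'‖ * t) ^ 2
        ≤ (2 * (‖A‖ ^ 2 + ‖B‖ ^ 2 * t ^ 2)) * (2 * ‖A' - B' * ((t : ℂ) * Complex.I)‖ ^ 2) :=
          mul_le_mul h2 h1 (by positivity) (by positivity)
      _ = _ := by ring
  have hRr : ∫ w in (0 : ℝ)..l, (‖A‖ ^ 2 + 2 * s * w + ‖B‖ ^ 2 * w ^ 2) / (‖A'‖ + ‖B'‖ * w) ^ 2 ≤
      ∫ w in (0 : ℝ)..l, ‖A + B * ((σ * w : ℝ) : ℂ)‖ ^ 2 /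
        ‖A' + B' * ((σ * w : ℝ) : ℂ)‖ ^ 2 := by
    refine intervalIntegral.integral_mono_on hl hi4 hi2 ?_
    intro w hw
    rw [← hnum2 w]
    have h4 : 0 < ‖A' + B' * ((σ * w : ℝ) : ℂ)‖ ^ 2 := by
      have := norm_pos_iff.2 (hn2 w)
      positivity
    exact div_le_div_of_nonneg_left (by positivity) h4 (hden2 w hw.1)
  linarith

/-- (d) conversion of the segment `e - i (t + a)` into the real interval `e + σ w - i a` -/
theorem ov_conv {e a l σ : ℝ} {α β α' β' : ℂ} (ha : 0 < a) (hl : 0 ≤ l) (hσ : σ = 1 ∨ σ = -1)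
    (h0 : ∀ z : ℂ, z.im < 0 → α' + β' * z ≠ 0) :
    ∫ t in (0 : ℝ)..l, ‖α + β * ((e : ℂ) - ((t + a : ℝ) : ℂ) * Complex.I)‖ ^ 2 /
        ‖α' + β' * ((e : ℂ) - ((t + a : ℝ) : ℂ) * Complex.I)‖ ^ 2 ≤
      64 * ∫ w in (0 : ℝ)..l, ‖α + β * (((e + σ * w : ℝ) : ℂ) - (a : ℂ) * Complex.I)‖ ^ 2 /
        ‖α' + β' * (((e + σ * w : ℝ) : ℂ) - (a : ℂ) * Complex.I)‖ ^ 2 := by
  have h := ov_conv0 (l := l) (A := α + β * ((e : ℂ) - (a : ℂ) * Complex.I)) (B := β)
    (A' := α' + β' * ((e : ℂ) - (a : ℂ) * Complex.I)) (B' := β') (σ := σ) hl hσ ?_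
  · have e1 : ∀ (x y : ℂ) (t : ℝ), x + y * ((e : ℂ) - ((t + a : ℝ) : ℂ) * Complex.I) =
        x + y * ((e : ℂ) - (a : ℂ) * Complex.I) - y * ((t : ℂ) * Complex.I) := by
      intro x y t
      push_cast
      ring
    have e2 : ∀ (x y : ℂ) (w : ℝ), x + y * (((e + σ * w : ℝ) : ℂ) - (a : ℂ) * Complex.I) =
        x + y * ((e : ℂ) - (a : ℂ) * Complex.I) + y * ((σ * w : ℝ) : ℂ) := by
      intro x y w
      push_cast
      ring
    simp only [e1, e2]
    exact h
  · intro z hz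
    have := h0 ((e : ℂ) - (a : ℂ) * Complex.I + z) (by simp; linarith)
    intro hc
    apply this
    rw [← hc]
    ring

/-! ### (e) -/

theorem ov_int_inv_sq {r l : ℝ} (hr : 0 < r) (hl : 0 ≤ l) :
    ∫ t in (0 : ℝ)..l, ((r + t) ^ 2)⁻¹ = r⁻¹ - (r + l)⁻¹ := by
  have hne : ∀ t ∈ Set.uIcc 0 l, r + t ≠ 0 := by
    intro t ht
    rw [Set.uIcc_of_le hl] at ht
    linarith [ht.1]
  have h : ∀ t ∈ Set.uIcc 0 l, HasDerivAt (fun t : ℝ => -(r + t)⁻¹) (((r + t) ^ 2)⁻¹) t := by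
    intro t ht
    have h1 : HasDerivAt (fun t : ℝ => r + t) 1 t := (hasDerivAt_id t).const_add _
    have h2 := (h1.inv (hne t ht)).neg
    refine h2.congr_deriv ?_
    rw [neg_div, neg_neg, one_div]
  rw [intervalIntegral.integral_eq_sub_of_hasDerivAt h]
  · rw [add_zero]
    ring
  · apply ContinuousOn.intervalIntegrable
    apply ContinuousOn.inv₀
    · fun_prop
    · intro t ht
      exact pow_ne_zero 2 (hne t ht)

theorem ov_end_ne {y : ℂ} (hy : 0 < y.im) (e t : ℝ) (ht : 0 ≤ t) :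
    0 < ‖(e : ℂ) - (t : ℂ) * Complex.I - y‖ := by
  rw [norm_pos_iff]
  intro h
  have := congrArg Complex.im h
  simp at this
  linarith

/-- lower bound of the integral over the segment below an end point -/
theorem ov_end {y : ℂ} (hy : 0 < y.im) (e : ℝ) {l : ℝ} (hl : 0 ≤ l) :
    l / (‖(e : ℂ) - y‖ * (‖(e : ℂ) - y‖ + l)) ≤
      ∫ t in (0 : ℝ)..l, (‖(e : ℂ) - (t : ℂ) * Complex.I - y‖ ^ 2)⁻¹ := by
  have hr : 0 < ‖(e : ℂ) - y‖ := by
    have := ov_end_ne hy e 0 le_rfl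
    simpa using this
  set r := ‖(e : ℂ) - y‖ with hrd
  have e1 : l / (r * (r + l)) = r⁻¹ - (r + l)⁻¹ := by
    field_simp
    ring
  rw [e1, ← ov_int_inv_sq hr hl]
  refine intervalIntegral.integral_mono_on hl ?_ ?_ ?_
  · apply ContinuousOn.intervalIntegrable
    apply ContinuousOn.inv₀
    · fun_prop
    · intro t ht
      rw [Set.uIcc_of_le hl] at ht
      exact pow_ne_zero 2 (by linarith [ht.1])
  · apply ContinuousOn.intervalIntegrable
    apply ContinuousOn.inv₀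
    · fun_prop
    · intro t ht
      rw [Set.uIcc_of_le hl] at ht
      exact pow_ne_zero 2 (ov_end_ne hy e t ht.1).ne'
  · intro t ht
    have hp := ov_end_ne hy e t ht.1
    refine inv_anti₀ (by positivity) (pow_le_pow_left₀ (norm_nonneg _) ?_ 2)
    have e2 : (e : ℂ) - (t : ℂ) * Complex.I - y = ((e : ℂ) - y) - (t : ℂ) * Complex.I := by ring
    rw [e2]
    refine (norm_sub_le _ _).trans (add_le_add_right ?_ _)
    rw [norm_mul, Complex.norm_I, mul_one, Complex.norm_real, Real.norm_of_nonneg ht.1]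

/-- the exact integral -/
theorem ov_one_eq {y : ℂ} (hy : 0 < y.im) (e1 e2 : ℝ) :
    ∫ v in e1..e2, (((v : ℂ) - y) ^ 2)⁻¹ = ((e1 : ℂ) - y)⁻¹ - ((e2 : ℂ) - y)⁻¹ := by
  have hne : ∀ v : ℝ, (v : ℂ) - y ≠ 0 := by
    intro v h
    have := congrArg Complex.im h
    simp at this
    linarith
  have h : ∀ v ∈ Set.uIcc e1 e2, HasDerivAt (fun v : ℝ => -((v : ℂ) - y)⁻¹)
      ((((v : ℂ) - y) ^ 2)⁻¹) v := by
    intro v _
    have h1 : HasDerivAt (fun v : ℝ => (v : ℂ) - y) 1 v :=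
      (Complex.ofRealCLM.hasDerivAt (x := v)).sub_const _
    have h2 := (h1.inv (hne v)).neg
    refine h2.congr_deriv ?_
    rw [neg_div, neg_neg, one_div]
  rw [intervalIntegral.integral_eq_sub_of_hasDerivAt h]
  · ring
  · apply Continuous.intervalIntegrable
    apply Continuous.inv₀
    · fun_prop
    · intro v
      exact pow_ne_zero 2 (hne v)

theorem ov_one_norm {y : ℂ} (hy : 0 < y.im) {e1 e2 : ℝ} (he : e1 ≤ e2) :
    ‖∫ v in e1..e2, (((v : ℂ) - y) ^ 2)⁻¹‖ = (e2 - e1) / (‖(e1 : ℂ) - y‖ * ‖(e2 : ℂ) - y‖) := by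
  rw [ov_one_eq hy]
  have hne : ∀ v : ℝ, (v : ℂ) - y ≠ 0 := by
    intro v h
    have := congrArg Complex.im h
    simp at this
    linarith
  have h : ((e1 : ℂ) - y)⁻¹ - ((e2 : ℂ) - y)⁻¹ =
      ((e2 - e1 : ℝ) : ℂ) / (((e1 : ℂ) - y) * ((e2 : ℂ) - y)) := by
    have a1 := hne e1
    have a2 := hne e2
    field_simp
    push_cast
    ring
  rw [h, norm_div, norm_mul, Complex.norm_real, Real.norm_of_nonneg (by linarith)]

/-- (e) -/
theorem ov_one {y : ℂ} (hy : 0 < y.im) {e1 e2 : ℝ} (he : e1 ≤ e2) :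
    ‖∫ v in e1..e2, (((v : ℂ) - y) ^ 2)⁻¹‖ ≤
      3 * ((∫ t in (0 : ℝ)..(e2 - e1), (‖(e1 : ℂ) - (t : ℂ) * Complex.I - y‖ ^ 2)⁻¹) +
        ∫ t in (0 : ℝ)..(e2 - e1), (‖(e2 : ℂ) - (t : ℂ) * Complex.I - y‖ ^ 2)⁻¹) := by
  rw [ov_one_norm hy he]
  have hl : 0 ≤ e2 - e1 := by linarith
  have h1 := ov_end hy e1 hl
  have h2 := ov_end hy e2 hl
  have hr1 : 0 < ‖(e1 : ℂ) - y‖ := by
    have := ov_end_ne hy e1 0 le_rfl
    simpa using this
  have hr2 : 0 < ‖(e2 : ℂ) - y‖ := by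
    have := ov_end_ne hy e2 0 le_rfl
    simpa using this
  have htri : e2 - e1 ≤ ‖(e1 : ℂ) - y‖ + ‖(e2 : ℂ) - y‖ := by
    have h : ((e2 - e1 : ℝ) : ℂ) = ((e2 : ℂ) - y) - ((e1 : ℂ) - y) := by push_cast; ring
    have h3 : ‖((e2 - e1 : ℝ) : ℂ)‖ = e2 - e1 := by
      rw [Complex.norm_real, Real.norm_of_nonneg hl]
    rw [← h3, h]
    refine (norm_sub_le _ _).trans (le_of_eq (add_comm _ _))
  set r1 := ‖(e1 : ℂ) - y‖ with hr1d
  set r2 := ‖(e2 : ℂ) - y‖ with hr2d
  set l := e2 - e1 with hld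
  have hn1 : 0 ≤ l / (r1 * (r1 + l)) := by positivity
  have hn2 : 0 ≤ l / (r2 * (r2 + l)) := by positivity
  rcases le_total r1 r2 with hle | hle
  · have h3 : l / (r1 * r2) ≤ 3 * (l / (r1 * (r1 + l))) := by
      rw [← mul_div_assoc, div_le_div_iff₀ (by positivity) (by positivity)]
      have : r1 + l ≤ 3 * r2 := by linarith
      have h5 := mul_le_mul_of_nonneg_left this (mul_nonneg hl hr1.le)
      nlinarith
    linarith
  · have h3 : l / (r1 * r2) ≤ 3 * (l / (r2 * (r2 + l))) := by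
      rw [← mul_div_assoc, div_le_div_iff₀ (by positivity) (by positivity)]
      have : r2 + l ≤ 3 * r1 := by linarith
      have h5 := mul_le_mul_of_nonneg_left this (mul_nonneg hl hr2.le)
      nlinarith
    linarith

end Pool.Agent.Lib.MP_562b47_mp.LW
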