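import Pool.Agent.Lib.MP_562b47_mp.LW.Split
import Pool.Agent.Lib.MP_562b47_mp.LW.OV

/-!
MP_562b47, d = 2, Lemma H' (weak form), local theorem: the average of `1 / |det|` over the varied
sites.
-/

open MeasureTheory Matrix Finset

set_option linter.unusedSectionVars false

namespace Pool.Agent.Lib.MP_562b47_mp.LW

open Pool.Agent.Lib.MP_562b47_mp.AL Pool.Agent.Lib.MP_562b47_mp.WO Pool.Agent.Lib.MP_562b47_mp

open Sp

variable {ι : Type} [Fintype ι] [DecidableEq ι] {c a R : ℝ} {A : Matrix ι ι ℝ} {v : ι → ℂ}
  {Lam Fz : Finset ι} {s x : ι}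

namespace Sp

theorem pot_insert {z : ι} {T : Finset ι} (hz : z ∉ T) (a : ℝ) (v : ι → ℂ) (V : ι → ℝ) :
    pot (insert z T) (fun _ => a) v V =
      Function.update (pot T (fun _ => a) v V) z ((V z : ℂ) - (a : ℂ) * Complex.I) := by
  funext y
  by_cases h : y = z
  · subst h
    rw [Function.update_self, pot, if_pos (mem_insert_self _ _)]
  · rw [Function.update_of_ne h]
    unfold pot
    by_cases h2 : y ∈ T
    · rw [if_pos h2, if_pos (mem_insert_of_mem h2)]
    · rw [if_neg h2, if_neg (fun h3 => (mem_insert.1 h3).elim h h2)]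

theorem pot_upd {z : ι} {T : Finset ι} (hz : z ∉ T) (a : ℝ) (v : ι → ℂ) (V : ι → ℝ) (w : ℂ) :
    Function.update (pot T (fun _ => a) v V) z w =
      pot T (fun _ => a) (Function.update v z w) V := by
  funext y
  by_cases h : y = z
  · subst h
    rw [Function.update_self, pot, if_neg hz, Function.update_self]
  · rw [Function.update_of_ne h]
    unfold pot
    rw [Function.update_of_ne h]

theorem pot_upd_V {z : ι} {T : Finset ι} (hz : z ∉ T) (a : ℝ) (v : ι → ℂ) (V : ι → ℝ) (w : ℝ) :
    pot T (fun _ => a) v (Function.update V z w) = pot T (fun _ => a) v V := by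
  funext y
  unfold pot
  by_cases h2 : y ∈ T
  · rw [if_pos h2, if_pos h2, Function.update_of_ne (by rintro rfl; exact hz h2)]
  · rw [if_neg h2, if_neg h2]

theorem flat_insert {z : ι} {T : Finset ι} (hz : z ∉ T) (v : ι → ℂ) :
    flat T (Function.update v z (-Complex.I)) = flat (insert z T) v := by
  funext y
  unfold flat
  by_cases h : y = z
  · subst h
    rw [if_neg hz, Function.update_self, if_pos (mem_insert_self _ _)]
  · by_cases h2 : y ∈ T
    · rw [if_pos h2, if_pos (mem_insert_of_mem h2)]
    · rw [if_neg h2, if_neg (fun h3 => (mem_insert.1 h3).elim h h2), Function.update_of_ne h]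

theorem flat_upd {z : ι} {T : Finset ι} (hz : z ∉ T) (v : ι → ℂ) (w : ℂ) :
    flat T (Function.update v z w) = Function.update (flat T v) z w := by
  funext y
  unfold flat
  by_cases h : y = z
  · subst h
    rw [if_neg hz, Function.update_self, Function.update_self]
  · rw [Function.update_of_ne h, Function.update_of_ne h]

theorem loss_upd {v : ι → ℂ} (hv : Loss v) {z : ι} {w : ℂ} (hw : w.im < 0) :
    Loss (Function.update v z w) := by
  intro y
  by_cases h : y = z
  · subst h; rw [Function.update_self]; exact hw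
  · rw [Function.update_of_ne h]; exact hv y

theorem loss_pot {v : ι → ℂ} (hv : Loss v) (ha : 0 < a) (T : Finset ι) (V : ι → ℝ) :
    Loss (pot T (fun _ => a) v V) := by
  intro y
  unfold pot
  by_cases h : y ∈ T
  · rw [if_pos h]; simp [ha]
  · rw [if_neg h]; exact hv y

theorem continuous_pot (T : Finset ι) (a : ℝ) (v : ι → ℂ) :
    Continuous fun V : ι → ℝ => pot T (fun _ => a) v V := by
  refine continuous_pi fun y => ?_
  unfold pot
  by_cases h2 : y ∈ T
  · simp only [if_pos h2]
    fun_prop
  · simp only [if_neg h2]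
    exact continuous_const

theorem integrable_inv_dt (hA : A.IsSymm) (hc : 0 < c) (ha : 0 < a) (T : Finset ι) {v : ι → ℂ}
    (hv : Loss v) :
    Integrable (fun V => ‖dt A (pot T (fun _ => a) v V)‖⁻¹) (muc ι c) := by
  have hprob := muc_prob (ι := ι) hc
  have hcont : Continuous fun V : ι → ℝ => ‖dt A (pot T (fun _ => a) v V)‖⁻¹ :=
    Continuous.inv₀ ((continuous_dt A).comp (continuous_pot T a v)).norm fun V =>
      (norm_pos_iff.2 (dt_ne hA (loss_pot hv ha T V))).ne'
  have hK : IsCompact (Set.pi Set.univ fun _ : ι => Set.Icc (-c) c) :=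
    isCompact_univ_pi fun _ => isCompact_Icc
  obtain ⟨C, hC⟩ := hK.exists_bound_of_continuousOn hcont.continuousOn
  refine Integrable.mono' (integrable_const C) hcont.aestronglyMeasurable ?_
  filter_upwards [muc_ae (ι := ι) hc] with V hV
  exact hC V fun y _ => hV y

/-- the average of `1 / |det|` -/
theorem int_inv_dt (hA : A.IsSymm) (hc : 0 < c) (ha : 0 < a) (ha2 : a ≤ 1 / 2) (T : Finset ι) :
    ∀ v : ι → ℂ, Loss v →
    ∫ V, ‖dt A (pot T (fun _ => a) v V)‖⁻¹ ∂(muc ι c) ≤
      (Cc c * Real.log (2 / a)) ^ T.card * ‖dt A (flat T v)‖⁻¹ := by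
  have hprob := muc_prob (ι := ι) hc
  have hprob1 := unif_prob hc
  have hCc := Cc_pos hc
  have hlog := ov_log_ge ha ha2
  induction T using Finset.induction_on with
  | empty =>
    intro v hv
    have e1 : ∀ V : ι → ℝ, pot ∅ (fun _ => a) v V = v := fun V => by
      funext y; simp [pot]
    have e2 : flat ∅ v = v := by funext y; simp [flat]
    simp_rw [e1]
    rw [e2]
    simp
  | insert z T hz ih =>
    intro v hv
    have hint := integrable_inv_dt hA hc ha (insert z T) hv
    rw [integral_upd hc z hint, card_insert_of_notMem hz, pow_succ]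
    have hv' : Loss (Function.update v z (-Complex.I)) := loss_upd hv (by simp)
    have h1 : ∀ V : ι → ℝ, ∫ w, ‖dt A (pot (insert z T) (fun _ => a) v
        (Function.update V z w))‖⁻¹ ∂(unif c) ≤
        Cc c * Real.log (2 / a) *
          ‖dt A (pot T (fun _ => a) (Function.update v z (-Complex.I)) V)‖⁻¹ := by
      intro V
      obtain ⟨α, β, hab⟩ := dt_aff A (pot T (fun _ => a) v V) z
      have hne : ∀ u : ℂ, u.im < 0 → α + β * u ≠ 0 := fun u hu => by
        rw [← hab]
        exact dt_ne hA (loss_upd (loss_pot hv ha T V) hu)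
      have h2 := ov_c (α := α) (β := β) hc ha ha2 hne
      have e1 : ∀ w : ℝ, dt A (pot (insert z T) (fun _ => a) v (Function.update V z w)) =
          α + β * ((w : ℂ) - (a : ℂ) * Complex.I) := fun w => by
        rw [pot_insert hz, pot_upd_V hz, Function.update_self, hab]
      simp_rw [e1]
      rw [← pot_upd hz, hab]
      exact h2
    refine (integral_mono_of_nonneg (Filter.Eventually.of_forall fun V =>
      integral_nonneg fun w => by positivity)
      ((integrable_inv_dt hA hc ha T hv').const_mul _)
      (Filter.Eventually.of_forall h1)).trans ?_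
    rw [integral_const_mul]
    have h3 := ih _ hv'
    rw [flat_insert hz] at h3
    calc Cc c * Real.log (2 / a) *
          ∫ V, ‖dt A (pot T (fun _ => a) (Function.update v z (-Complex.I)) V)‖⁻¹ ∂(muc ι c)
        ≤ Cc c * Real.log (2 / a) *
          ((Cc c * Real.log (2 / a)) ^ T.card * ‖dt A (flat (insert z T) v)‖⁻¹) :=
          mul_le_mul_of_nonneg_left h3 (by positivity)
      _ = _ := by ring

end Sp

/-- the form used by the split -/
theorem log_bound (hS : Setup c a A v Lam Fz s R) {us : ℂ} (hus : us.im < 0) :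
    ∫ V, ‖dt A (Function.update (pot Lam (fun _ => a) v V) s us)‖⁻¹ ∂(muc ι c) ≤
      (Cc c * Real.log (2 / a)) ^ Lam.card *
        ‖dt A (Function.update (flat Lam v) s us)‖⁻¹ := by
  have h := int_inv_dt hS.symm hS.c_pos hS.a_pos hS.a_le Lam (Function.update v s us)
    (loss_upd hS.loss hus)
  rw [flat_upd hS.s_lam] at h
  simp_rw [pot_upd hS.s_lam]
  exact h

end Pool.Agent.Lib.MP_562b47_mp.LW
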