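import Pool.Agent.Lib.MP_562b47_mp.LW.Defs
import Pool.Agent.Lib.MP_562b47_mp.AL.Ward

/-!
MP_562b47, Lemma H', local theorem: comparison of two determinants which differ at few sites.
-/

open MeasureTheory Matrix Finset

namespace Pool.Agent.Lib.MP_562b47_mp.LW

open Pool.Agent.Lib.MP_562b47_mp.AL Pool.Agent.Lib.MP_562b47_mp.WO Pool.Agent.Lib.MP_562b47_mp

variable {ι : Type*} [Fintype ι] [DecidableEq ι] {A : Matrix ι ι ℝ}

/-- change of the potential on `F`: the determinants differ by a `F × F` determinant -/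
theorem det_change (hA : A.IsSymm) {u u' : ι → ℂ} (hu : Loss u) (F : Finset ι)
    (hoff : ∀ y, y ∉ F → u' y = u y) :
    (HM A u').det = (HM A u).det * (1 + Matrix.of fun (y z : F) =>
      (u' y - u y) * GM A u y z).det := by
  set P : Matrix ι F ℂ := Matrix.of fun x y => if x = y.1 then 1 else 0 with hP
  set Q : Matrix F ι ℂ := Matrix.of fun y x => if x = y.1 then (u' y.1 - u y.1) else 0 with hQ
  have hdet := HM_det hA hu
  have h1 : HM A u' = HM A u + P * Q := by
    ext x y
    rw [Matrix.add_apply, HM_apply, HM_apply, Matrix.mul_apply]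
    simp only [hP, hQ, Matrix.of_apply]
    by_cases hx : x ∈ F
    · rw [Finset.sum_eq_single (⟨x, hx⟩ : F)]
      · by_cases hxy : x = y
        · subst hxy
          simp
        · have : ¬ y = x := fun h => hxy h.symm
          simp [hxy, this]
      · intro z _ hz
        have : ¬ x = z.1 := fun h => hz (Subtype.ext h.symm)
        simp [this]
      · intro h
        exact absurd (Finset.mem_univ _) h
    · rw [Finset.sum_eq_zero]
      · by_cases hxy : x = y
        · subst hxy
          simp [hoff x hx]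
        · simp [hxy]
      · intro z _
        have : ¬ x = z.1 := fun h => hx (h ▸ z.2)
        simp [this]
  have h2 : HM A u' = HM A u * (1 + GM A u * P * Q) := by
    rw [h1, Matrix.mul_add, Matrix.mul_one, Matrix.mul_assoc, GM, ← Matrix.mul_assoc,
      Matrix.mul_nonsing_inv _ hdet, Matrix.one_mul]
  rw [h2, Matrix.det_mul, Matrix.det_one_add_mul_comm]
  congr 3
  ext y z
  rw [Matrix.mul_apply, Matrix.of_apply]
  rw [Finset.sum_eq_single y.1]
  · simp only [hQ, Matrix.of_apply, if_true]
    rw [Matrix.mul_apply, Finset.sum_eq_single z.1]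
    · simp [hP]
    · intro w _ hw
      simp [hP, hw]
    · intro h
      exact absurd (Finset.mem_univ _) h
  · intro w _ hw
    simp [hQ, hw]
  · intro h
    exact absurd (Finset.mem_univ _) h

/-- the size of the ratio -/
theorem det_ratio (hA : A.IsSymm) {u u' : ι → ℂ} (hu : Loss u) (F : Finset ι)
    (hoff : ∀ y, y ∉ F → u' y = u y) {Γ M : ℝ} (hM : 0 ≤ M)
    (hG : ∀ y ∈ F, ∀ z ∈ F, ‖GM A u y z‖ ≤ Γ) (hw : ∀ y ∈ F, ‖u' y - u y‖ ≤ M) :
    ‖(HM A u').det‖ ≤ (F.card.factorial : ℝ) * (1 + M * Γ) ^ F.card * ‖(HM A u).det‖ := by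
  rw [det_change hA hu F hoff, norm_mul, mul_comm]
  refine mul_le_mul_of_nonneg_right ?_ (norm_nonneg _)
  have h := Matrix.det_le (A := (1 + Matrix.of fun (y z : F) => (u' y - u y) * GM A u y z))
    (abv := NormedField.toAbsoluteValue ℂ) (x := 1 + M * Γ) (fun i j => by
      show ‖((1 : Matrix F F ℂ) + Matrix.of fun (y z : F) => (u' y - u y) * GM A u y z) i j‖ ≤ _
      rw [Matrix.add_apply, Matrix.of_apply]
      refine (norm_add_le _ _).trans (add_le_add ?_ ?_)
      · rw [Matrix.one_apply]
        split_ifs <;> simp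
      · rw [norm_mul]
        exact mul_le_mul (hw _ i.2) (hG _ i.2 _ j.2) (norm_nonneg _) hM)
  rw [nsmul_eq_mul, Fintype.card_coe] at h
  exact h

/-- ratio of the fully flat determinant to the flat determinant with frozen sites -/
theorem ratio {v : ι → ℂ} {Lam Fz : Finset ι} {s : ι} {R Γ : ℝ} {us : ℂ} (hA : A.IsSymm)
    (hv : Loss v) (hR : 1 ≤ R) (hfz : ∀ y ∈ Fz, ‖v y‖ ≤ R) (_hs : s ∉ Lam) (hsF : s ∉ Fz)
    (hd : Disjoint Lam Fz) (hus : us.im < 0) (husR : ‖us‖ ≤ R) (hΓ : 1 ≤ Γ)
    (hG : HypG A v Lam Fz s Γ us) :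
    ‖dt A (flat (BB Lam Fz s) v)‖ ≤ ((Fz.card + 1).factorial : ℝ) * (3 * R * Γ) ^ (Fz.card + 1) *
      ‖dt A (Function.update (flat Lam v) s us)‖ := by
  have hloss : Loss (Function.update (flat Lam v) s us) := by
    intro y
    by_cases hy : y = s
    · rw [hy, Function.update_self]
      exact hus
    · rw [Function.update_of_ne hy, flat]
      split_ifs
      · simp
      · exact hv y
  have hcard : (insert s Fz).card = Fz.card + 1 := Finset.card_insert_of_notMem hsF
  have h := det_ratio (A := A) (u := Function.update (flat Lam v) s us)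
    (u' := flat (BB Lam Fz s) v) hA hloss (insert s Fz) ?_ (Γ := Γ) (M := 1 + R)
    (by linarith) hG ?_
  · rw [hcard] at h
    refine h.trans (mul_le_mul_of_nonneg_right ?_ (norm_nonneg _))
    refine mul_le_mul_of_nonneg_left ?_ (Nat.cast_nonneg _)
    refine pow_le_pow_left₀ (by positivity) ?_ _
    nlinarith [mul_le_mul hR hΓ zero_le_one (by linarith)]
  · intro y hy
    rw [Finset.mem_insert, not_or] at hy
    rw [Function.update_of_ne hy.1, flat, flat]
    by_cases hyL : y ∈ Lam
    · rw [if_pos hyL, if_pos (by simp [BB, hyL])]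
    · rw [if_neg hyL, if_neg (by simp [BB, hyL, hy.1, hy.2])]
  · intro y hy
    have h1 : flat (BB Lam Fz s) v y = -Complex.I := by
      rw [flat, if_pos]
      rw [Finset.mem_insert] at hy
      rw [BB, Finset.mem_insert, Finset.mem_union]
      tauto
    rw [h1]
    refine (norm_sub_le _ _).trans (add_le_add (by simp) ?_)
    rcases Finset.mem_insert.mp hy with hy | hy
    · rw [hy, Function.update_self]
      exact husR
    · have hys : y ≠ s := fun h => hsF (h ▸ hy)
      rw [Function.update_of_ne hys, flat, if_neg (fun h => (Finset.disjoint_left.mp hd h) hy)]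
      exact hfz y hy

end Pool.Agent.Lib.MP_562b47_mp.LW
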