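import Pool.Agent.Lib.MP_562b47_mp.LW.Norm
import Pool.Agent.Lib.MP_562b47_mp.LW.Ratio
import Pool.Agent.Lib.MP_562b47_mp.LW.Log

/-!
MP_562b47, d = 2, Lemma H' (weak form): the local theorem.
-/

open MeasureTheory Matrix Finset

set_option linter.unusedSectionVars false

namespace Pool.Agent.Lib.MP_562b47_mp.LW

open Pool.Agent.Lib.MP_562b47_mp.AL Pool.Agent.Lib.MP_562b47_mp.WO Pool.Agent.Lib.MP_562b47_mp

namespace Sp

variable {ι : Type} [Fintype ι] [DecidableEq ι]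

theorem win_nonneg (S : Finset ι) (lo hi V : ι → ℝ) : 0 ≤ win S lo hi V := by
  unfold win
  split_ifs <;> norm_num

theorem A1_nonneg (c : ℝ) {a : ℝ} (ha : 0 < a) (A : Matrix ι ι ℝ) (v : ι → ℂ)
    (Lam Fz : Finset ι) (s x : ι) (j0 j1 : ℝ) : 0 ≤ A1 c a A v Lam Fz s x j0 j1 :=
  integral_nonneg fun V => mul_nonneg (win_nonneg _ _ _ _)
    (sum_nonneg fun y _ => by positivity)

theorem A2_nonneg (c : ℝ) (A : Matrix ι ι ℝ) (v : ι → ℂ)
    (Lam Fz : Finset ι) (s x : ι) (lo hi γ : ι → ℝ) (us : (ι → ℝ) → ℂ) :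
    0 ≤ A2 c A v Lam Fz s x lo hi γ us :=
  integral_nonneg fun V => mul_nonneg (win_nonneg _ _ _ _) (by positivity)

theorem A3_nonneg (c : ℝ) {a : ℝ} (ha : 0 < a) (A : Matrix ι ι ℝ) (v : ι → ℂ)
    (Lam : Finset ι) (s x : ι) (e : ℝ) {l : ℝ} (hl : 0 ≤ l) (σ : ℝ) {om : (ι → ℝ) → ℝ}
    (h0 : ∀ V, 0 ≤ om V) : 0 ≤ A3 c a A v Lam s x e l σ om :=
  integral_nonneg fun V => mul_nonneg (h0 V) (intervalIntegral.integral_nonneg hl fun w _ =>
    sum_nonneg fun y _ => by positivity)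

theorem WW_nonneg {Lam Fz : Finset ι} {s : ι} {lo hi : ι → ℝ} (h : ∀ y, lo y < hi y) :
    0 ≤ WW Lam Fz s lo hi :=
  prod_nonneg fun y _ => by
    have := sub_pos.2 (h y)
    positivity

theorem card_BB {Lam Fz : Finset ι} {s : ι} (hs : s ∉ Lam) (hf : s ∉ Fz)
    (hd : Disjoint Lam Fz) : (BB Lam Fz s).card = Lam.card + Fz.card + 1 := by
  unfold BB
  rw [card_insert_of_notMem, card_union_of_disjoint hd]
  rw [mem_union, not_or]
  exact ⟨hs, hf⟩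

/-- comparison of the constants -/
theorem const_le {R q C1 C2 Γ lg : ℝ} (hR : 1 ≤ R) (hq : 1 ≤ q) (h1 : 1 ≤ C1) (h2 : 1 ≤ C2)
    (hΓ : 1 ≤ Γ) (hlg : 1 ≤ lg) (m k b : ℕ) (hb : b = m + k + 1) :
    8 * R ^ 2 * Γ * b * (((k + 1).factorial : ℝ) * (3 * R * Γ) ^ (k + 1)) * (q * lg) ^ m * lg *
      (C1 * C2) ^ b ≤
    (32 + 8 * R ^ 2 + 6 * |R| * q * C1 * C2) ^ (3 * b + 3) * ((k + 1).factorial : ℝ) ^ 2 *
      Γ ^ (2 * k + 4) * lg ^ (m + 1) := by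
  have hR0 : 0 < R := by linarith
  rw [abs_of_pos hR0]
  set C := 32 + 8 * R ^ 2 + 6 * R * q * C1 * C2 with hC
  have hp : 0 ≤ 6 * R * q * C1 * C2 := by positivity
  have hC1 : 1 ≤ C := by nlinarith [sq_nonneg R]
  have hCR : 8 * R ^ 2 ≤ C := by linarith
  have hCq : 6 * R * q * C1 * C2 ≤ C := by nlinarith [sq_nonneg R]
  have hf : (1 : ℝ) ≤ ((k + 1).factorial : ℝ) := by
    exact_mod_cast Nat.one_le_iff_ne_zero.2 (Nat.factorial_ne_zero _)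
  have e1 : (b : ℝ) ≤ 2 ^ b := by
    exact_mod_cast (Nat.lt_two_pow_self (n := b)).le
  have e2 : (3 * R) ^ (k + 1) ≤ (3 * R) ^ b :=
    pow_le_pow_right₀ (by linarith) (by omega)
  have e3 : q ^ m ≤ q ^ b := pow_le_pow_right₀ hq (by omega)
  have e4 : Γ ^ (k + 2) ≤ Γ ^ (2 * k + 4) := pow_le_pow_right₀ hΓ (by omega)
  have e5 : ((k + 1).factorial : ℝ) ≤ ((k + 1).factorial : ℝ) ^ 2 := by nlinarith
  have eL : 8 * R ^ 2 * Γ * b * (((k + 1).factorial : ℝ) * (3 * R * Γ) ^ (k + 1)) *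
      (q * lg) ^ m * lg * (C1 * C2) ^ b =
      (8 * R ^ 2 * (b * (3 * R) ^ (k + 1) * q ^ m * (C1 * C2) ^ b)) *
        ((k + 1).factorial : ℝ) * Γ ^ (k + 2) * lg ^ (m + 1) := by
    rw [mul_pow (3 * R) Γ, mul_pow q lg]
    ring
  have e6 : 8 * R ^ 2 * (b * (3 * R) ^ (k + 1) * q ^ m * (C1 * C2) ^ b) ≤ C ^ (3 * b + 3) := by
    have g1 : (b : ℝ) * (3 * R) ^ (k + 1) * q ^ m * (C1 * C2) ^ b ≤
        2 ^ b * (3 * R) ^ b * q ^ b * (C1 * C2) ^ b := by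
      refine mul_le_mul_of_nonneg_right ?_ (by positivity)
      refine mul_le_mul ?_ e3 (by positivity) (by positivity)
      exact mul_le_mul e1 e2 (by positivity) (by positivity)
    have g2 : 2 ^ b * (3 * R) ^ b * q ^ b * (C1 * C2) ^ b = (6 * R * q * C1 * C2) ^ b := by
      rw [← mul_pow, ← mul_pow, ← mul_pow]
      congr 1
      ring
    rw [g2] at g1
    calc 8 * R ^ 2 * (b * (3 * R) ^ (k + 1) * q ^ m * (C1 * C2) ^ b)
        ≤ C * C ^ b := mul_le_mul hCR (g1.trans (pow_le_pow_left₀ hp hCq b)) (by positivity)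
          (by linarith)
      _ = C ^ (b + 1) := by ring
      _ ≤ C ^ (3 * b + 3) := pow_le_pow_right₀ hC1 (by omega)
  rw [eL]
  have hC0 : 0 ≤ C := by linarith
  refine mul_le_mul_of_nonneg_right ?_ (by positivity)
  refine mul_le_mul ?_ e4 (by positivity) (by positivity)
  exact mul_le_mul e6 e5 (by positivity) (by positivity)

end Sp

open Sp

/-- LOCAL THEOREM -/
theorem local_bound (c R l0 : ℝ) (hc : 0 < c) (hl0 : 0 < l0) : ∃ C : ℝ, 1 ≤ C ∧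
    ∀ (ι : Type) [Fintype ι] [DecidableEq ι] (a : ℝ) (A : Matrix ι ι ℝ) (v : ι → ℂ)
      (Lam Fz : Finset ι) (s x : ι), Setup c a A v Lam Fz s R →
    ∀ (j0 j1 : ℝ), -c ≤ j0 → j1 ≤ c → l0 ≤ j1 - j0 →
    ∀ (lo hi γ : ι → ℝ) (us : (ι → ℝ) → ℂ), (∀ y, -c ≤ lo y) → (∀ y, hi y ≤ c) →
      (∀ y, lo y < hi y) → (∀ y, 0 < γ y) → (∀ y, γ y ≤ 1) → Measurable us →
    ∀ g0 : ℝ, 0 < g0 → (∀ V, (us V).im ≤ -g0) → (∀ V, ‖us V‖ ≤ R) →
    ∀ (e l σ Γ : ℝ) (om : (ι → ℝ) → ℝ), |e| ≤ c → 0 < l → l ≤ 2 * c → (σ = 1 ∨ σ = -1) →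
      1 ≤ Γ → Measurable om → (∀ V, 0 ≤ om V) → (∀ V, om V ≤ 1) →
      (∀ t ∈ Set.Icc 0 l, HypG A v Lam Fz s Γ ((e : ℂ) - ((t + a : ℝ) : ℂ) * Complex.I)) →
      (∀ t ∈ Set.Icc 0 l, HypF c a A v Lam Fz s x Γ ((e : ℂ) - ((t + a : ℝ) : ℂ) * Complex.I)) →
      UU c a A v Lam s x e l om ≤
          ZZ a Lam Fz s C Γ * (a ^ (-(1 / 2) : ℝ) * (WW Lam Fz s lo hi *
            A2 c A v Lam Fz s x lo hi γ us) + a ^ (-(7 / 8) : ℝ) * A1 c a A v Lam Fz s x j0 j1) +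
          C * a ^ (-(3 / 4) : ℝ) * A3 c a A v Lam s x e l σ om ∧
      UU c a A v Lam s x e l om ≤ ZZ a Lam Fz s C Γ * a⁻¹ * A1 c a A v Lam Fz s x j0 j1 := by
  obtain ⟨C1, hC1, H1⟩ := norm_A1 c R l0 hc hl0
  obtain ⟨C2, hC2, H2⟩ := norm_A2 c R hc
  have hq := Cc_ge hc
  have hCpos : (0 : ℝ) ≤ 6 * |R| * Cc c * C1 * C2 := by positivity
  refine ⟨32 + 8 * R ^ 2 + 6 * |R| * Cc c * C1 * C2, by nlinarith [sq_nonneg R], ?_⟩
  intro ι _ _ a A v Lam Fz s x hS j0 j1 hj0 hj1 hj lo hi γ us hlo hhi hlohi hγ hγ1 husm g0 hg0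
    husi husR e l σ Γ om he hl hl2 hσ hΓ hom h0 h1 hG hF
  have ha := hS.a_pos
  have ha1 : a ≤ 1 := by linarith [hS.a_le]
  have hR0 : 0 < R := by linarith [hS.R_ge]
  have hR1 : 1 ≤ R := by linarith [hS.R_ge]
  have hlg := ov_log_ge ha hS.a_le
  set D := ‖dt A (flat (BB Lam Fz s) v)‖ with hD
  have hD0 : 0 < D := norm_pos_iff.2 (dt_ne hS.symm (loss_flat hS.loss _))
  set X1 := A1 c a A v Lam Fz s x j0 j1 with hX1
  set X2 := WW Lam Fz s lo hi * A2 c A v Lam Fz s x lo hi γ us with hX2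
  set X3 := A3 c a A v Lam s x e l σ om with hX3
  have hX1n : 0 ≤ X1 := A1_nonneg c ha A v Lam Fz s x j0 j1
  have hX2n : 0 ≤ X2 := mul_nonneg (WW_nonneg hlohi) (A2_nonneg c A v Lam Fz s x lo hi γ us)
  have hX3n : 0 ≤ X3 := A3_nonneg c ha A v Lam s x e hl.le σ h0
  set b := (BB Lam Fz s).card with hb
  have hbb : b = Lam.card + Fz.card + 1 := card_BB hS.s_lam hS.s_frz hS.disj
  set kap := Real.sqrt (C1 ^ b * (a⁻¹ * X1)) with hkap
  set eps := Real.sqrt (C2 ^ b * X2) with heps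
  have hkap2 : kap ^ 2 = C1 ^ b * (a⁻¹ * X1) := Real.sq_sqrt (by positivity)
  have heps2 : eps ^ 2 = C2 ^ b * X2 := Real.sq_sqrt (by positivity)
  have hkap0 : 0 ≤ kap := Real.sqrt_nonneg _
  have heps0 : 0 ≤ eps := Real.sqrt_nonneg _
  have hN : ∀ u : ι → ℂ, (∀ y ∈ BB Lam Fz s, ‖u y‖ ≤ R) → (∀ y, y ∉ BB Lam Fz s → u y = v y) →
      ∀ y ∈ BB Lam Fz s, ‖adj A y x u‖ ≤ kap * D := by
    intro u hu huv y hy
    have h := H1 ι a A v Lam Fz s x hS j0 j1 hj0 hj1 hj u hu huv y hy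
    rw [← hX1, ← hD, ← hb, ← hkap2, ← mul_pow] at h
    exact (pow_le_pow_iff_left₀ (norm_nonneg _) (by positivity) two_ne_zero).1 h
  have hNs : ∀ u : ι → ℂ, (∀ y ∈ BB Lam Fz s, ‖u y‖ ≤ R) → (∀ y, y ∉ BB Lam Fz s → u y = v y) →
      ‖adj A s x u‖ ≤ eps * D := by
    intro u hu huv
    have h := H2 ι a A v Lam Fz s x hS lo hi γ us g0 hlo hhi hlohi hγ hγ1 husm hg0 husi husR
      u hu huv
    rw [← hX2, ← hD, ← hb, ← heps2, ← mul_pow] at h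
    exact (pow_le_pow_iff_left₀ (norm_nonneg _) (by positivity) two_ne_zero).1 h
  have hRat : ∀ t ∈ Set.Icc 0 l, D ≤
      (((Fz.card + 1).factorial : ℝ) * (3 * R * Γ) ^ (Fz.card + 1)) *
      ‖dt A (Function.update (flat Lam v) s ((e : ℂ) - ((t + a : ℝ) : ℂ) * Complex.I))‖ :=
    fun t ht => ratio hS.symm hS.loss hR1 hS.frz hS.s_lam hS.s_frz hS.disj (us_im ha ht.1)
      (us_le ha hS.a_le hS.R_ge he hl2 ht) hΓ (hG t ht)
  have hLog : ∀ t ∈ Set.Icc 0 l,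
      ∫ V, ‖dt A (Function.update (pot Lam (fun _ => a) v V) s
        ((e : ℂ) - ((t + a : ℝ) : ℂ) * Complex.I))‖⁻¹ ∂(muc ι c) ≤
      (Cc c * Real.log (2 / a)) ^ Lam.card * ‖dt A (Function.update (flat Lam v) s
        ((e : ℂ) - ((t + a : ℝ) : ℂ) * Complex.I))‖⁻¹ :=
    fun t ht => log_bound hS (us_im ha ht.1)
  have hconst := const_le hR1 hq hC1 hC2 hΓ hlg Lam.card Fz.card b hbb
  set K := (((Fz.card + 1).factorial : ℝ) * (3 * R * Γ) ^ (Fz.card + 1)) with hK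
  set Lg := (Cc c * Real.log (2 / a)) ^ Lam.card with hLg
  set Z := ZZ a Lam Fz s (32 + 8 * R ^ 2 + 6 * |R| * Cc c * C1 * C2) Γ with hZ
  have hK0 : 0 ≤ K := by positivity
  have hLg0 : 0 ≤ Lg := by positivity
  have hZc : 8 * R ^ 2 * Γ * b * K * Lg * Real.log (2 / a) * (C1 * C2) ^ b ≤ Z := hconst
  have hCC1 : C1 ^ b ≤ (C1 * C2) ^ b :=
    pow_le_pow_left₀ (by linarith) (le_mul_of_one_le_right (by linarith) hC2) b
  have hCC2 : C2 ^ b ≤ (C1 * C2) ^ b :=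
    pow_le_pow_left₀ (by linarith) (le_mul_of_one_le_left (by linarith) hC1) b
  have hcrude := split_all (x := x) hS he hl.le hl2 hΓ hom h0 h1 hF hkap0 hK0 hLg0 hN hRat hLog
  rw [← hb] at hcrude
  set P := 4 * R ^ 2 * Γ * b * K * Lg * Real.log (2 / a) with hP
  have hP0 : 0 ≤ P := by positivity
  have hPZ : 2 * P * (C1 * C2) ^ b ≤ Z := by
    refine le_trans (le_of_eq ?_) hZc
    rw [hP]; ring
  have hZ0 : 0 ≤ Z := le_trans (by positivity) hPZ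
  have hcr2 : UU c a A v Lam s x e l om ≤ Z * a⁻¹ * X1 := by
    refine hcrude.trans ?_
    rw [hkap2]
    have g1 : P * (C1 ^ b * (a⁻¹ * X1)) ≤ P * ((C1 * C2) ^ b * (a⁻¹ * X1)) :=
      mul_le_mul_of_nonneg_left (mul_le_mul_of_nonneg_right hCC1 (by positivity)) hP0
    have g2 : P * (C1 * C2) ^ b ≤ Z := by
      have : 0 ≤ P * (C1 * C2) ^ b := by positivity
      linarith
    calc P * (C1 ^ b * (a⁻¹ * X1)) ≤ (P * (C1 * C2) ^ b) * (a⁻¹ * X1) := by linarith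
      _ ≤ Z * (a⁻¹ * X1) := mul_le_mul_of_nonneg_right g2 (by positivity)
      _ = Z * a⁻¹ * X1 := by ring
  refine ⟨?_, hcr2⟩
  -- powers of `a`
  set r := a ^ (1 / 8 : ℝ) with hr
  have hr0 : 0 < r := Real.rpow_pos_of_pos ha _
  have hr8 : r ^ 8 = a := by
    rw [hr, ← Real.rpow_natCast, ← Real.rpow_mul ha.le]
    norm_num
  have hr1 : r ≤ 1 := Real.rpow_le_one ha.le ha1 (by norm_num)
  have p12 : a ^ (-(1 / 2) : ℝ) = (r ^ 4)⁻¹ := by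
    rw [hr, ← Real.rpow_natCast, ← Real.rpow_mul ha.le, ← Real.rpow_neg ha.le]
    norm_num
  have p78 : a ^ (-(7 / 8) : ℝ) = (r ^ 7)⁻¹ := by
    rw [hr, ← Real.rpow_natCast, ← Real.rpow_mul ha.le, ← Real.rpow_neg ha.le]
    norm_num
  have p34 : a ^ (-(3 / 4) : ℝ) = (r ^ 6)⁻¹ := by
    rw [hr, ← Real.rpow_natCast, ← Real.rpow_mul ha.le, ← Real.rpow_neg ha.le]
    norm_num
  have pinv : a⁻¹ = (r ^ 8)⁻¹ := by rw [hr8]
  rcases hkap0.eq_or_lt with hk | hk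
  · -- `kap = 0`
    rw [← hk] at hcrude
    have : UU c a A v Lam s x e l om ≤ 0 := by
      refine hcrude.trans (le_of_eq ?_)
      ring
    refine this.trans ?_
    rw [p12, p78, p34]
    have hC0 : 0 ≤ 32 + 8 * R ^ 2 + 6 * |R| * Cc c * C1 * C2 := by positivity
    positivity
  · set del := eps / (r * kap) + r ^ 2 with hdel
    have hdel0 : 0 < del := by positivity
    have hfine := split (x := x) hS he hl.le hl2 hσ hΓ hom h0 h1 hF hk heps0 hdel0 hK0 hLg0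
      hN hNs hRat hLog
    rw [← hb, ← hX3, ← hP] at hfine
    -- the ratio
    have q1 : eps / (del * kap) ≤ r := by
      rw [div_le_iff₀ (by positivity)]
      have : r * (del * kap) = eps + r ^ 3 * kap := by
        rw [hdel]
        field_simp
      rw [this]
      have : 0 ≤ r ^ 3 * kap := by positivity
      linarith
    have q2 : (eps / (del * kap)) ^ 2 ≤ r ^ 2 := pow_le_pow_left₀ (by positivity) q1 2
    have q3 : del * kap ^ 2 ≤ 2 * (eps ^ 2 * (r ^ 4)⁻¹ + kap ^ 2 * r ^ 2) := by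
      have g1 : del * kap ^ 2 = (eps * (r ^ 2)⁻¹) * (kap * r) + kap ^ 2 * r ^ 2 := by
        rw [hdel]
        field_simp
      have g2 : (eps * (r ^ 2)⁻¹) ^ 2 = eps ^ 2 * (r ^ 4)⁻¹ := by
        rw [mul_pow, inv_pow]
        ring
      have g3 : (kap * r) ^ 2 = kap ^ 2 * r ^ 2 := mul_pow _ _ _
      rw [g1]
      nlinarith [sq_nonneg (eps * (r ^ 2)⁻¹ - kap * r), sq_nonneg (eps * (r ^ 2)⁻¹),
        sq_nonneg (kap * r)]
    have q4 : P * (del * kap ^ 2) ≤ Z * ((r ^ 4)⁻¹ * X2 + (r ^ 7)⁻¹ * X1) := by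
      have g1 : eps ^ 2 * (r ^ 4)⁻¹ + kap ^ 2 * r ^ 2 ≤
          (C1 * C2) ^ b * ((r ^ 4)⁻¹ * X2 + (r ^ 7)⁻¹ * X1) := by
        rw [heps2, hkap2, pinv]
        have g2 : C2 ^ b * X2 * (r ^ 4)⁻¹ ≤ (C1 * C2) ^ b * X2 * (r ^ 4)⁻¹ :=
          mul_le_mul_of_nonneg_right (mul_le_mul_of_nonneg_right hCC2 hX2n) (by positivity)
        have g3 : C1 ^ b * ((r ^ 8)⁻¹ * X1) * r ^ 2 ≤ (C1 * C2) ^ b * ((r ^ 7)⁻¹ * X1) := by
          have g4 : (r ^ 8)⁻¹ * r ^ 2 ≤ (r ^ 7)⁻¹ := by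
            have : (r ^ 8)⁻¹ * r ^ 2 = (r ^ 7)⁻¹ * r := by
              field_simp
            rw [this]
            exact mul_le_of_le_one_right (by positivity) hr1
          calc C1 ^ b * ((r ^ 8)⁻¹ * X1) * r ^ 2 = C1 ^ b * (((r ^ 8)⁻¹ * r ^ 2) * X1) := by ring
            _ ≤ (C1 * C2) ^ b * ((r ^ 7)⁻¹ * X1) :=
              mul_le_mul hCC1 (mul_le_mul_of_nonneg_right g4 hX1n) (by positivity)
                (by positivity)
        calc _ ≤ (C1 * C2) ^ b * X2 * (r ^ 4)⁻¹ + (C1 * C2) ^ b * ((r ^ 7)⁻¹ * X1) :=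
              add_le_add g2 g3
          _ = _ := by ring
      calc P * (del * kap ^ 2) ≤ P * (2 * ((C1 * C2) ^ b * ((r ^ 4)⁻¹ * X2 + (r ^ 7)⁻¹ * X1))) :=
            mul_le_mul_of_nonneg_left (q3.trans (by linarith)) hP0
        _ = (2 * P * (C1 * C2) ^ b) * ((r ^ 4)⁻¹ * X2 + (r ^ 7)⁻¹ * X1) := by ring
        _ ≤ _ := mul_le_mul_of_nonneg_right hPZ (by positivity)
    have q5 : 32 * (eps / (del * kap)) ^ 2 * (a⁻¹ * X3) ≤
        (32 + 8 * R ^ 2 + 6 * |R| * Cc c * C1 * C2) * (r ^ 6)⁻¹ * X3 := by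
      have g1 : (eps / (del * kap)) ^ 2 * a⁻¹ ≤ (r ^ 6)⁻¹ := by
        rw [pinv]
        have : r ^ 2 * (r ^ 8)⁻¹ = (r ^ 6)⁻¹ := by field_simp
        rw [← this]
        exact mul_le_mul_of_nonneg_right q2 (by positivity)
      have g2 : (32 : ℝ) ≤ 32 + 8 * R ^ 2 + 6 * |R| * Cc c * C1 * C2 := by
        have : 0 ≤ 8 * R ^ 2 := by positivity
        linarith
      calc 32 * (eps / (del * kap)) ^ 2 * (a⁻¹ * X3)
          = 32 * ((eps / (del * kap)) ^ 2 * a⁻¹) * X3 := by ring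
        _ ≤ (32 + 8 * R ^ 2 + 6 * |R| * Cc c * C1 * C2) * (r ^ 6)⁻¹ * X3 := by
            refine mul_le_mul_of_nonneg_right ?_ hX3n
            exact mul_le_mul g2 g1 (by positivity) (by positivity)
    rw [p12, p78, p34]
    linarith

end Pool.Agent.Lib.MP_562b47_mp.LW
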