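import Mathlib

set_option autoImplicit false

namespace Pool.Agent.Lib.MP_562b47_mp.LW

open MeasureTheory Finset Function
open scoped ENNReal

theorem int_quad (lo hi A B D : ℝ) :
    ∫ v in lo..hi, (A + B * (v - (lo + hi) / 2) + D * (v - (lo + hi) / 2) ^ 2) =
      A * (hi - lo) + D * (hi - lo) ^ 3 / 12 := by
  have h : ∀ v ∈ Set.uIcc lo hi, HasDerivAt
      (fun v : ℝ => A * v + B * (v - (lo + hi) / 2) ^ 2 / 2 + D * (v - (lo + hi) / 2) ^ 3 / 3)
      (A + B * (v - (lo + hi) / 2) + D * (v - (lo + hi) / 2) ^ 2) v := by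
    intro v _
    have h1 : HasDerivAt (fun v : ℝ => v - (lo + hi) / 2) 1 v := (hasDerivAt_id v).sub_const _
    have h2 := (h1.pow 2).const_mul (B / 2)
    have h3 := (h1.pow 3).const_mul (D / 3)
    have h4 := ((hasDerivAt_id v).const_mul A).add (h2.add h3)
    refine (h4.congr_deriv ?_).congr_of_eventuallyEq (Filter.Eventually.of_forall fun y => ?_)
    · norm_num; ring
    · simp; ring
  rw [intervalIntegral.integral_eq_sub_of_hasDerivAt h]
  · ring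
  · apply Continuous.intervalIntegrable
    fun_prop

/-- `∫ |α + β (v - i γ)|²` -/
theorem int_aff (lo hi : ℝ) (α β ga : ℂ) :
    ∫ v in lo..hi, ‖α + β * ((v : ℂ) - ga)‖ ^ 2 =
      ‖α + β * ((((lo + hi) / 2 : ℝ) : ℂ) - ga)‖ ^ 2 * (hi - lo) + ‖β‖ ^ 2 * (hi - lo) ^ 3 / 12 := by
  rw [← int_quad lo hi _ (2 * ((α + β * ((((lo + hi) / 2 : ℝ) : ℂ) - ga)).re * β.re +
    (α + β * ((((lo + hi) / 2 : ℝ) : ℂ) - ga)).im * β.im)) _]
  congr 1
  funext v
  have e : α + β * ((v : ℂ) - ga) = (α + β * ((((lo + hi) / 2 : ℝ) : ℂ) - ga)) +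
      β * ((v - (lo + hi) / 2 : ℝ) : ℂ) := by push_cast; ring
  rw [e]
  set w := α + β * ((((lo + hi) / 2 : ℝ) : ℂ) - ga) with hw
  set s : ℝ := v - (lo + hi) / 2 with hs
  rw [← Complex.normSq_eq_norm_sq, ← Complex.normSq_eq_norm_sq, ← Complex.normSq_eq_norm_sq,
    Complex.normSq_apply, Complex.normSq_apply, Complex.normSq_apply]
  simp only [Complex.add_re, Complex.add_im, Complex.mul_re, Complex.mul_im, Complex.ofReal_re,
    Complex.ofReal_im]
  ring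

theorem aff_le (lo hi R : ℝ) (hlt : lo < hi) (hR : 0 < R) (hlo : -R ≤ lo) (hhi : hi ≤ R)
    (α β ga u : ℂ) (hga : ‖ga‖ ≤ R) (hu : ‖u‖ ≤ R) :
    ‖α + β * u‖ ^ 2 ≤ 216 * R ^ 2 / (hi - lo) ^ 3 * ∫ v in lo..hi, ‖α + β * ((v : ℂ) - ga)‖ ^ 2 := by
  rw [int_aff]
  set w := α + β * ((((lo + hi) / 2 : ℝ) : ℂ) - ga) with hw
  have hl : 0 < hi - lo := sub_pos.2 hlt
  have e : α + β * u = w + β * (u - (((lo + hi) / 2 : ℝ) : ℂ) + ga) := by rw [hw]; ring
  have hm : ‖(((lo + hi) / 2 : ℝ) : ℂ)‖ ≤ R := by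
    rw [Complex.norm_real, Real.norm_eq_abs, abs_le]
    constructor <;> linarith
  have h1 : ‖α + β * u‖ ≤ ‖w‖ + ‖β‖ * (3 * R) := by
    rw [e]
    refine (norm_add_le _ _).trans (add_le_add_right ?_ _)
    rw [norm_mul]
    refine mul_le_mul_of_nonneg_left ?_ (norm_nonneg _)
    refine (norm_add_le _ _).trans ?_
    have := norm_sub_le u (((lo + hi) / 2 : ℝ) : ℂ)
    linarith
  have h2 : ‖α + β * u‖ ^ 2 ≤ 2 * ‖w‖ ^ 2 + 18 * R ^ 2 * ‖β‖ ^ 2 := by
    have := pow_le_pow_left₀ (norm_nonneg _) h1 2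
    nlinarith [sq_nonneg (‖w‖ - ‖β‖ * (3 * R))]
  refine h2.trans ?_
  have hl2 : hi - lo ≤ 2 * R := by linarith
  have e2 : 216 * R ^ 2 / (hi - lo) ^ 3 * (‖w‖ ^ 2 * (hi - lo) + ‖β‖ ^ 2 * (hi - lo) ^ 3 / 12) =
      216 * R ^ 2 / (hi - lo) ^ 2 * ‖w‖ ^ 2 + 18 * R ^ 2 * ‖β‖ ^ 2 := by
    field_simp
    ring
  rw [e2]
  have h3 : 2 ≤ 216 * R ^ 2 / (hi - lo) ^ 2 := by
    rw [le_div_iff₀ (by positivity)]
    nlinarith
  nlinarith [sq_nonneg ‖w‖]

/-- the lintegral form -/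
theorem aff_le_lint (lo hi R : ℝ) (hlt : lo < hi) (hR : 0 < R) (hlo : -R ≤ lo) (hhi : hi ≤ R)
    (α β ga u : ℂ) (hga : ‖ga‖ ≤ R) (hu : ‖u‖ ≤ R) :
    ENNReal.ofReal (‖α + β * u‖ ^ 2) ≤ ENNReal.ofReal (216 * R ^ 2 / (hi - lo) ^ 3) *
      ∫⁻ v in Set.Icc lo hi, ENNReal.ofReal (‖α + β * ((v : ℂ) - ga)‖ ^ 2) := by
  have hc : Continuous fun v : ℝ => ‖α + β * ((v : ℂ) - ga)‖ ^ 2 := by fun_prop
  have h := aff_le lo hi R hlt hR hlo hhi α β ga u hga hu
  rw [intervalIntegral.integral_of_le hlt.le, ← integral_Icc_eq_integral_Ioc] at h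
  rw [← ofReal_integral_eq_lintegral_ofReal (hc.continuousOn.integrableOn_Icc)
    (Filter.Eventually.of_forall fun v => by positivity), ← ENNReal.ofReal_mul]
  · exact ENNReal.ofReal_le_ofReal h
  · have : 0 < hi - lo := sub_pos.2 hlt
    positivity

/-- affine functions without zeros in the open lower half plane -/
theorem stable_le (α β u : ℂ) (R τ : ℝ) (hτ : 0 < τ) (hu : ‖u‖ ≤ R)
    (h0 : ∀ z : ℂ, z.im < 0 → α + β * z ≠ 0) :
    ‖α + β * u‖ ≤ ((R + τ) / τ + 1) * ‖α + β * (-(τ : ℂ) * Complex.I)‖ := by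
  have hR : 0 ≤ R := (norm_nonneg _).trans hu
  by_cases hβ : β = 0
  · subst hβ
    simp only [zero_mul, add_zero]
    have : 0 ≤ (R + τ) / τ := by positivity
    nlinarith [norm_nonneg α]
  · set z := -α / β with hz
    have hzz : α + β * z = 0 := by rw [hz]; field_simp; ring
    have him : 0 ≤ z.im := by
      by_contra hc
      exact h0 z (not_le.1 hc) hzz
    have e1 : ∀ x, α + β * x = β * (x - z) := fun x => by linear_combination hzz
    rw [e1, e1, norm_mul, norm_mul]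
    have h1 : τ ≤ ‖-(τ : ℂ) * Complex.I - z‖ := by
      refine le_trans ?_ (Complex.abs_im_le_norm _)
      have : (-(τ : ℂ) * Complex.I - z).im = -τ - z.im := by simp
      rw [this, abs_of_neg (by linarith)]
      linarith
    have h2 : ‖u - z‖ ≤ (R + τ) + ‖-(τ : ℂ) * Complex.I - z‖ := by
      have e2 : u - z = (u + (τ : ℂ) * Complex.I) + (-(τ : ℂ) * Complex.I - z) := by ring
      rw [e2]
      refine (norm_add_le _ _).trans (add_le_add_left ?_ _)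
      refine (norm_add_le _ _).trans (add_le_add hu ?_)
      simp [abs_of_pos hτ]
    have h3 : (R + τ) ≤ (R + τ) / τ * ‖-(τ : ℂ) * Complex.I - z‖ := by
      have : (R + τ) = (R + τ) / τ * τ := by field_simp
      calc (R + τ) = (R + τ) / τ * τ := this
        _ ≤ _ := mul_le_mul_of_nonneg_left h1 (by positivity)
    have h4 : ‖u - z‖ ≤ ((R + τ) / τ + 1) * ‖-(τ : ℂ) * Complex.I - z‖ := by linarith
    calc ‖β‖ * ‖u - z‖ ≤ ‖β‖ * (((R + τ) / τ + 1) * ‖-(τ : ℂ) * Complex.I - z‖) :=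
          mul_le_mul_of_nonneg_left h4 (norm_nonneg _)
      _ = _ := by ring

end Pool.Agent.Lib.MP_562b47_mp.LW
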