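import Pool.Agent.Lib.MP_562b47_mp.LW.Defs
import Pool.Agent.Lib.MP_562b47_mp.LW.OneVar
import Pool.Agent.Lib.MP_562b47_mp.LL.MA2

/-!
L2m: a multi-affine function is bounded on the polydisc by its `L²` norm on a box.
-/

open MeasureTheory Matrix Finset
open scoped ENNReal

namespace Pool.Agent.Lib.MP_562b47_mp.LW

open Pool.Agent.Lib.MP_562b47_mp.AL Pool.Agent.Lib.MP_562b47_mp.WO Pool.Agent.Lib.MP_562b47_mp

variable {ι : Type*} [Fintype ι] [DecidableEq ι]

omit [Fintype ι] in
theorem MA.toLL {F : (ι → ℂ) → ℂ} (hF : MA F) : LL.MA F := by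
  intro V i s
  obtain ⟨α, β, h⟩ := hF V i
  unfold LL.pd
  rw [h s, h 0, h 1]
  ring

theorem MA.cont {F : (ι → ℂ) → ℂ} (hF : MA F) : Continuous F := hF.toLL.continuous

theorem measurable_pot (S : Finset ι) (γ : ι → ℝ) (v : ι → ℂ) : Measurable (pot S γ v) := by
  refine measurable_pi_lambda _ fun y => ?_
  unfold pot
  split
  · exact (Complex.measurable_ofReal.comp (measurable_pi_apply y)).sub_const _
  · exact measurable_const

theorem measurable_win (S : Finset ι) (lo hi : ι → ℝ) : Measurable (win S lo hi) := by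
  unfold win
  refine Measurable.ite ?_ measurable_const measurable_const
  have e : {V : ι → ℝ | ∀ y ∈ S, V y ∈ Set.Icc (lo y) (hi y)} =
      ⋂ y ∈ S, (fun V : ι → ℝ => V y) ⁻¹' Set.Icc (lo y) (hi y) := by
    ext V
    simp
  rw [e]
  exact Finset.measurableSet_biInter _ fun y _ => measurable_pi_apply y measurableSet_Icc

theorem lintegral_upd {c : ℝ} (hc : 0 < c) (w : ι) {G : (ι → ℝ) → ℝ≥0∞} (hG : Measurable G) :
    ∫⁻ V, G V ∂(muc ι c) = ∫⁻ V, ∫⁻ v, G (Function.update V w v) ∂(unif c) ∂(muc ι c) := by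
  have := muc_prob (ι := ι) hc
  have := unif_prob hc
  conv_lhs => rw [← map_upd hc w]
  rw [lintegral_map hG (measurable_upd w)]
  exact lintegral_prod (fun q : (ι → ℝ) × ℝ => G (Function.update q.1 w q.2))
    (hG.comp (measurable_upd w)).aemeasurable

theorem win_insert {S : Finset ι} {i : ι} (hi : i ∉ S) (lo hi' : ι → ℝ) (V : ι → ℝ) (v : ℝ) :
    win (insert i S) lo hi' (Function.update V i v) =
      (Set.Icc (lo i) (hi' i)).indicator 1 v * win S lo hi' V := by
  classical
  unfold win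
  by_cases hv : v ∈ Set.Icc (lo i) (hi' i)
  · rw [Set.indicator_of_mem hv, Pi.one_apply, one_mul]
    refine if_congr ?_ rfl rfl
    constructor
    · intro h y hy
      have hne : y ≠ i := fun e => hi (by rw [← e]; exact hy)
      have := h y (mem_insert_of_mem hy)
      rwa [Function.update_of_ne hne] at this
    · intro h y hy
      rcases mem_insert.1 hy with rfl | hy
      · rwa [Function.update_self]
      · have hne : y ≠ i := fun e => hi (by rw [← e]; exact hy)
        rw [Function.update_of_ne hne]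
        exact h y hy
  · rw [Set.indicator_of_notMem hv, zero_mul, if_neg]
    intro h
    have := h i (mem_insert_self i S)
    rw [Function.update_self] at this
    exact hv this

theorem pot_insert {S : Finset ι} {i : ι} (hi : i ∉ S) (γ : ι → ℝ) (u : ι → ℂ) (V : ι → ℝ)
    (v : ℝ) : pot (insert i S) γ u (Function.update V i v) =
      pot S γ (Function.update u i ((v : ℂ) - (γ i : ℂ) * Complex.I)) V := by
  funext y
  unfold pot
  by_cases hy : y = i
  · subst hy
    simp [hi]
  · simp [hy]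

theorem one_lint (c R : ℝ) (hc : 0 < c) (hcR : c ≤ R) (lo hi : ℝ) (hlo : -c ≤ lo) (hhi : hi ≤ c)
    (hlt : lo < hi) (α β ga u : ℂ) (hga : ‖ga‖ ≤ R) (hu : ‖u‖ ≤ R) :
    ENNReal.ofReal ((hi - lo) ^ 3) * ENNReal.ofReal (‖α + β * u‖ ^ 2) ≤
      ENNReal.ofReal (432 * c * R ^ 2) *
        ∫⁻ v, (Set.Icc lo hi).indicator 1 v * ENNReal.ofReal (‖α + β * ((v : ℂ) - ga)‖ ^ 2)
          ∂(unif c) := by
  have hl : 0 < hi - lo := sub_pos.2 hlt
  have h := aff_le_lint lo hi R hlt (hc.trans_le hcR) (by linarith) (by linarith) α β ga u hga hu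
  have hm : Measurable fun v : ℝ => ENNReal.ofReal (‖α + β * ((v : ℂ) - ga)‖ ^ 2) := by
    have : Continuous fun v : ℝ => ‖α + β * ((v : ℂ) - ga)‖ ^ 2 := by fun_prop
    exact this.measurable.ennreal_ofReal
  have e1 : ∀ v : ℝ, (Set.Icc lo hi).indicator 1 v * ENNReal.ofReal (‖α + β * ((v : ℂ) - ga)‖ ^ 2) =
      (Set.Icc lo hi).indicator (fun v : ℝ => ENNReal.ofReal (‖α + β * ((v : ℂ) - ga)‖ ^ 2)) v := by
    intro v
    by_cases hv : v ∈ Set.Icc lo hi
    · rw [Set.indicator_of_mem hv, Set.indicator_of_mem hv, Pi.one_apply, one_mul]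
    · rw [Set.indicator_of_notMem hv, Set.indicator_of_notMem hv, zero_mul]
  simp only [e1]
  unfold unif
  rw [lintegral_smul_measure, lintegral_indicator measurableSet_Icc,
    Measure.restrict_restrict measurableSet_Icc,
    Set.inter_eq_self_of_subset_left (Set.Icc_subset_Icc hlo hhi), smul_eq_mul, ← mul_assoc]
  have e2 : ENNReal.ofReal (432 * c * R ^ 2) * (ENNReal.ofReal (2 * c))⁻¹ =
      ENNReal.ofReal (216 * R ^ 2) := by
    rw [← ENNReal.ofReal_inv_of_pos (by linarith), ← ENNReal.ofReal_mul (by positivity)]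
    congr 1
    field_simp
    ring
  rw [e2]
  refine (mul_le_mul_right h _).trans (le_of_eq ?_)
  rw [← mul_assoc, ← ENNReal.ofReal_mul (by positivity)]
  congr 2
  field_simp

theorem L2m_lint (c R : ℝ) (hc : 0 < c) (hcR : c ≤ R) (hR : 1 ≤ R) (F : (ι → ℂ) → ℂ) (hF : MA F)
    (lo hi γ : ι → ℝ) (S : Finset ι) :
    (∀ y ∈ S, -c ≤ lo y) → (∀ y ∈ S, hi y ≤ c) → (∀ y ∈ S, lo y < hi y) → (∀ y ∈ S, |γ y| ≤ 1) →
    ∀ u : ι → ℂ, (∀ y ∈ S, ‖u y‖ ≤ R) →
    ENNReal.ofReal (∏ y ∈ S, (hi y - lo y) ^ 3) * ENNReal.ofReal (‖F u‖ ^ 2) ≤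
      ENNReal.ofReal (432 * c * R ^ 2) ^ S.card *
        ∫⁻ V, ENNReal.ofReal (win S lo hi V) * ENNReal.ofReal (‖F (pot S γ u V)‖ ^ 2) ∂(muc ι c) := by
  have := muc_prob (ι := ι) hc
  have := unif_prob hc
  have hFm : Measurable fun u : ι → ℂ => ENNReal.ofReal (‖F u‖ ^ 2) :=
    (hF.cont.norm.pow 2).measurable.ennreal_ofReal
  obtain ⟨K, hK⟩ : ∃ K : ℝ≥0∞, K = ENNReal.ofReal (432 * c * R ^ 2) := ⟨_, rfl⟩
  have hKt : K ≠ ∞ := by rw [hK]; exact ENNReal.ofReal_ne_top
  rw [← hK]
  induction S using Finset.induction_on with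
  | empty =>
    intro _ _ _ _ u _
    have hp : ∀ V : ι → ℝ, pot ∅ γ u V = u := fun V => by
      funext y
      simp [pot]
    have hw : ∀ V : ι → ℝ, win ∅ lo hi V = 1 := fun V => by simp [win]
    simp only [hp, hw, lintegral_const, measure_univ, Finset.prod_empty, Finset.card_empty, pow_zero,
      ENNReal.ofReal_one, one_mul, mul_one, le_refl]
  | insert i S hi' ih =>
    intro h1 h2 h3 h4 u hu
    have ih' := ih (fun y hy => h1 y (mem_insert_of_mem hy)) (fun y hy => h2 y (mem_insert_of_mem hy))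
      (fun y hy => h3 y (mem_insert_of_mem hy)) (fun y hy => h4 y (mem_insert_of_mem hy))
    obtain ⟨α, β, hab⟩ := hF u i
    have e0 : F u = α + β * u i := by
      rw [← hab, Function.update_eq_self]
    have hga : ‖(γ i : ℂ) * Complex.I‖ ≤ R := by
      rw [norm_mul, Complex.norm_real, Complex.norm_I, mul_one, Real.norm_eq_abs]
      exact (h4 i (mem_insert_self i S)).trans hR
    have hone := one_lint c R hc hcR (lo i) (hi i) (h1 i (mem_insert_self i S))
      (h2 i (mem_insert_self i S)) (h3 i (mem_insert_self i S)) α β ((γ i : ℂ) * Complex.I) (u i)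
      hga (hu i (mem_insert_self i S))
    rw [← e0, ← hK] at hone
    simp only [← hab] at hone
    have hpos : ∀ y ∈ insert i S, 0 ≤ (hi y - lo y) ^ 3 := fun y hy =>
      pow_nonneg (sub_nonneg.2 (h3 y hy).le) 3
    rw [Finset.prod_insert hi', ENNReal.ofReal_mul (hpos i (mem_insert_self i S)),
      Finset.card_insert_of_notMem hi']
    have hGm : Measurable fun V : ι → ℝ => ENNReal.ofReal (win (insert i S) lo hi V) *
        ENNReal.ofReal (‖F (pot (insert i S) γ u V)‖ ^ 2) :=
      (measurable_win _ _ _).ennreal_ofReal.mul (hFm.comp (measurable_pot _ _ _))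
    rw [lintegral_upd hc i hGm]
    have hswap : ∫⁻ V, ∫⁻ v, ENNReal.ofReal (win (insert i S) lo hi (Function.update V i v)) *
        ENNReal.ofReal (‖F (pot (insert i S) γ u (Function.update V i v))‖ ^ 2) ∂(unif c) ∂(muc ι c) =
        ∫⁻ v, ∫⁻ V, ENNReal.ofReal (win (insert i S) lo hi (Function.update V i v)) *
        ENNReal.ofReal (‖F (pot (insert i S) γ u (Function.update V i v))‖ ^ 2) ∂(muc ι c) ∂(unif c) := by
      refine lintegral_lintegral_swap (f := fun (V : ι → ℝ) (v : ℝ) =>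
        ENNReal.ofReal (win (insert i S) lo hi (Function.update V i v)) *
        ENNReal.ofReal (‖F (pot (insert i S) γ u (Function.update V i v))‖ ^ 2)) ?_
      exact (hGm.comp (measurable_upd i)).aemeasurable
    rw [hswap]
    calc ENNReal.ofReal ((hi i - lo i) ^ 3) * ENNReal.ofReal (∏ y ∈ S, (hi y - lo y) ^ 3) *
          ENNReal.ofReal (‖F u‖ ^ 2)
        = ENNReal.ofReal (∏ y ∈ S, (hi y - lo y) ^ 3) *
          (ENNReal.ofReal ((hi i - lo i) ^ 3) * ENNReal.ofReal (‖F u‖ ^ 2)) := by ring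
      _ ≤ ENNReal.ofReal (∏ y ∈ S, (hi y - lo y) ^ 3) * (K *
          ∫⁻ v, (Set.Icc (lo i) (hi i)).indicator 1 v * ENNReal.ofReal (‖F (Function.update u i
            ((v : ℂ) - (γ i : ℂ) * Complex.I))‖ ^ 2) ∂(unif c)) := mul_le_mul_right hone _
      _ = K *
          ∫⁻ v, (Set.Icc (lo i) (hi i)).indicator 1 v *
            (ENNReal.ofReal (∏ y ∈ S, (hi y - lo y) ^ 3) * ENNReal.ofReal (‖F (Function.update u i
            ((v : ℂ) - (γ i : ℂ) * Complex.I))‖ ^ 2)) ∂(unif c) := by
          rw [← mul_assoc, mul_comm (ENNReal.ofReal (∏ y ∈ S, (hi y - lo y) ^ 3)), mul_assoc,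
            ← lintegral_const_mul']
          · congr 2
            funext v
            ring
          · exact ENNReal.ofReal_ne_top
      _ ≤ K *
          ∫⁻ v, (Set.Icc (lo i) (hi i)).indicator 1 v * (K ^ S.card *
            ∫⁻ V, ENNReal.ofReal (win S lo hi V) * ENNReal.ofReal (‖F (pot S γ
              (Function.update u i ((v : ℂ) - (γ i : ℂ) * Complex.I)) V)‖ ^ 2) ∂(muc ι c))
            ∂(unif c) := by
          refine mul_le_mul_right (lintegral_mono fun v => mul_le_mul_right (ih' _ ?_) _) _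
          intro y hy
          have hne : y ≠ i := fun e => hi' (by rw [← e]; exact hy)
          rw [Function.update_of_ne hne]
          exact hu y (mem_insert_of_mem hy)
      _ = K ^ S.card * K *
          ∫⁻ v, ∫⁻ V, ENNReal.ofReal (win (insert i S) lo hi (Function.update V i v)) *
          ENNReal.ofReal (‖F (pot (insert i S) γ u (Function.update V i v))‖ ^ 2) ∂(muc ι c)
            ∂(unif c) := by
          rw [mul_comm (K ^ S.card), mul_assoc,
            ← lintegral_const_mul' _ _ (ENNReal.pow_ne_top hKt)]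
          congr 2
          funext v
          rw [mul_left_comm]
          congr 1
          rw [← lintegral_const_mul']
          · congr 1
            funext V
            rw [win_insert hi', pot_insert hi', ENNReal.ofReal_mul (Set.indicator_nonneg
              (fun _ _ => by simp) _), ← mul_assoc]
            congr 2
            by_cases hv : v ∈ Set.Icc (lo i) (hi i)
            · simp [Set.indicator_of_mem hv]
            · simp [Set.indicator_of_notMem hv]
          · by_cases hv : v ∈ Set.Icc (lo i) (hi i)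
            · simp [Set.indicator_of_mem hv]
            · simp [Set.indicator_of_notMem hv]
      _ = _ := by rw [← pow_succ]

theorem continuous_pot (S : Finset ι) (γ : ι → ℝ) (v : ι → ℂ) : Continuous (pot S γ v) := by
  refine continuous_pi fun y => ?_
  unfold pot
  split
  · exact (Complex.continuous_ofReal.comp (continuous_apply y)).sub continuous_const
  · exact continuous_const

theorem ae_muc {c : ℝ} (hc : 0 < c) : ∀ᵐ V ∂(muc ι c), ∀ y, V y ∈ Set.Icc (-c) c := by
  have := unif_prob hc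
  unfold muc
  rw [ae_all_iff]
  intro y
  exact (measurePreserving_eval (fun _ : ι => unif c) y).quasiMeasurePreserving.ae (ae_unif c)

theorem integrable_win {c : ℝ} (hc : 0 < c) {F : (ι → ℂ) → ℂ} (hF : Continuous F) (lo hi γ : ι → ℝ)
    (S T : Finset ι) (u : ι → ℂ) :
    Integrable (fun V => win T lo hi V * ‖F (pot S γ u V)‖ ^ 2) (muc ι c) := by
  have := muc_prob (ι := ι) hc
  have hcont : Continuous fun V : ι → ℝ => ‖F (pot S γ u V)‖ ^ 2 :=
    (hF.comp (continuous_pot S γ u)).norm.pow 2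
  have hcomp : IsCompact (Set.pi Set.univ fun _ : ι => Set.Icc (-c) c) :=
    isCompact_univ_pi fun _ => isCompact_Icc
  obtain ⟨B, hB⟩ := hcomp.exists_bound_of_continuousOn hcont.continuousOn
  refine Integrable.of_bound (((measurable_win T lo hi).mul hcont.measurable).aestronglyMeasurable)
    B ?_
  filter_upwards [ae_muc (ι := ι) hc] with V hV
  have h1 := hB V (fun y _ => hV y)
  have h2 : ‖win T lo hi V‖ ≤ 1 := by
    unfold win
    split <;> norm_num
  calc ‖win T lo hi V * ‖F (pot S γ u V)‖ ^ 2‖ = ‖win T lo hi V‖ * ‖‖F (pot S γ u V)‖ ^ 2‖ :=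
        norm_mul _ _
    _ ≤ 1 * B := mul_le_mul h2 h1 (norm_nonneg _) zero_le_one
    _ = B := one_mul B

/-- L2m -/
theorem L2m (c R : ℝ) (hc : 0 < c) (hcR : c ≤ R) (hR : 1 ≤ R) (F : (ι → ℂ) → ℂ) (hF : MA F)
    (lo hi γ : ι → ℝ) (S : Finset ι) (h1 : ∀ y ∈ S, -c ≤ lo y) (h2 : ∀ y ∈ S, hi y ≤ c)
    (h3 : ∀ y ∈ S, lo y < hi y) (h4 : ∀ y ∈ S, |γ y| ≤ 1) (u : ι → ℂ) (hu : ∀ y ∈ S, ‖u y‖ ≤ R) :
    (∏ y ∈ S, (hi y - lo y) ^ 3) * ‖F u‖ ^ 2 ≤
      (432 * c * R ^ 2) ^ S.card * ∫ V, win S lo hi V * ‖F (pot S γ u V)‖ ^ 2 ∂(muc ι c) := by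
  have := muc_prob (ι := ι) hc
  have hpos : 0 ≤ ∏ y ∈ S, (hi y - lo y) ^ 3 := Finset.prod_nonneg fun y hy =>
    pow_nonneg (sub_nonneg.2 (h3 y hy).le) 3
  have hwin : ∀ V, 0 ≤ win S lo hi V := fun V => by
    unfold win
    split <;> norm_num
  have h := L2m_lint c R hc hcR hR F hF lo hi γ S h1 h2 h3 h4 u hu
  have hI := integrable_win hc hF.cont lo hi γ S S u
  have hfin : ∫⁻ V, ENNReal.ofReal (win S lo hi V) * ENNReal.ofReal (‖F (pot S γ u V)‖ ^ 2)
      ∂(muc ι c) = ENNReal.ofReal (∫ V, win S lo hi V * ‖F (pot S γ u V)‖ ^ 2 ∂(muc ι c)) := by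
    rw [ofReal_integral_eq_lintegral_ofReal hI (Filter.Eventually.of_forall fun V =>
      mul_nonneg (hwin V) (by positivity))]
    congr 1
    funext V
    rw [ENNReal.ofReal_mul (hwin V)]
  rw [hfin, ← ENNReal.ofReal_mul hpos, ← ENNReal.ofReal_pow (by positivity),
    ← ENNReal.ofReal_mul (by positivity)] at h
  refine (ENNReal.ofReal_le_ofReal_iff ?_).1 h
  exact mul_nonneg (by positivity) (integral_nonneg fun V => mul_nonneg (hwin V) (by positivity))

end Pool.Agent.Lib.MP_562b47_mp.LW
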