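import Pool.Agent.Lib.MP_562b47_mp.LW.Defs
import Pool.Agent.Lib.MP_562b47_mp.AL.Ward

/-!
MP_562b47, d = 2, Lemma H' (weak form), local theorem: the stable determinant.
-/

open Matrix Finset

set_option linter.unusedSectionVars false

namespace Pool.Agent.Lib.MP_562b47_mp.LW

open Pool.Agent.Lib.MP_562b47_mp.AL

variable {ι : Type*} [Fintype ι] [DecidableEq ι]

/-- affine functions without zeros in the open lower half plane -/
private theorem stable_one (α β u : ℂ) (R τ : ℝ) (hτ : 0 < τ) (hu : ‖u‖ ≤ R)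
    (h0 : ∀ z : ℂ, z.im < 0 → α + β * z ≠ 0) :
    ‖α + β * u‖ ≤ ((R + τ) / τ + 1) * ‖α + β * (-(τ : ℂ) * Complex.I)‖ := by
  have hR : 0 ≤ R := (norm_nonneg _).trans hu
  by_cases hβ : β = 0
  · subst hβ
    simp only [zero_mul, add_zero]
    have : 0 ≤ (R + τ) / τ := by positivity
    nlinarith [norm_nonneg α]
  · set z := -α / β with hz
    have hzz : α + β * z = 0 := by rw [hz]; field_simp; ring
    have him : 0 ≤ z.im := by
      by_contra hc
      exact h0 z (not_le.1 hc) hzz
    have e1 : ∀ x, α + β * x = β * (x - z) := fun x => by linear_combination hzz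
    rw [e1, e1, norm_mul, norm_mul]
    have h1 : τ ≤ ‖-(τ : ℂ) * Complex.I - z‖ := by
      refine le_trans ?_ (Complex.abs_im_le_norm _)
      have : (-(τ : ℂ) * Complex.I - z).im = -τ - z.im := by simp
      rw [this, abs_of_neg (by linarith)]
      linarith
    have h2 : ‖u - z‖ ≤ (R + τ) + ‖-(τ : ℂ) * Complex.I - z‖ := by
      have e2 : u - z = (u + (τ : ℂ) * Complex.I) + (-(τ : ℂ) * Complex.I - z) := by ring
      rw [e2]
      refine (norm_add_le _ _).trans (add_le_add_left ?_ _)
      refine (norm_add_le _ _).trans (add_le_add hu ?_)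
      simp [abs_of_pos hτ]
    have h3 : (R + τ) ≤ (R + τ) / τ * ‖-(τ : ℂ) * Complex.I - z‖ := by
      have : (R + τ) = (R + τ) / τ * τ := by field_simp
      calc (R + τ) = (R + τ) / τ * τ := this
        _ ≤ _ := mul_le_mul_of_nonneg_left h1 (by positivity)
    have h4 : ‖u - z‖ ≤ ((R + τ) / τ + 1) * ‖-(τ : ℂ) * Complex.I - z‖ := by linarith
    calc ‖β‖ * ‖u - z‖ ≤ ‖β‖ * (((R + τ) / τ + 1) * ‖-(τ : ℂ) * Complex.I - z‖) :=
          mul_le_mul_of_nonneg_left h4 (norm_nonneg _)
      _ = _ := by ring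

theorem loss_upd {u : ι → ℂ} (hu : Loss u) (s : ι) {w : ℂ} (hw : w.im < 0) :
    Loss (Function.update u s w) := by
  intro x
  by_cases hx : x = s
  · subst hx; simpa using hw
  · simpa [Function.update_of_ne hx] using hu x

/-- the determinant is affine in each potential -/
theorem dt_aff (A : Matrix ι ι ℝ) (u : ι → ℂ) (z : ι) :
    ∃ α β : ℂ, ∀ t : ℂ, dt A (Function.update u z t) = α + β * t := by
  have h0 : ∀ t : ℂ, HM A (Function.update u z t) =
      (HM A (Function.update u z 0)).updateRow z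
        (HM A (Function.update u z 0) z + t • Pi.single z (1 : ℂ)) := by
    intro t
    ext i j
    by_cases hi : i = z
    · subst hi
      rw [updateRow_self]
      simp only [HM_apply, Pi.add_apply, Pi.smul_apply, smul_eq_mul]
      by_cases hj : i = j
      · subst hj; simp
      · simp [hj, Ne.symm hj]
    · rw [updateRow_ne hi]
      simp only [HM_apply]
      by_cases hj : i = j
      · subst hj; simp [Function.update_of_ne hi]
      · simp [hj]
  refine ⟨(HM A (Function.update u z 0)).det,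
    ((HM A (Function.update u z 0)).updateRow z (Pi.single z (1 : ℂ))).det, fun t => ?_⟩
  unfold dt
  rw [h0 t, det_updateRow_add, det_updateRow_smul, updateRow_eq_self]
  ring

theorem dt_ma (A : Matrix ι ι ℝ) : MA (dt A) := fun u z => dt_aff A u z

theorem dt_ne {A : Matrix ι ι ℝ} (hA : A.IsSymm) {u : ι → ℂ} (hu : Loss u) : dt A u ≠ 0 :=
  (HM_det hA hu).ne_zero

/-- one variable -/
theorem stab_one {A : Matrix ι ι ℝ} (hA : A.IsSymm) {u : ι → ℂ} (hu : Loss u) (z : ι) {w : ℂ}
    {R : ℝ} (hw : ‖w‖ ≤ R) :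
    ‖dt A (Function.update u z w)‖ ≤ (R + 2) * ‖dt A (Function.update u z (-Complex.I))‖ := by
  obtain ⟨α, β, h⟩ := dt_aff A u z
  have h1 := stable_one α β w R 1 one_pos hw (fun t ht => by
    rw [← h t]
    exact dt_ne hA (loss_upd hu z ht))
  rw [h, h]
  refine h1.trans (le_of_eq ?_)
  congr 1
  · ring
  · congr 3
    push_cast
    ring

theorem flat_insert {S : Finset ι} {z : ι} (hz : z ∉ S) (u : ι → ℂ) :
    flat (insert z S) u = Function.update (flat S u) z (-Complex.I) := by
  funext y
  unfold flat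
  by_cases hy : y = z
  · subst hy; simp
  · simp [hy]

theorem flat_empty (u : ι → ℂ) : flat ∅ u = u := by
  funext y; simp [flat]

theorem flat_loss {u : ι → ℂ} (S : Finset ι) (hu : ∀ y ∉ S, (u y).im < 0) : Loss (flat S u) := by
  intro y
  unfold flat
  by_cases hy : y ∈ S
  · simp [hy]
  · simpa [hy] using hu y hy

/-- stable determinant: `|dt A u| ≤ (R + 2) ^ |S| |dt A (flat S u)|` -/
theorem stab {A : Matrix ι ι ℝ} (hA : A.IsSymm) (S : Finset ι) {u : ι → ℂ} (hu : Loss u) {R : ℝ}
    (hR : ∀ y ∈ S, ‖u y‖ ≤ R) : ‖dt A u‖ ≤ (R + 2) ^ S.card * ‖dt A (flat S u)‖ := by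
  induction S using Finset.induction_on with
  | empty => simp [flat_empty]
  | insert z S hz ih =>
    have h1 := ih fun y hy => hR y (mem_insert_of_mem hy)
    have hR0 : 0 ≤ R := (norm_nonneg _).trans (hR z (mem_insert_self z S))
    have h2 := stab_one hA (flat_loss S fun y _ => hu y) z (hR z (mem_insert_self z S))
    have h3 : Function.update (flat S u) z (u z) = flat S u := by
      funext y
      by_cases hy : y = z
      · subst hy; simp [flat, hz]
      · simp [Function.update_of_ne hy]
    rw [h3, ← flat_insert hz] at h2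
    rw [card_insert_of_notMem hz, pow_succ]
    calc ‖dt A u‖ ≤ (R + 2) ^ S.card * ‖dt A (flat S u)‖ := h1
      _ ≤ (R + 2) ^ S.card * ((R + 2) * ‖dt A (flat (insert z S) u)‖) :=
        mul_le_mul_of_nonneg_left h2 (by positivity)
      _ = _ := by ring

end Pool.Agent.Lib.MP_562b47_mp.LW
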