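import Pool.Agent.Lib.MP_562b47_mp.LW.L2m
import Pool.Agent.Lib.MP_562b47_mp.LW.Stab
import Pool.Agent.Lib.MP_562b47_mp.AL.Reg

/-!
MP_562b47, d = 2, Lemma H' (weak form): the two norms.  The numerators `adj y x` (`y ∈ B`) and
`adj s x` are bounded, on the whole polydisc, by the background share `A1` of the region and by the
share `A2` of the gadget.
-/

open MeasureTheory Matrix Finset

set_option linter.unusedSectionVars false

namespace Pool.Agent.Lib.MP_562b47_mp.LW

open Pool.Agent.Lib.MP_562b47_mp.AL Pool.Agent.Lib.MP_562b47_mp.WO Pool.Agent.Lib.MP_562b47_mp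

section aux

variable {ι : Type*} [Fintype ι] [DecidableEq ι]

private theorem adj_eq {A : Matrix ι ι ℝ} (hA : A.IsSymm) {u : ι → ℂ} (hu : Loss u) (y x : ι) :
    adj A y x u = dt A u * GM A u y x := by
  have h := HM_det hA hu
  rw [isUnit_iff_ne_zero] at h
  unfold adj dt
  rw [GM, Matrix.inv_def, Matrix.smul_apply, smul_eq_mul, Ring.inverse_eq_inv', ← mul_assoc,
    mul_inv_cancel₀ h, one_mul]

private theorem loss_pot (S : Finset ι) {γ : ι → ℝ} (hγ : ∀ y, 0 < γ y) {v : ι → ℂ}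
    (hv : ∀ y, y ∉ S → (v y).im < 0) (V : ι → ℝ) : Loss (pot S γ v V) := by
  intro y
  unfold pot
  by_cases h : y ∈ S
  · rw [if_pos h]
    simp [hγ y]
  · rw [if_neg h]; exact hv y h

private theorem pot_congr (S : Finset ι) (γ : ι → ℝ) {u v : ι → ℂ} (h : ∀ y, y ∉ S → u y = v y)
    (V : ι → ℝ) : pot S γ u V = pot S γ v V := by
  funext y
  unfold pot
  by_cases hy : y ∈ S
  · rw [if_pos hy, if_pos hy]
  · rw [if_neg hy, if_neg hy, h y hy]

private theorem flat_congr (S : Finset ι) {u v : ι → ℂ} (h : ∀ y, y ∉ S → u y = v y) :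
    flat S u = flat S v := by
  funext y
  unfold flat
  by_cases hy : y ∈ S
  · rw [if_pos hy, if_pos hy]
  · rw [if_neg hy, if_neg hy, h y hy]

private theorem win_nonneg (S : Finset ι) (lo hi : ι → ℝ) (V : ι → ℝ) : 0 ≤ win S lo hi V := by
  unfold win; split_ifs <;> norm_num

private theorem win_le_one (S : Finset ι) (lo hi : ι → ℝ) (V : ι → ℝ) : win S lo hi V ≤ 1 := by
  unfold win; split_ifs <;> norm_num

private theorem meas_pot (S : Finset ι) (γ : ι → ℝ) (v : ι → ℂ) (y : ι) :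
    Measurable fun V : ι → ℝ => pot S γ v V y :=
  (measurable_pi_apply y).comp (measurable_pot S γ v)

private theorem HM_upd (A : Matrix ι ι ℝ) (u : ι → ℂ) (z : ι) (t : ℂ) :
    HM A (Function.update u z t) =
      (HM A u).updateRow z (HM A u z + (t - u z) • Pi.single z (1 : ℂ)) := by
  ext i j
  by_cases hi : i = z
  · subst hi
    rw [updateRow_self]
    simp only [HM_apply, Pi.add_apply, Pi.smul_apply, smul_eq_mul]
    by_cases hj : i = j
    · subst hj; simp
    · simp [hj, Ne.symm hj]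
  · rw [updateRow_ne hi]
    simp only [HM_apply]
    by_cases hj : i = j
    · subst hj; simp [Function.update_of_ne hi]
    · simp [hj]

private theorem MA_adj (A : Matrix ι ι ℝ) (y x : ι) : MA (adj A y x) := by
  intro u z
  by_cases hz : z = x
  · subst hz
    refine ⟨adj A y z u, 0, fun t => ?_⟩
    unfold adj
    rw [adjugate_apply, adjugate_apply, HM_upd, updateRow_idem]
    ring
  · obtain ⟨M, hM⟩ : ∃ M, M = (HM A (Function.update u z 0)).updateRow x (Pi.single y 1) :=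
      ⟨_, rfl⟩
    refine ⟨M.det, (M.updateRow z (Pi.single z (1 : ℂ))).det, fun t => ?_⟩
    have h1 : Function.update u z t = Function.update (Function.update u z 0) z t := by
      rw [Function.update_idem]
    have h2 : HM A (Function.update u z 0) z = M z := by rw [hM, updateRow_ne hz]
    have h3 : (HM A (Function.update u z t)).updateRow x (Pi.single y 1) =
        M.updateRow z (M z + t • Pi.single z (1 : ℂ)) := by
      rw [h1, HM_upd A (Function.update u z 0) z t, Function.update_self, sub_zero,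
        updateRow_comm _ hz, ← h2, hM]
    unfold adj
    rw [adjugate_apply, h3, det_updateRow_add, det_updateRow_smul, updateRow_eq_self]
    ring

private theorem adj_upd (A : Matrix ι ι ℝ) (y x : ι) (u : ι → ℂ) (t : ℂ) :
    adj A y x (Function.update u y t) = adj A y x u := by
  unfold adj
  rw [adjugate_apply, adjugate_apply, HM_upd]
  by_cases hy : y = x
  · subst hy; rw [updateRow_idem]
  · obtain ⟨M, hM⟩ : ∃ M, M = (HM A u).updateRow x (Pi.single y 1) := ⟨_, rfl⟩
    have h2 : HM A u y = M y := by rw [hM, updateRow_ne hy]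
    have h3 : (Pi.single y (1 : ℂ) : ι → ℂ) = M x := by rw [hM, updateRow_self]
    have h4 : ((HM A u).updateRow y (HM A u y + (t - u y) • Pi.single y (1 : ℂ))).updateRow x
        (Pi.single y 1) = M.updateRow y (M y + (t - u y) • M x) := by
      rw [updateRow_comm _ hy, ← hM, h2, ← h3]
    rw [h4, det_updateRow_add_smul_self _ hy, hM]

/-- a bounded measurable function is integrable -/
private theorem int_bdd {c : ℝ} (hc : 0 < c) {F : (ι → ℝ) → ℝ} (hF : Measurable F) (K : ℝ)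
    (hK : ∀ V, ‖F V‖ ≤ K) : Integrable F (muc ι c) := by
  have := muc_prob (ι := ι) hc
  exact Integrable.of_bound hF.aestronglyMeasurable K (Filter.Eventually.of_forall hK)

/-- the Green function is bounded if the absorptions are bounded below -/
private theorem GM_bdd {A : Matrix ι ι ℝ} (hA : A.IsSymm) {u : ι → ℂ} (hu : Loss u) {g h : ℝ}
    (hg : 0 < g) (hh : 0 < h) (y x : ι) (h1 : g ≤ gam u y) (h2 : h ≤ gam u x) :
    ‖GM A u y x‖ ^ 2 ≤ (g * h)⁻¹ := by
  have h3 := entry_le hA hu y x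
  have h4 : g * h * ‖GM A u y x‖ ^ 2 ≤ 1 := by
    refine le_trans ?_ h3
    gcongr
    exact hg.le.trans h1
  have hgh : 0 < g * h := mul_pos hg hh
  rw [← one_div, le_div_iff₀ hgh, mul_comm]
  exact h4

/-- the core: from a pointwise bound of the values to the bound on the polydisc -/
private theorem core {c C1 : ℝ} (hc : 0 < c) {F : (ι → ℂ) → ℂ} {S : Finset ι}
    {lo hi γ : ι → ℝ} {u : ι → ℂ}
    (hlohi : ∀ y, lo y < hi y)
    (hl2 : (∏ y ∈ S, (hi y - lo y) ^ 3) * ‖F u‖ ^ 2 ≤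
        C1 ^ S.card * ∫ V, win S lo hi V * ‖F (pot S γ u V)‖ ^ 2 ∂(muc ι c))
    (hC1 : 1 ≤ C1) {K : ℝ} (hK : 0 ≤ K) {Gf : (ι → ℝ) → ℝ} (hG0 : ∀ V, 0 ≤ Gf V)
    (hGm : Measurable Gf) {Mb : ℝ} (hGb : ∀ V, Gf V ≤ Mb)
    (hpt : ∀ V, (∀ y ∈ S, V y ∈ Set.Icc (lo y) (hi y)) → ‖F (pot S γ u V)‖ ^ 2 ≤ K * Gf V) :
    ‖F u‖ ^ 2 ≤ C1 ^ S.card * (∏ y ∈ S, ((hi y - lo y) ^ 3)⁻¹) *
      (K * ∫ V, win S lo hi V * Gf V ∂(muc ι c)) := by
  have hP : 0 < ∏ y ∈ S, (hi y - lo y) ^ 3 :=
    Finset.prod_pos fun y _ => pow_pos (sub_pos.2 (hlohi y)) 3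
  have hint : Integrable (fun V => win S lo hi V * Gf V) (muc ι c) := by
    refine int_bdd hc ((measurable_win S lo hi).mul hGm) Mb fun V => ?_
    rw [Real.norm_eq_abs, abs_of_nonneg (mul_nonneg (win_nonneg S lo hi V) (hG0 V))]
    exact (mul_le_of_le_one_left (hG0 V) (win_le_one S lo hi V)).trans (hGb V)
  have h1 : ∫ V, win S lo hi V * ‖F (pot S γ u V)‖ ^ 2 ∂(muc ι c) ≤
      K * ∫ V, win S lo hi V * Gf V ∂(muc ι c) := by
    rw [← integral_const_mul]
    refine integral_mono_of_nonneg (Filter.Eventually.of_forall fun V =>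
      mul_nonneg (win_nonneg S lo hi V) (by positivity)) (hint.const_mul K)
      (Filter.Eventually.of_forall fun V => ?_)
    show win S lo hi V * ‖F (pot S γ u V)‖ ^ 2 ≤ K * (win S lo hi V * Gf V)
    by_cases h : ∀ y ∈ S, V y ∈ Set.Icc (lo y) (hi y)
    · have := hpt V h
      have hw : win S lo hi V = 1 := by unfold win; rw [if_pos h]
      rw [hw, one_mul, one_mul]
      exact this
    · have hw : win S lo hi V = 0 := by unfold win; rw [if_neg h]
      rw [hw]; simp
  have h2 : (∏ y ∈ S, (hi y - lo y) ^ 3) * ‖F u‖ ^ 2 ≤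
      C1 ^ S.card * (K * ∫ V, win S lo hi V * Gf V ∂(muc ι c)) :=
    hl2.trans (mul_le_mul_of_nonneg_left h1 (by positivity))
  have h3 : (∏ y ∈ S, ((hi y - lo y) ^ 3)⁻¹) = (∏ y ∈ S, (hi y - lo y) ^ 3)⁻¹ := by
    rw [Finset.prod_inv_distrib]
  rw [h3]
  calc ‖F u‖ ^ 2 = (∏ y ∈ S, (hi y - lo y) ^ 3)⁻¹ *
        ((∏ y ∈ S, (hi y - lo y) ^ 3) * ‖F u‖ ^ 2) := by
        rw [← mul_assoc, inv_mul_cancel₀ hP.ne', one_mul]
    _ ≤ (∏ y ∈ S, (hi y - lo y) ^ 3)⁻¹ *
        (C1 ^ S.card * (K * ∫ V, win S lo hi V * Gf V ∂(muc ι c))) :=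
        mul_le_mul_of_nonneg_left h2 (inv_nonneg.2 hP.le)
    _ = _ := by ring

private theorem BB_mem {Lam Fz : Finset ι} {s y : ι} (h : y ∉ (BB Lam Fz s).erase s)
    (hs : y ≠ s) : y ∉ BB Lam Fz s := fun h' => h (Finset.mem_erase.mpr ⟨hs, h'⟩)

private theorem norm_pt {c a R : ℝ} (hc : 0 < c) (hR : 3 * c + 3 ≤ R) (ha : 0 < a) (ha1 : a ≤ 1)
    {t : ℝ} (ht : t ∈ Set.Icc (-c) c) : ‖(t : ℂ) - (a : ℂ) * Complex.I‖ ≤ R := by
  have h1 : ‖(t : ℂ)‖ ≤ c := by
    rw [Complex.norm_real, Real.norm_eq_abs, abs_le]; exact ht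
  have h2 : ‖(a : ℂ) * Complex.I‖ ≤ 1 := by
    rw [norm_mul, Complex.norm_I, mul_one, Complex.norm_real, Real.norm_eq_abs, abs_of_pos ha]
    exact ha1
  have h3 := norm_sub_le (t : ℂ) ((a : ℂ) * Complex.I)
  linarith

end aux

/-- NORM 1: the numerators `adj y x`, `y ∈ B`, against the background share of `B` -/
theorem norm_A1 (c R l0 : ℝ) (hc : 0 < c) (hl0 : 0 < l0) : ∃ C : ℝ, 1 ≤ C ∧
    ∀ (ι : Type) [Fintype ι] [DecidableEq ι] (a : ℝ) (A : Matrix ι ι ℝ) (v : ι → ℂ)
      (Lam Fz : Finset ι) (s x : ι), Setup c a A v Lam Fz s R →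
    ∀ (j0 j1 : ℝ), -c ≤ j0 → j1 ≤ c → l0 ≤ j1 - j0 →
    ∀ u : ι → ℂ, (∀ y ∈ BB Lam Fz s, ‖u y‖ ≤ R) → (∀ y, y ∉ BB Lam Fz s → u y = v y) →
    ∀ y ∈ BB Lam Fz s,
      ‖adj A y x u‖ ^ 2 ≤ C ^ (BB Lam Fz s).card * (a⁻¹ * A1 c a A v Lam Fz s x j0 j1) *
        ‖dt A (flat (BB Lam Fz s) v)‖ ^ 2 := by
  obtain ⟨C1, hC1e⟩ : ∃ C1, C1 = max 1 (432 * c * R ^ 2) := ⟨_, rfl⟩
  have hC1 : 1 ≤ C1 := hC1e ▸ le_max_left _ _
  obtain ⟨C2, hC2e⟩ : ∃ C2, C2 = max 1 (R + 2) := ⟨_, rfl⟩
  have hC2 : 1 ≤ C2 := hC2e ▸ le_max_left _ _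
  refine ⟨C1 * C2 ^ 2 * (1 + l0⁻¹) ^ 3, ?_, ?_⟩
  · have h1 : 1 ≤ C1 * C2 ^ 2 := one_le_mul_of_one_le_of_one_le hC1 (one_le_pow₀ hC2)
    have h2 : 1 ≤ (1 + l0⁻¹) ^ 3 := one_le_pow₀ (by have := inv_pos.2 hl0; linarith)
    exact one_le_mul_of_one_le_of_one_le h1 h2
  intro ι _ _ a A v Lam Fz s x hS j0 j1 hj0 hj1 hj u hu huv y hy
  have ha := hS.a_pos
  have ha1 : a ≤ 1 := by linarith [hS.a_le]
  have hR1 : 1 ≤ R := by linarith [hS.R_ge]
  have hcR : c ≤ R := by linarith [hS.R_ge]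
  set B := BB Lam Fz s with hB
  have hjj : j0 < j1 := by linarith
  have hγ : ∀ z : ι, 0 < (fun _ : ι => a) z := fun _ => ha
  -- the potential
  have hloss : ∀ V, Loss (pot B (fun _ => a) v V) := fun V =>
    loss_pot B hγ (fun z _ => hS.loss z) V
  have hgx : 0 < gam v x := gam_pos hS.loss x
  have hcore := core (c := c) (C1 := C1) hc (F := adj A y x) (S := B) (lo := fun _ => j0)
    (hi := fun _ => j1) (γ := fun _ => a) (u := u) (fun _ => hjj)
    ((L2m c R hc hcR hR1 (adj A y x) (MA_adj A y x) (fun _ => j0) (fun _ => j1) (fun _ => a) B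
      (fun _ _ => hj0) (fun _ _ => hj1) (fun _ _ => hjj)
      (fun _ _ => by rw [abs_of_pos ha]; exact ha1) u hu).trans
      (mul_le_mul_of_nonneg_right (pow_le_pow_left₀ (by positivity) (hC1e ▸ le_max_right _ _) _)
        (integral_nonneg fun V => mul_nonneg (win_nonneg _ _ _ V) (by positivity)))) hC1
    (K := (C2 ^ B.card * ‖dt A (flat B v)‖) ^ 2) (by positivity)
    (Gf := fun V => ‖GM A (pot B (fun _ => a) v V) y x‖ ^ 2) (fun V => by positivity)
    ((measurable_GM' A (fun z => meas_pot B _ v z) y x).norm.pow_const 2)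
    (Mb := (a * min a (gam v x))⁻¹)
    (fun V => by
      refine GM_bdd hS.symm (hloss V) ha (lt_min ha hgx) y x ?_ ?_
      · unfold gam pot; rw [if_pos hy]; simp
      · unfold gam pot
        by_cases hx : x ∈ B
        · rw [if_pos hx]; simp
        · rw [if_neg hx]; exact min_le_right _ _)
    (fun V hV => by
      have e1 : pot B (fun _ => a) u V = pot B (fun _ => a) v V := pot_congr B _ huv V
      rw [e1, adj_eq hS.symm (hloss V), norm_mul, mul_pow]
      refine mul_le_mul_of_nonneg_right (pow_le_pow_left₀ (norm_nonneg _) ?_ 2) (by positivity)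
      have h2 := (stab hS.symm B (hloss V) (R := R) (fun z hz => by
        unfold pot; rw [if_pos hz]
        exact norm_pt hc hS.R_ge ha ha1 ⟨hj0.trans (hV z hz).1, (hV z hz).2.trans hj1⟩)).trans
        (mul_le_mul_of_nonneg_right (pow_le_pow_left₀ (by linarith) (hC2e ▸ le_max_right _ _) _)
          (norm_nonneg _))
      have e2 : flat B (pot B (fun _ => a) v V) = flat B v := flat_congr B fun z hz => by
        unfold pot; rw [if_neg hz]
      rwa [e2] at h2)
  refine hcore.trans ?_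
  -- the integral against `A1`
  have hI : ∫ V, win B (fun _ => j0) (fun _ => j1) V *
      ‖GM A (pot B (fun _ => a) v V) y x‖ ^ 2 ∂(muc ι c) ≤ a⁻¹ * A1 c a A v Lam Fz s x j0 j1 := by
    rw [A1, ← integral_const_mul]
    have hGz : ∀ z ∈ B, ∀ V, ‖GM A (pot B (fun _ => a) v V) z x‖ ^ 2 ≤
        (a * min a (gam v x))⁻¹ := fun z hz V => by
      refine GM_bdd hS.symm (hloss V) ha (lt_min ha hgx) z x ?_ ?_
      · unfold gam pot; rw [if_pos hz]; simp
      · unfold gam pot
        by_cases hx : x ∈ B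
        · rw [if_pos hx]; simp
        · rw [if_neg hx]; exact min_le_right _ _
    refine integral_mono_of_nonneg (Filter.Eventually.of_forall fun V =>
      mul_nonneg (win_nonneg _ _ _ V) (by positivity)) ?_
      (Filter.Eventually.of_forall fun V => ?_)
    · have hm : Measurable fun V => win B (fun _ => j0) (fun _ => j1) V *
          ∑ z ∈ B, a * ‖GM A (pot B (fun _ => a) v V) z x‖ ^ 2 :=
        (measurable_win _ _ _).mul (Finset.measurable_fun_sum _ fun z _ => measurable_const.mul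
          ((measurable_GM' A (fun w => meas_pot B _ v w) z x).norm.pow_const 2))
      refine Integrable.const_mul (int_bdd hc hm
        (∑ z ∈ B, a * (a * min a (gam v x))⁻¹) fun V => ?_) _
      have h0 : 0 ≤ ∑ z ∈ B, a * ‖GM A (pot B (fun _ => a) v V) z x‖ ^ 2 :=
        sum_nonneg fun z _ => mul_nonneg ha.le (by positivity)
      rw [Real.norm_eq_abs, abs_of_nonneg (mul_nonneg (win_nonneg _ _ _ V) h0)]
      refine (mul_le_of_le_one_left h0 (win_le_one _ _ _ V)).trans ?_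
      exact sum_le_sum fun z hz => mul_le_mul_of_nonneg_left (hGz z hz V) ha.le
    · show win B (fun _ => j0) (fun _ => j1) V * ‖GM A (pot B (fun _ => a) v V) y x‖ ^ 2 ≤
        a⁻¹ * (win B (fun _ => j0) (fun _ => j1) V *
          ∑ z ∈ B, a * ‖GM A (pot B (fun _ => a) v V) z x‖ ^ 2)
      have h1 : a * ‖GM A (pot B (fun _ => a) v V) y x‖ ^ 2 ≤
          ∑ z ∈ B, a * ‖GM A (pot B (fun _ => a) v V) z x‖ ^ 2 :=
        single_le_sum (f := fun z => a * ‖GM A (pot B (fun _ => a) v V) z x‖ ^ 2)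
          (fun z _ => mul_nonneg ha.le (by positivity)) hy
      calc win B (fun _ => j0) (fun _ => j1) V * ‖GM A (pot B (fun _ => a) v V) y x‖ ^ 2
          = a⁻¹ * (win B (fun _ => j0) (fun _ => j1) V *
            (a * ‖GM A (pot B (fun _ => a) v V) y x‖ ^ 2)) := by field_simp
        _ ≤ _ := by
          refine mul_le_mul_of_nonneg_left ?_ (inv_nonneg.2 ha.le)
          exact mul_le_mul_of_nonneg_left h1 (win_nonneg _ _ _ V)
  have hI0 : 0 ≤ ∫ V, win B (fun _ => j0) (fun _ => j1) V *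
      ‖GM A (pot B (fun _ => a) v V) y x‖ ^ 2 ∂(muc ι c) :=
    integral_nonneg fun V => mul_nonneg (win_nonneg _ _ _ V) (by positivity)
  have hP : (∏ z ∈ B, (((fun _ : ι => j1) z - (fun _ : ι => j0) z) ^ 3)⁻¹) ≤
      ((1 + l0⁻¹) ^ 3) ^ B.card := by
    rw [Finset.prod_const]
    refine pow_le_pow_left₀ (inv_nonneg.2 (pow_nonneg (by linarith) 3)) ?_ _
    rw [← inv_pow]
    refine pow_le_pow_left₀ (inv_nonneg.2 (by linarith)) ?_ 3
    have h3 : (j1 - j0)⁻¹ ≤ l0⁻¹ := inv_anti₀ hl0 hj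
    linarith
  have hP0 : 0 ≤ ∏ z ∈ B, (((fun _ : ι => j1) z - (fun _ : ι => j0) z) ^ 3)⁻¹ :=
    Finset.prod_nonneg fun z _ => inv_nonneg.2 (pow_nonneg (by
      show (0:ℝ) ≤ j1 - j0; linarith) 3)
  calc C1 ^ B.card * (∏ z ∈ B, (((fun _ : ι => j1) z - (fun _ : ι => j0) z) ^ 3)⁻¹) *
        ((C2 ^ B.card * ‖dt A (flat B v)‖) ^ 2 * ∫ V, win B (fun _ => j0) (fun _ => j1) V *
          ‖GM A (pot B (fun _ => a) v V) y x‖ ^ 2 ∂(muc ι c))
      ≤ C1 ^ B.card * ((1 + l0⁻¹) ^ 3) ^ B.card *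
        ((C2 ^ B.card * ‖dt A (flat B v)‖) ^ 2 * (a⁻¹ * A1 c a A v Lam Fz s x j0 j1)) := by
        gcongr
    _ = _ := by rw [mul_pow, mul_pow]; ring

/-- NORM 2: the numerator `adj s x` against the share of the gadget -/
theorem norm_A2 (c R : ℝ) (hc : 0 < c) : ∃ C : ℝ, 1 ≤ C ∧
    ∀ (ι : Type) [Fintype ι] [DecidableEq ι] (a : ℝ) (A : Matrix ι ι ℝ) (v : ι → ℂ)
      (Lam Fz : Finset ι) (s x : ι), Setup c a A v Lam Fz s R →
    ∀ (lo hi γ : ι → ℝ) (us : (ι → ℝ) → ℂ) (g0 : ℝ), (∀ y, -c ≤ lo y) → (∀ y, hi y ≤ c) →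
      (∀ y, lo y < hi y) → (∀ y, 0 < γ y) → (∀ y, γ y ≤ 1) → Measurable us → 0 < g0 →
      (∀ V, (us V).im ≤ -g0) → (∀ V, ‖us V‖ ≤ R) →
    ∀ u : ι → ℂ, (∀ y ∈ BB Lam Fz s, ‖u y‖ ≤ R) → (∀ y, y ∉ BB Lam Fz s → u y = v y) →
      ‖adj A s x u‖ ^ 2 ≤ C ^ (BB Lam Fz s).card * (WW Lam Fz s lo hi *
        A2 c A v Lam Fz s x lo hi γ us) * ‖dt A (flat (BB Lam Fz s) v)‖ ^ 2 := by
  obtain ⟨C1, hC1e⟩ : ∃ C1, C1 = max 1 (432 * c * R ^ 2) := ⟨_, rfl⟩
  have hC1 : 1 ≤ C1 := hC1e ▸ le_max_left _ _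
  obtain ⟨C2, hC2e⟩ : ∃ C2, C2 = max 1 (R + 2) := ⟨_, rfl⟩
  have hC2 : 1 ≤ C2 := hC2e ▸ le_max_left _ _
  refine ⟨C1 * C2 ^ 2, one_le_mul_of_one_le_of_one_le hC1 (one_le_pow₀ hC2), ?_⟩
  intro ι _ _ a A v Lam Fz s x hS lo hi γ us g0 hlo hhi hlohi hγ hγ1 husm hg0 hus husR u hu huv
  set B := BB Lam Fz s with hB
  set S := B.erase s with hSe
  have hR1 : 1 ≤ R := by linarith [hS.R_ge]
  have hcR : c ≤ R := by linarith [hS.R_ge]
  -- the potential
  have hloss : ∀ V, Loss (Function.update (pot S γ v V) s (us V)) := fun V z => by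
    by_cases hz : z = s
    · subst hz; rw [Function.update_self]; linarith [hus V]
    · rw [Function.update_of_ne hz]
      exact loss_pot S hγ (fun w _ => hS.loss w) V z
  have hgx : 0 < gam v x := gam_pos hS.loss x
  have hcore := core (c := c) (C1 := C1) hc (F := adj A s x) (S := S) (lo := lo)
    (hi := hi) (γ := γ) (u := u) hlohi
    ((L2m c R hc hcR hR1 (adj A s x) (MA_adj A s x) lo hi γ S (fun z _ => hlo z)
      (fun z _ => hhi z) (fun z _ => hlohi z)
      (fun z _ => by rw [abs_of_pos (hγ z)]; exact hγ1 z) u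
      (fun z hz => hu z (Finset.mem_of_mem_erase hz))).trans
      (mul_le_mul_of_nonneg_right (pow_le_pow_left₀ (by positivity) (hC1e ▸ le_max_right _ _) _)
        (integral_nonneg fun V => mul_nonneg (win_nonneg _ _ _ V) (by positivity)))) hC1
    (K := (C2 ^ B.card * ‖dt A (flat B v)‖) ^ 2) (by positivity)
    (Gf := fun V => ‖GM A (Function.update (pot S γ v V) s (us V)) s x‖ ^ 2)
    (fun V => by positivity)
    ((measurable_GM' A (fun z => by
      by_cases hz : z = s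
      · subst hz; simp only [Function.update_self]; exact husm
      · simp only [Function.update_of_ne hz]; exact meas_pot S γ v z) s x).norm.pow_const 2)
    (Mb := (g0 * min g0 (min (γ x) (gam v x)))⁻¹)
    (fun V => by
      refine GM_bdd hS.symm (hloss V) hg0 (lt_min hg0 (lt_min (hγ x) hgx)) s x ?_ ?_
      · unfold gam; rw [Function.update_self]; linarith [hus V]
      · unfold gam
        by_cases hx : x = s
        · subst hx; rw [Function.update_self]
          exact (min_le_left _ _).trans (by linarith [hus V])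
        · rw [Function.update_of_ne hx]
          unfold pot
          by_cases hxS : x ∈ S
          · rw [if_pos hxS]
            refine (min_le_right _ _).trans ((min_le_left _ _).trans ?_)
            simp
          · rw [if_neg hxS]
            exact (min_le_right _ _).trans (min_le_right _ _))
    (fun V hV => by
      have e1 : adj A s x (pot S γ u V) =
          adj A s x (Function.update (pot S γ v V) s (us V)) := by
        rw [← adj_upd A s x (pot S γ u V) (us V)]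
        congr 1
        funext z
        by_cases hz : z = s
        · subst hz; rw [Function.update_self, Function.update_self]
        · rw [Function.update_of_ne hz, Function.update_of_ne hz]
          unfold pot
          by_cases hzS : z ∈ S
          · rw [if_pos hzS, if_pos hzS]
          · rw [if_neg hzS, if_neg hzS]
            exact huv z (BB_mem hzS hz)
      rw [e1, adj_eq hS.symm (hloss V), norm_mul, mul_pow]
      refine mul_le_mul_of_nonneg_right (pow_le_pow_left₀ (norm_nonneg _) ?_ 2) (by positivity)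
      have h2 := (stab hS.symm B (hloss V) (R := R) (fun z hz => by
        by_cases hzs : z = s
        · subst hzs; rw [Function.update_self]; exact husR V
        · rw [Function.update_of_ne hzs]
          have hzS : z ∈ S := Finset.mem_erase.mpr ⟨hzs, hz⟩
          unfold pot; rw [if_pos hzS]
          exact norm_pt hc hS.R_ge (hγ z) (hγ1 z)
            ⟨(hlo z).trans (hV z hzS).1, (hV z hzS).2.trans (hhi z)⟩)).trans
        (mul_le_mul_of_nonneg_right (pow_le_pow_left₀ (by linarith) (hC2e ▸ le_max_right _ _) _)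
          (norm_nonneg _))
      have e2 : flat B (Function.update (pot S γ v V) s (us V)) = flat B v :=
        flat_congr B fun z hz => by
          have hzs : z ≠ s := fun h => hz (by rw [h, hB]; exact Finset.mem_insert_self _ _)
          rw [Function.update_of_ne hzs]
          unfold pot
          rw [if_neg fun h => hz (Finset.mem_of_mem_erase h)]
      rwa [e2] at h2)
  refine hcore.trans ?_
  have hI0 : 0 ≤ A2 c A v Lam Fz s x lo hi γ us :=
    integral_nonneg fun V => mul_nonneg (win_nonneg _ _ _ V) (by positivity)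
  have hcard : S.card ≤ B.card := Finset.card_le_card (Finset.erase_subset _ _)
  have hW0 : 0 ≤ ∏ z ∈ S, ((hi z - lo z) ^ 3)⁻¹ :=
    Finset.prod_nonneg fun z _ => inv_nonneg.2 (pow_nonneg (by linarith [hlohi z]) 3)
  show C1 ^ S.card * (∏ z ∈ S, ((hi z - lo z) ^ 3)⁻¹) *
      ((C2 ^ B.card * ‖dt A (flat B v)‖) ^ 2 * A2 c A v Lam Fz s x lo hi γ us) ≤
    (C1 * C2 ^ 2) ^ B.card * ((∏ z ∈ S, ((hi z - lo z) ^ 3)⁻¹) *
      A2 c A v Lam Fz s x lo hi γ us) * ‖dt A (flat B v)‖ ^ 2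
  calc C1 ^ S.card * (∏ z ∈ S, ((hi z - lo z) ^ 3)⁻¹) *
      ((C2 ^ B.card * ‖dt A (flat B v)‖) ^ 2 * A2 c A v Lam Fz s x lo hi γ us)
      ≤ C1 ^ B.card * (∏ z ∈ S, ((hi z - lo z) ^ 3)⁻¹) *
      ((C2 ^ B.card * ‖dt A (flat B v)‖) ^ 2 * A2 c A v Lam Fz s x lo hi γ us) := by
        gcongr
    _ = _ := by rw [mul_pow C1 (C2 ^ 2)]; ring

end Pool.Agent.Lib.MP_562b47_mp.LW
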