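import Pool.Agent.Lib.MP_562b47_mp.AL.Ward

/-!
MP_562b47, d = 2, Lemma H' (weak form): passivity.  Two potentials `u`, `u'` which are equal off `B`:
the background share of `B` is bounded by the flux through `B`.  No Schur complement.
-/

open Matrix Finset

namespace Pool.Agent.Lib.MP_562b47_mp.LW

open Pool.Agent.Lib.MP_562b47_mp.AL

variable {ι : Type*} [Fintype ι] [DecidableEq ι]

/-- the flux through `B` of the two Green functions `G(u) e_x`, `G(u') e_x` -/
noncomputable def Psi (A : Matrix ι ι ℝ) (u u' : ι → ℂ) (B : Finset ι) (x : ι) : ℝ :=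
  ∑ y ∈ B, (((starRingEnd ℂ) (u' y) - u y) * ((starRingEnd ℂ) (GM A u' y x) * GM A u y x)).im

theorem HM_mulVec_col {A : Matrix ι ι ℝ} (hA : A.IsSymm) {u : ι → ℂ} (hu : Loss u) (x y : ι) :
    ∑ z, HM A u y z * GM A u z x = if y = x then 1 else 0 := by
  have h := congrFun (congrFun (HM_mul_GM hA hu) y) x
  rw [mul_apply] at h
  rw [h, one_apply]

/-- the identity behind passivity -/
theorem flux_eq {A : Matrix ι ι ℝ} (hA : A.IsSymm) {u u' : ι → ℂ} (hu : Loss u) (hu' : Loss u')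
    (x : ι) :
    ∑ y, (((starRingEnd ℂ) (u' y) - u y) * ((starRingEnd ℂ) (GM A u' y x) * GM A u y x)) =
      GM A u x x - (starRingEnd ℂ) (GM A u' x x) := by
  have e1 : ∑ y, (starRingEnd ℂ) (GM A u' y x) * ∑ z, HM A u y z * GM A u z x =
      (starRingEnd ℂ) (GM A u' x x) := by
    simp_rw [HM_mulVec_col hA hu]
    simp
  have e2 : ∑ y, GM A u y x * ∑ z, (starRingEnd ℂ) (HM A u' y z * GM A u' z x) = GM A u x x := by
    have h : ∀ y, ∑ z, (starRingEnd ℂ) (HM A u' y z * GM A u' z x) = if y = x then 1 else 0 := by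
      intro y
      rw [← map_sum, HM_mulVec_col hA hu']
      split_ifs <;> simp
    simp_rw [h]
    simp
  have h1 : ∀ y, (starRingEnd ℂ) (GM A u' y x) * ∑ z, HM A u y z * GM A u z x =
      (∑ z, (A y z : ℂ) * ((starRingEnd ℂ) (GM A u' y x) * GM A u z x)) +
        u y * ((starRingEnd ℂ) (GM A u' y x) * GM A u y x) := by
    intro y
    simp_rw [HM_apply, add_mul, sum_add_distrib, ite_mul, zero_mul]
    rw [sum_ite_eq, if_pos (mem_univ _), mul_add, mul_sum]
    congr 1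
    · exact sum_congr rfl fun z _ => by ring
    · ring
  have h2 : ∀ y, GM A u y x * ∑ z, (starRingEnd ℂ) (HM A u' y z * GM A u' z x) =
      (∑ z, (A y z : ℂ) * ((starRingEnd ℂ) (GM A u' z x) * GM A u y x)) +
        (starRingEnd ℂ) (u' y) * ((starRingEnd ℂ) (GM A u' y x) * GM A u y x) := by
    intro y
    simp_rw [HM_apply, map_mul, map_add, Complex.conj_ofReal, add_mul, sum_add_distrib]
    rw [mul_add, mul_sum]
    congr 1
    · exact sum_congr rfl fun z _ => by ring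
    · rw [sum_eq_single y]
      · rw [if_pos rfl]; ring
      · intro z _ hz
        rw [if_neg (Ne.symm hz), map_zero, zero_mul]
      · intro h; exact absurd (mem_univ _) h
  simp_rw [h1] at e1
  simp_rw [h2] at e2
  rw [sum_add_distrib] at e1 e2
  have h3 : ∑ y, ∑ z, (A y z : ℂ) * ((starRingEnd ℂ) (GM A u' y x) * GM A u z x) =
      ∑ y, ∑ z, (A y z : ℂ) * ((starRingEnd ℂ) (GM A u' z x) * GM A u y x) := by
    rw [sum_comm]
    refine sum_congr rfl fun y _ => sum_congr rfl fun z _ => ?_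
    rw [hA.apply]
  simp_rw [sub_mul]
  rw [sum_sub_distrib]
  linear_combination e2 - e1 + h3

/-- PASSIVITY -/
theorem pass {A : Matrix ι ι ℝ} (hA : A.IsSymm) {u u' : ι → ℂ} (hu : Loss u) (hu' : Loss u')
    (B : Finset ι) (x : ι) (h : ∀ y, y ∉ B → u y = u' y) :
    ∑ y ∈ B, gam u y * ‖GM A u y x‖ ^ 2 + ∑ y ∈ B, gam u' y * ‖GM A u' y x‖ ^ 2 ≤
      Psi A u u' B x := by
  classical
  have h1 := congrArg Complex.im (flux_eq hA hu hu' x)
  rw [Complex.sub_im, Complex.conj_im, sub_neg_eq_add, (ward hA hu).im_diag,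
    (ward hA hu').im_diag, Complex.im_sum] at h1
  rw [← sum_add_sum_compl B, ← sum_add_sum_compl B (fun k => gam u k * ‖GM A u k x‖ ^ 2),
    ← sum_add_sum_compl B (fun k => gam u' k * ‖GM A u' k x‖ ^ 2)] at h1
  have h2 : ∑ y ∈ Bᶜ, (((starRingEnd ℂ) (u' y) - u y) *
      ((starRingEnd ℂ) (GM A u' y x) * GM A u y x)).im ≤
      ∑ y ∈ Bᶜ, gam u y * ‖GM A u y x‖ ^ 2 + ∑ y ∈ Bᶜ, gam u' y * ‖GM A u' y x‖ ^ 2 := by
    rw [← sum_add_distrib]
    refine sum_le_sum fun y hy => ?_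
    have hy' := h y (mem_compl.mp hy)
    have hg : 0 < gam u y := by unfold gam; linarith [hu y]
    have hgg : gam u' y = gam u y := by unfold gam; rw [hy']
    rw [hgg, ← hy']
    have e1 : (starRingEnd ℂ) (u y) - u y = ((2 * gam u y : ℝ) : ℂ) * Complex.I := by
      apply Complex.ext <;> simp [gam]
      ring
    have e2 : (((starRingEnd ℂ) (u y) - u y) * ((starRingEnd ℂ) (GM A u' y x) * GM A u y x)).im =
        2 * gam u y * ((starRingEnd ℂ) (GM A u' y x) * GM A u y x).re := by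
      rw [e1, mul_assoc, Complex.im_ofReal_mul, Complex.I_mul_im]
    rw [e2]
    have e3 : ((starRingEnd ℂ) (GM A u' y x) * GM A u y x).re ≤
        ‖GM A u' y x‖ * ‖GM A u y x‖ := by
      refine (Complex.re_le_norm _).trans (le_of_eq ?_)
      rw [norm_mul, RCLike.norm_conj]
    have e4 : 2 * (‖GM A u' y x‖ * ‖GM A u y x‖) ≤ ‖GM A u y x‖ ^ 2 + ‖GM A u' y x‖ ^ 2 := by
      nlinarith [sq_nonneg (‖GM A u' y x‖ - ‖GM A u y x‖)]
    nlinarith [mul_le_mul_of_nonneg_left e3 hg.le, mul_le_mul_of_nonneg_left e4 hg.le]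
  unfold Psi
  linarith

/-- each term of the flux -/
theorem Psi_le (A : Matrix ι ι ℝ) (u u' : ι → ℂ) (B : Finset ι) (x : ι) :
    Psi A u u' B x ≤ ∑ y ∈ B, ‖(starRingEnd ℂ) (u' y) - u y‖ * (‖GM A u' y x‖ * ‖GM A u y x‖) := by
  unfold Psi
  refine sum_le_sum fun y _ => ?_
  refine ((le_abs_self _).trans (Complex.abs_im_le_norm _)).trans (le_of_eq ?_)
  rw [norm_mul, norm_mul, RCLike.norm_conj]

end Pool.Agent.Lib.MP_562b47_mp.LW
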