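import Pool.Agent.Lib.MP_562b47_mp.LW.Defs
import Pool.Agent.Lib.MP_562b47_mp.LW.Pass

/-!
MP_562b47, d = 2, Lemma H' (weak form), local theorem: the split (step (6)).

Inputs (Norm, Ratio, Log, (F)): the numerators are at most `kap * D`, the numerator at `s` at most
`eps * D`, `D = |det|` at the potential `-i` on the whole region; `D ≤ K |det (flat Lam, us)|`;
`∫ 1 / |det| ≤ L / |det (flat Lam, us)|`.  Where all numerators are at most `del * kap * D` the
passivity inequality is used, elsewhere the numerator at `s` is compared with the largest one and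
the imaginary shifts are converted to real ones (constant 32).
-/

open MeasureTheory Matrix Finset

set_option linter.unusedSectionVars false
set_option linter.unusedVariables false

namespace Pool.Agent.Lib.MP_562b47_mp.LW

open Pool.Agent.Lib.MP_562b47_mp.AL Pool.Agent.Lib.MP_562b47_mp.WO Pool.Agent.Lib.MP_562b47_mp

namespace Sp


/-- lowering the point below the real axis increases an affine function without zeros there -/
theorem low_sq (α β u0 : ℂ) (hu0 : u0.im < 0) (h : ∀ z : ℂ, z.im < 0 → α + β * z ≠ 0) {t : ℝ}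
    (ht : 0 ≤ t) :
    ‖α + β * u0‖ ^ 2 + ‖β‖ ^ 2 * t ^ 2 ≤ ‖α + β * (u0 - (t : ℂ) * Complex.I)‖ ^ 2 := by
  have e1 : ‖α + β * (u0 - (t : ℂ) * Complex.I)‖ ^ 2 = ‖α + β * u0‖ ^ 2 + ‖β‖ ^ 2 * t ^ 2 +
      2 * t * (β.im * (α + β * u0).re - β.re * (α + β * u0).im) := by
    have e2 : α + β * (u0 - (t : ℂ) * Complex.I) = (α + β * u0) - β * (t : ℂ) * Complex.I := by ring
    rw [e2]
    set w := α + β * u0
    rw [← Complex.normSq_eq_norm_sq, ← Complex.normSq_eq_norm_sq, ← Complex.normSq_eq_norm_sq,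
      Complex.normSq_apply, Complex.normSq_apply, Complex.normSq_apply]
    simp only [Complex.sub_re, Complex.sub_im, Complex.mul_re, Complex.mul_im, Complex.ofReal_re,
      Complex.ofReal_im, Complex.I_re, Complex.I_im]
    ring
  have e3 : 0 ≤ β.im * (α + β * u0).re - β.re * (α + β * u0).im := by
    by_contra hneg
    rw [not_le] at hneg
    have hβ : β ≠ 0 := by
      rintro rfl
      simp at hneg
    have hB : 0 < β.re * β.re + β.im * β.im := by
      have := Complex.normSq_pos.2 hβ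
      rwa [Complex.normSq_apply] at this
    -- the zero
    have hz : ¬ (-α / β).im < 0 := fun hh => h _ hh (by field_simp; ring)
    rw [not_lt] at hz
    have e4 : (-α / β).im * (β.re * β.re + β.im * β.im) = -(α.im * β.re - α.re * β.im) := by
      rw [Complex.div_im, Complex.normSq_apply, Complex.neg_im, Complex.neg_re,
        ← sub_div, div_mul_cancel₀ _ hB.ne']
      ring
    have e5 : β.im * (α + β * u0).re - β.re * (α + β * u0).im =
        -(α.im * β.re - α.re * β.im) - (β.re * β.re + β.im * β.im) * u0.im := by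
      simp only [Complex.add_re, Complex.add_im, Complex.mul_re, Complex.mul_im]
      ring
    rw [e5, ← e4] at hneg
    nlinarith [mul_nonneg hz hB.le, mul_pos hB (neg_pos.2 hu0)]
  rw [e1]
  nlinarith [mul_nonneg ht e3]

/-- the strict Cauchy-Schwarz inequality for the weight `1 / (P + Q w²)` -/
theorem weight_le (A B P Q l : ℝ) (hA : 0 ≤ A) (hB : 0 ≤ B) (hP : 0 < P) (hQ : 0 ≤ Q)
    (hl : 0 ≤ l) :
    ∫ w in (0 : ℝ)..l, (A ^ 2 + B ^ 2 * w ^ 2) / (P + Q * w ^ 2) ≤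
      8 * ∫ w in (0 : ℝ)..l, (A - B * w) ^ 2 / (P + Q * w ^ 2) := by
  have hpos : ∀ w : ℝ, 0 < P + Q * w ^ 2 := fun w => by positivity
  have hne : ∀ w : ℝ, P + Q * w ^ 2 ≠ 0 := fun w => (hpos w).ne'
  have c1 : Continuous fun w : ℝ => (A ^ 2 + B ^ 2 * w ^ 2) / (P + Q * w ^ 2) :=
    Continuous.div (by fun_prop) (by fun_prop) hne
  have c2 : Continuous fun w : ℝ => (A - B * w) ^ 2 / (P + Q * w ^ 2) :=
    Continuous.div (by fun_prop) (by fun_prop) hne
  have c1' : Continuous fun w : ℝ => 1 / 8 * ((A ^ 2 + B ^ 2 * w ^ 2) / (P + Q * w ^ 2)) :=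
    continuous_const.mul c1
  -- the derivative of `q / (P + Q w²)`
  have hd : ∀ w : ℝ, HasDerivAt
      (fun w : ℝ => (7 / 8 * A ^ 2 * w - A * B * w ^ 2 + 7 / 24 * B ^ 2 * w ^ 3) / (P + Q * w ^ 2))
      (((7 / 8 * A ^ 2 - 2 * A * B * w + 7 / 8 * B ^ 2 * w ^ 2) * (P + Q * w ^ 2) -
        (7 / 8 * A ^ 2 * w - A * B * w ^ 2 + 7 / 24 * B ^ 2 * w ^ 3) * (2 * Q * w)) /
        (P + Q * w ^ 2) ^ 2) w := by
    intro w
    have h1 : HasDerivAt (fun w : ℝ => 7 / 8 * A ^ 2 * w - A * B * w ^ 2 + 7 / 24 * B ^ 2 * w ^ 3)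
        (7 / 8 * A ^ 2 - 2 * A * B * w + 7 / 8 * B ^ 2 * w ^ 2) w := by
      have := (((hasDerivAt_id w).const_mul (7 / 8 * A ^ 2)).sub
        (((hasDerivAt_id w).pow 2).const_mul (A * B))).add
        (((hasDerivAt_id w).pow 3).const_mul (7 / 24 * B ^ 2))
      refine (this.congr_deriv ?_).congr_of_eventuallyEq (Filter.Eventually.of_forall fun y => ?_)
      · simp; ring
      · simp
    have h2 : HasDerivAt (fun w : ℝ => P + Q * w ^ 2) (2 * Q * w) w := by
      have := ((hasDerivAt_id w).pow 2).const_mul Q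
      have := this.const_add P
      refine (this.congr_deriv ?_).congr_of_eventuallyEq (Filter.Eventually.of_forall fun y => ?_)
      · simp; ring
      · simp
    exact h1.div h2 (hne w)
  have c3 : Continuous fun w : ℝ =>
      (((7 / 8 * A ^ 2 - 2 * A * B * w + 7 / 8 * B ^ 2 * w ^ 2) * (P + Q * w ^ 2) -
        (7 / 8 * A ^ 2 * w - A * B * w ^ 2 + 7 / 24 * B ^ 2 * w ^ 3) * (2 * Q * w)) /
        (P + Q * w ^ 2) ^ 2) :=
    Continuous.div (by fun_prop) (by fun_prop) fun w => pow_ne_zero _ (hne w)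
  have hq : ∀ w : ℝ, 0 ≤ w → 0 ≤ 7 / 8 * A ^ 2 * w - A * B * w ^ 2 + 7 / 24 * B ^ 2 * w ^ 3 := by
    intro w hw
    have : 7 / 8 * A ^ 2 * w - A * B * w ^ 2 + 7 / 24 * B ^ 2 * w ^ 3 =
      w * (7 / 8 * (A - 4 / 7 * (B * w)) ^ 2 + (7 / 24 - 2 / 7) * (B * w) ^ 2) := by ring
    rw [this]
    positivity
  have hint := intervalIntegral.integral_eq_sub_of_hasDerivAt (a := 0) (b := l)
    (fun w _ => hd w) (c3.intervalIntegrable _ _)
  have h0 : 0 ≤ ∫ w in (0 : ℝ)..l,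
      (((7 / 8 * A ^ 2 - 2 * A * B * w + 7 / 8 * B ^ 2 * w ^ 2) * (P + Q * w ^ 2) -
        (7 / 8 * A ^ 2 * w - A * B * w ^ 2 + 7 / 24 * B ^ 2 * w ^ 3) * (2 * Q * w)) /
        (P + Q * w ^ 2) ^ 2) := by
    rw [hint]
    have e : (7 / 8 * A ^ 2 * 0 - A * B * 0 ^ 2 + 7 / 24 * B ^ 2 * 0 ^ 3) / (P + Q * 0 ^ 2) = 0 := by
      simp
    rw [e, sub_zero]
    exact div_nonneg (hq l hl) (hpos l).le
  have h1 : ∫ w in (0 : ℝ)..l,
      (((7 / 8 * A ^ 2 - 2 * A * B * w + 7 / 8 * B ^ 2 * w ^ 2) * (P + Q * w ^ 2) -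
        (7 / 8 * A ^ 2 * w - A * B * w ^ 2 + 7 / 24 * B ^ 2 * w ^ 3) * (2 * Q * w)) /
        (P + Q * w ^ 2) ^ 2) ≤
      ∫ w in (0 : ℝ)..l, ((A - B * w) ^ 2 / (P + Q * w ^ 2) -
        1 / 8 * ((A ^ 2 + B ^ 2 * w ^ 2) / (P + Q * w ^ 2))) := by
    refine intervalIntegral.integral_mono_on hl (c3.intervalIntegrable _ _)
      ((c2.sub c1').intervalIntegrable _ _) fun w hw => ?_
    have h2 := hq w hw.1
    have h3 := hpos w
    have e : (A - B * w) ^ 2 / (P + Q * w ^ 2) -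
        1 / 8 * ((A ^ 2 + B ^ 2 * w ^ 2) / (P + Q * w ^ 2)) =
        ((7 / 8 * A ^ 2 - 2 * A * B * w + 7 / 8 * B ^ 2 * w ^ 2) * (P + Q * w ^ 2)) /
          (P + Q * w ^ 2) ^ 2 := by
      field_simp
      ring
    rw [e]
    refine div_le_div_of_nonneg_right ?_ (by positivity)
    have : 0 ≤ (7 / 8 * A ^ 2 * w - A * B * w ^ 2 + 7 / 24 * B ^ 2 * w ^ 3) * (2 * Q * w) :=
      mul_nonneg h2 (by have := hw.1; positivity)
    linarith
  rw [intervalIntegral.integral_sub (c2.intervalIntegrable _ _) (c1'.intervalIntegrable _ _),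
    intervalIntegral.integral_const_mul] at h1
  linarith

/-- the conversion from imaginary to real shifts -/
theorem conv_le (α β α' β' u0 : ℂ) (hu0 : u0.im < 0) (h : ∀ z : ℂ, z.im < 0 → α' + β' * z ≠ 0)
    {l σ : ℝ} (hl : 0 ≤ l) (hσ : σ = 1 ∨ σ = -1) :
    ∫ t in (0 : ℝ)..l, ‖(α + β * (u0 - (t : ℂ) * Complex.I)) /
        (α' + β' * (u0 - (t : ℂ) * Complex.I))‖ ^ 2 ≤
      32 * ∫ w in (0 : ℝ)..l, ‖(α + β * (u0 + ((σ * w : ℝ) : ℂ))) /
        (α' + β' * (u0 + ((σ * w : ℝ) : ℂ)))‖ ^ 2 := by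
  set A := ‖α + β * u0‖ with hA
  set B := ‖β‖ with hB
  set P := ‖α' + β' * u0‖ ^ 2 with hP
  set Q := ‖β'‖ ^ 2 with hQ
  have hP0 : 0 < P := by
    have := norm_pos_iff.2 (h u0 hu0)
    positivity
  have hQ0 : 0 ≤ Q := by positivity
  have hpos : ∀ w : ℝ, 0 < P + Q * w ^ 2 := fun w => by positivity
  have hne : ∀ w : ℝ, P + Q * w ^ 2 ≠ 0 := fun w => (hpos w).ne'
  have c1 : Continuous fun w : ℝ => (A ^ 2 + B ^ 2 * w ^ 2) / (P + Q * w ^ 2) :=
    Continuous.div (by fun_prop) (by fun_prop) hne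
  have c2 : Continuous fun w : ℝ => (A - B * w) ^ 2 / (P + Q * w ^ 2) :=
    Continuous.div (by fun_prop) (by fun_prop) hne
  have n1 : ∀ t : ℝ, 0 ≤ t → α' + β' * (u0 - (t : ℂ) * Complex.I) ≠ 0 := fun t ht => by
    refine h _ ?_
    simp only [Complex.sub_im, Complex.mul_im, Complex.ofReal_re, Complex.ofReal_im, Complex.I_re,
      Complex.I_im]
    linarith
  have n2 : ∀ w : ℝ, α' + β' * (u0 + ((σ * w : ℝ) : ℂ)) ≠ 0 := fun w => by
    refine h _ ?_
    simp only [Complex.add_im, Complex.ofReal_im]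
    linarith
  have i1 : IntervalIntegrable (fun t : ℝ => ‖(α + β * (u0 - (t : ℂ) * Complex.I)) /
        (α' + β' * (u0 - (t : ℂ) * Complex.I))‖ ^ 2) volume 0 l := by
    refine ContinuousOn.intervalIntegrable ?_
    rw [Set.uIcc_of_le hl]
    refine ContinuousOn.pow (ContinuousOn.norm (ContinuousOn.div (by fun_prop) (by fun_prop) ?_)) 2
    intro t ht
    exact n1 t ht.1
  have i2 : Continuous (fun w : ℝ => ‖(α + β * (u0 + ((σ * w : ℝ) : ℂ))) /
        (α' + β' * (u0 + ((σ * w : ℝ) : ℂ)))‖ ^ 2) := by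
    refine Continuous.pow (Continuous.norm (Continuous.div (by fun_prop) (by fun_prop) n2)) 2
  have hσ2 : σ ^ 2 = 1 := by rcases hσ with h | h <;> rw [h] <;> norm_num
  have hσa : |σ| = 1 := by rcases hσ with h | h <;> rw [h] <;> norm_num
  -- upper bound for the left side
  have s1 : ∫ t in (0 : ℝ)..l, ‖(α + β * (u0 - (t : ℂ) * Complex.I)) /
        (α' + β' * (u0 - (t : ℂ) * Complex.I))‖ ^ 2 ≤
      ∫ t in (0 : ℝ)..l, 2 * ((A ^ 2 + B ^ 2 * t ^ 2) / (P + Q * t ^ 2)) := by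
    refine intervalIntegral.integral_mono_on hl i1
      ((continuous_const.mul c1).intervalIntegrable _ _) fun t ht => ?_
    rw [norm_div, div_pow, ← mul_div_assoc]
    have hd := low_sq α' β' u0 hu0 h ht.1
    have hnum : ‖α + β * (u0 - (t : ℂ) * Complex.I)‖ ^ 2 ≤ 2 * (A ^ 2 + B ^ 2 * t ^ 2) := by
      have : ‖α + β * (u0 - (t : ℂ) * Complex.I)‖ ≤ A + B * t := by
        have e : α + β * (u0 - (t : ℂ) * Complex.I) = (α + β * u0) - β * ((t : ℂ) * Complex.I) := by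
          ring
        rw [e]
        refine (norm_sub_le _ _).trans (le_of_eq ?_)
        rw [norm_mul, norm_mul, Complex.norm_real, Complex.norm_I, Real.norm_of_nonneg ht.1,
          mul_one]
      have h2 : ‖α + β * (u0 - (t : ℂ) * Complex.I)‖ ^ 2 ≤ (A + B * t) ^ 2 :=
        pow_le_pow_left₀ (norm_nonneg _) this 2
      nlinarith [sq_nonneg (A - B * t)]
    exact div_le_div₀ (by positivity) hnum (hpos t) hd
  have s2 : ∫ w in (0 : ℝ)..l, (A - B * w) ^ 2 / (P + Q * w ^ 2) ≤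
      ∫ w in (0 : ℝ)..l, 2 * ‖(α + β * (u0 + ((σ * w : ℝ) : ℂ))) /
        (α' + β' * (u0 + ((σ * w : ℝ) : ℂ)))‖ ^ 2 := by
    refine intervalIntegral.integral_mono_on hl (c2.intervalIntegrable _ _)
      ((continuous_const.mul i2).intervalIntegrable _ _) fun w hw => ?_
    have hb : ‖β * ((σ * w : ℝ) : ℂ)‖ = B * w := by
      rw [norm_mul, Complex.norm_real, Real.norm_eq_abs, abs_mul, hσa, one_mul,
        abs_of_nonneg hw.1]
    have hnum : (A - B * w) ^ 2 ≤ ‖α + β * (u0 + ((σ * w : ℝ) : ℂ))‖ ^ 2 := by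
      have e : α + β * (u0 + ((σ * w : ℝ) : ℂ)) = (α + β * u0) - (-(β * ((σ * w : ℝ) : ℂ))) := by
        ring
      have h3 := abs_norm_sub_norm_le (α + β * u0) (-(β * ((σ * w : ℝ) : ℂ)))
      rw [norm_neg, hb, ← e] at h3
      rw [← sq_abs]
      exact pow_le_pow_left₀ (abs_nonneg _) h3 2
    have hden : ‖α' + β' * (u0 + ((σ * w : ℝ) : ℂ))‖ ^ 2 ≤ 2 * (P + Q * w ^ 2) := by
      have e : α' + β' * (u0 + ((σ * w : ℝ) : ℂ)) = (α' + β' * u0) + β' * ((σ * w : ℝ) : ℂ) := by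
        ring
      have hb' : ‖β' * ((σ * w : ℝ) : ℂ)‖ = ‖β'‖ * w := by
        rw [norm_mul, Complex.norm_real, Real.norm_eq_abs, abs_mul, hσa, one_mul,
          abs_of_nonneg hw.1]
      have h3 := norm_add_le (α' + β' * u0) (β' * ((σ * w : ℝ) : ℂ))
      rw [← e, hb'] at h3
      have h4 : ‖α' + β' * (u0 + ((σ * w : ℝ) : ℂ))‖ ^ 2 ≤ (‖α' + β' * u0‖ + ‖β'‖ * w) ^ 2 :=
        pow_le_pow_left₀ (norm_nonneg _) h3 2
      rw [hP, hQ]
      nlinarith [sq_nonneg (‖α' + β' * u0‖ - ‖β'‖ * w)]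
    have hd0 : 0 < ‖α' + β' * (u0 + ((σ * w : ℝ) : ℂ))‖ ^ 2 := by
      have := norm_pos_iff.2 (n2 w)
      positivity
    rw [norm_div, div_pow, ← mul_div_assoc, div_le_div_iff₀ (hpos w) hd0]
    nlinarith [mul_le_mul hnum hden hd0.le (by positivity)]
  have s3 := weight_le A B P Q l (norm_nonneg _) (norm_nonneg _) hP0 hQ0 hl
  rw [intervalIntegral.integral_const_mul] at s1 s2
  linarith


/-- the value at `- i (1 + a)` -/
theorem int_aff0 (p q : ℂ) (l : ℝ) : ∫ w in (0 : ℝ)..l, ‖p + q * (w : ℂ)‖ ^ 2 =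
    l * ‖p + q * ((l / 2 : ℝ) : ℂ)‖ ^ 2 + ‖q‖ ^ 2 * l ^ 3 / 12 := by
  have key : ∀ w : ℝ, ‖p + q * (w : ℂ)‖ ^ 2 =
      ‖p‖ ^ 2 + 2 * (p.re * q.re + p.im * q.im) * w + ‖q‖ ^ 2 * w ^ 2 := by
    intro w
    rw [← Complex.normSq_eq_norm_sq, ← Complex.normSq_eq_norm_sq, ← Complex.normSq_eq_norm_sq,
      Complex.normSq_apply, Complex.normSq_apply, Complex.normSq_apply]
    simp only [Complex.add_re, Complex.add_im, Complex.mul_re, Complex.mul_im, Complex.ofReal_re,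
      Complex.ofReal_im]
    ring
  have hd : ∀ w ∈ Set.uIcc 0 l, HasDerivAt
      (fun w : ℝ => ‖p‖ ^ 2 * w + (p.re * q.re + p.im * q.im) * w ^ 2 + ‖q‖ ^ 2 / 3 * w ^ 3)
      (‖p + q * (w : ℂ)‖ ^ 2) w := by
    intro w _
    rw [key]
    have := (((hasDerivAt_id w).const_mul (‖p‖ ^ 2)).add
        (((hasDerivAt_id w).pow 2).const_mul (p.re * q.re + p.im * q.im))).add
        (((hasDerivAt_id w).pow 3).const_mul (‖q‖ ^ 2 / 3))
    refine (this.congr_deriv ?_).congr_of_eventuallyEq (Filter.Eventually.of_forall fun y => ?_)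
    · simp; ring
    · simp
  rw [intervalIntegral.integral_eq_sub_of_hasDerivAt hd
    (Continuous.intervalIntegrable (by fun_prop) _ _), key]
  ring

theorem conv1_le (α β α' β' : ℂ) (h : ∀ z : ℂ, z.im < 0 → α' + β' * z ≠ 0)
    {a c R e l σ : ℝ} (ha : 0 < a) (hc : 0 < c) (hR : 3 * c + 3 ≤ R) (he : |e| ≤ c) (hl : 0 < l)
    (hl2 : l ≤ 2 * c) (hσ : σ = 1 ∨ σ = -1) :
    ‖(α + β * (-((1 + a : ℝ) : ℂ) * Complex.I)) /
        (α' + β' * (-((1 + a : ℝ) : ℂ) * Complex.I))‖ ^ 2 ≤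
      24 * R ^ 4 / l ^ 3 * ∫ w in (0 : ℝ)..l,
        ‖(α + β * (((e + σ * w : ℝ) : ℂ) - (a : ℂ) * Complex.I)) /
        (α' + β' * (((e + σ * w : ℝ) : ℂ) - (a : ℂ) * Complex.I))‖ ^ 2 := by
  have hσa : |σ| = 1 := by rcases hσ with h | h <;> rw [h] <;> norm_num
  have hσn : ‖(σ : ℂ)‖ = 1 := by rw [Complex.norm_real, Real.norm_eq_abs, hσa]
  have hσ2 : (σ : ℂ) * σ = 1 := by
    rcases hσ with h | h <;> rw [h] <;> norm_num
  have hR0 : 0 < R := by linarith
  set d := ‖α' + β' * (-((1 + a : ℝ) : ℂ) * Complex.I)‖ with hd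
  have hd0 : 0 < d := by
    refine norm_pos_iff.2 (h _ ?_)
    simp only [Complex.mul_im, Complex.neg_re, Complex.neg_im, Complex.ofReal_re,
      Complex.ofReal_im, Complex.I_re, Complex.I_im]
    linarith
  have hβ' : ‖β'‖ ≤ d := by
    have h1 := low_sq α' β' (-(a : ℂ) * Complex.I) (by simp [ha]) h (t := 1) zero_le_one
    have e1 : α' + β' * (-(a : ℂ) * Complex.I - ((1 : ℝ) : ℂ) * Complex.I) =
        α' + β' * (-((1 + a : ℝ) : ℂ) * Complex.I) := by push_cast; ring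
    rw [e1, ← hd] at h1
    have h2 : ‖β'‖ ^ 2 ≤ d ^ 2 := by nlinarith [sq_nonneg ‖α' + β' * (-(a : ℂ) * Complex.I)‖]
    exact (pow_le_pow_iff_left₀ (norm_nonneg _) hd0.le two_ne_zero).1 h2
  have hden : ∀ w ∈ Set.Icc 0 l,
      ‖α' + β' * (((e + σ * w : ℝ) : ℂ) - (a : ℂ) * Complex.I)‖ ≤ R * d := by
    intro w hw
    have e1 : α' + β' * (((e + σ * w : ℝ) : ℂ) - (a : ℂ) * Complex.I) =
        (α' + β' * (-((1 + a : ℝ) : ℂ) * Complex.I)) +
          β' * (((e + σ * w : ℝ) : ℂ) + Complex.I) := by push_cast; ring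
    rw [e1]
    refine (norm_add_le _ _).trans ?_
    rw [← hd, norm_mul]
    have h1 : ‖((e + σ * w : ℝ) : ℂ) + Complex.I‖ ≤ 3 * c + 1 := by
      refine (norm_add_le _ _).trans ?_
      rw [Complex.norm_real, Complex.norm_I, Real.norm_eq_abs]
      have h2 : |e + σ * w| ≤ |e| + |σ * w| := abs_add_le _ _
      rw [abs_mul, hσa, one_mul, abs_of_nonneg hw.1] at h2
      linarith [hw.2]
    have h3 : ‖β'‖ * ‖((e + σ * w : ℝ) : ℂ) + Complex.I‖ ≤ d * (3 * c + 1) :=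
      mul_le_mul hβ' h1 (norm_nonneg _) hd0.le
    nlinarith
  have hne : ∀ w : ℝ, α' + β' * (((e + σ * w : ℝ) : ℂ) - (a : ℂ) * Complex.I) ≠ 0 := fun w => by
    refine h _ ?_
    simp only [Complex.sub_im, Complex.mul_im, Complex.ofReal_re, Complex.ofReal_im, Complex.I_re,
      Complex.I_im]
    linarith
  -- numerator
  have hnum : ‖α + β * (-((1 + a : ℝ) : ℂ) * Complex.I)‖ ^ 2 ≤
      24 * R ^ 2 / l ^ 3 * ∫ w in (0 : ℝ)..l,
        ‖α + β * (((e + σ * w : ℝ) : ℂ) - (a : ℂ) * Complex.I)‖ ^ 2 := by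
    set p : ℂ := α + β * ((e : ℂ) - (a : ℂ) * Complex.I) with hp
    set q : ℂ := β * σ with hq
    have e1 : ∀ w : ℝ, α + β * (((e + σ * w : ℝ) : ℂ) - (a : ℂ) * Complex.I) =
        p + q * (w : ℂ) := fun w => by rw [hp, hq]; push_cast; ring
    simp_rw [e1]
    rw [int_aff0]
    set w0 := p + q * ((l / 2 : ℝ) : ℂ) with hw0
    have e2 : α + β * (-((1 + a : ℝ) : ℂ) * Complex.I) =
        w0 + q * (σ * (-(Complex.I) - (e : ℂ)) - ((l / 2 : ℝ) : ℂ)) := by
      rw [hw0, hp, hq]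
      push_cast
      linear_combination (-β * (-Complex.I - e)) * hσ2
    have h1 : ‖(σ * (-(Complex.I) - (e : ℂ)) - ((l / 2 : ℝ) : ℂ) : ℂ)‖ ≤ R := by
      refine (norm_sub_le _ _).trans ?_
      rw [norm_mul, hσn, one_mul, Complex.norm_real, Real.norm_of_nonneg (by positivity)]
      have h2 : ‖-Complex.I - (e : ℂ)‖ ≤ 1 + c := by
        refine (norm_sub_le _ _).trans ?_
        rw [norm_neg, Complex.norm_I, Complex.norm_real, Real.norm_eq_abs]
        linarith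
      linarith
    have h2 : ‖α + β * (-((1 + a : ℝ) : ℂ) * Complex.I)‖ ≤ ‖w0‖ + ‖q‖ * R := by
      rw [e2]
      refine (norm_add_le _ _).trans (add_le_add_right ?_ _)
      rw [norm_mul]
      exact mul_le_mul_of_nonneg_left h1 (norm_nonneg _)
    have h3 : ‖α + β * (-((1 + a : ℝ) : ℂ) * Complex.I)‖ ^ 2 ≤ (‖w0‖ + ‖q‖ * R) ^ 2 :=
      pow_le_pow_left₀ (norm_nonneg _) h2 2
    have h4 : (‖w0‖ + ‖q‖ * R) ^ 2 ≤ 2 * ‖w0‖ ^ 2 + 2 * ‖q‖ ^ 2 * R ^ 2 := by
      nlinarith [sq_nonneg (‖w0‖ - ‖q‖ * R)]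
    have h5 : 24 * R ^ 2 / l ^ 3 * (l * ‖w0‖ ^ 2 + ‖q‖ ^ 2 * l ^ 3 / 12) =
        24 * (R ^ 2 / l ^ 2) * ‖w0‖ ^ 2 + 2 * ‖q‖ ^ 2 * R ^ 2 := by
      field_simp
      ring
    have h6 : 1 ≤ R ^ 2 / l ^ 2 := by
      rw [one_le_div (by positivity)]
      exact pow_le_pow_left₀ hl.le (by linarith) 2
    rw [h5]
    nlinarith [sq_nonneg ‖w0‖, mul_le_mul_of_nonneg_right h6 (sq_nonneg ‖w0‖)]
  -- conclusion
  have hint : (1 / (R * d) ^ 2) * ∫ w in (0 : ℝ)..l,
        ‖α + β * (((e + σ * w : ℝ) : ℂ) - (a : ℂ) * Complex.I)‖ ^ 2 ≤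
      ∫ w in (0 : ℝ)..l,
        ‖(α + β * (((e + σ * w : ℝ) : ℂ) - (a : ℂ) * Complex.I)) /
        (α' + β' * (((e + σ * w : ℝ) : ℂ) - (a : ℂ) * Complex.I))‖ ^ 2 := by
    rw [← intervalIntegral.integral_const_mul]
    refine intervalIntegral.integral_mono_on hl.le (Continuous.intervalIntegrable (by fun_prop) _ _)
      (Continuous.intervalIntegrable ?_ _ _) fun w hw => ?_
    · exact Continuous.pow (Continuous.norm (Continuous.div (by fun_prop) (by fun_prop) hne)) 2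
    · rw [norm_div, div_pow, one_div, mul_comm, ← div_eq_mul_inv]
      have h1 : 0 < ‖α' + β' * (((e + σ * w : ℝ) : ℂ) - (a : ℂ) * Complex.I)‖ :=
        norm_pos_iff.2 (hne w)
      exact div_le_div_of_nonneg_left (by positivity) (by positivity)
        (pow_le_pow_left₀ h1.le (hden w hw) 2)
  rw [norm_div, div_pow, ← hd]
  have h7 : ‖α + β * (-((1 + a : ℝ) : ℂ) * Complex.I)‖ ^ 2 / d ^ 2 ≤
      (24 * R ^ 2 / l ^ 3 * ∫ w in (0 : ℝ)..l,
        ‖α + β * (((e + σ * w : ℝ) : ℂ) - (a : ℂ) * Complex.I)‖ ^ 2) / d ^ 2 :=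
    div_le_div_of_nonneg_right hnum (by positivity)
  refine h7.trans ?_
  have h8 : (24 * R ^ 2 / l ^ 3 * ∫ w in (0 : ℝ)..l,
        ‖α + β * (((e + σ * w : ℝ) : ℂ) - (a : ℂ) * Complex.I)‖ ^ 2) / d ^ 2 =
      24 * R ^ 4 / l ^ 3 * ((1 / (R * d) ^ 2) * ∫ w in (0 : ℝ)..l,
        ‖α + β * (((e + σ * w : ℝ) : ℂ) - (a : ℂ) * Complex.I)‖ ^ 2) := by
    field_simp
  rw [h8]
  exact mul_le_mul_of_nonneg_left hint (by positivity)

section alg

variable {ι : Type*} [Fintype ι] [DecidableEq ι]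

theorem GM_eq (A : Matrix ι ι ℝ) (u : ι → ℂ) (y x : ι) : GM A u y x = adj A y x u / dt A u := by
  unfold GM adj dt
  rw [Matrix.inv_def, Matrix.smul_apply, Ring.inverse_eq_inv', smul_eq_mul, div_eq_inv_mul]

theorem norm_GM (A : Matrix ι ι ℝ) (u : ι → ℂ) (y x : ι) :
    ‖GM A u y x‖ = ‖adj A y x u‖ / ‖dt A u‖ := by
  rw [GM_eq, norm_div]

theorem dt_ne {A : Matrix ι ι ℝ} (hA : A.IsSymm) {u : ι → ℂ} (hu : Loss u) : dt A u ≠ 0 :=
  (HM_det hA hu).ne_zero

theorem HM_update_row (A : Matrix ι ι ℝ) (u : ι → ℂ) (s : ι) (t : ℂ) :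
    HM A (Function.update u s t) =
      (HM A u).updateRow s ((fun y => (A s y : ℂ)) + t • Pi.single s (1 : ℂ)) := by
  ext x y
  by_cases hx : x = s
  · subst hx
    rw [Matrix.updateRow_self, HM_apply, Pi.add_apply, Pi.smul_apply, smul_eq_mul,
      Function.update_self]
    by_cases hy : x = y
    · subst hy
      simp
    · rw [if_neg hy, Pi.single_eq_of_ne (Ne.symm hy)]
      simp
  · rw [Matrix.updateRow_ne hx, HM_apply, HM_apply, Function.update_of_ne hx]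

theorem dt_aff (A : Matrix ι ι ℝ) (u : ι → ℂ) (s : ι) :
    ∃ α β : ℂ, ∀ t : ℂ, dt A (Function.update u s t) = α + β * t := by
  refine ⟨((HM A u).updateRow s (fun y => (A s y : ℂ))).det,
    ((HM A u).updateRow s (Pi.single s (1 : ℂ))).det, fun t => ?_⟩
  unfold dt
  rw [HM_update_row, Matrix.det_updateRow_add, Matrix.det_updateRow_smul]
  ring

theorem updateRow_comm' {M : Matrix ι ι ℂ} {i j : ι} (h : i ≠ j) (a b : ι → ℂ) :
    (M.updateRow i a).updateRow j b = (M.updateRow j b).updateRow i a := by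
  ext x y
  by_cases hi : x = i
  · subst hi
    rw [Matrix.updateRow_ne h, Matrix.updateRow_self, Matrix.updateRow_self]
  · by_cases hj : x = j
    · subst hj
      rw [Matrix.updateRow_self, Matrix.updateRow_ne hi, Matrix.updateRow_self]
    · rw [Matrix.updateRow_ne hj, Matrix.updateRow_ne hi, Matrix.updateRow_ne hi,
        Matrix.updateRow_ne hj]

theorem adj_aff (A : Matrix ι ι ℝ) (y x : ι) (u : ι → ℂ) (s : ι) :
    ∃ α β : ℂ, ∀ t : ℂ, adj A y x (Function.update u s t) = α + β * t := by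
  unfold adj
  by_cases h : x = s
  · subst h
    refine ⟨((HM A u).updateRow x (Pi.single y 1)).det, 0, fun t => ?_⟩
    rw [Matrix.adjugate_apply, HM_update_row, zero_mul, add_zero]
    congr 1
    ext i j
    by_cases hi : i = x
    · subst hi
      rw [Matrix.updateRow_self, Matrix.updateRow_self]
    · rw [Matrix.updateRow_ne hi, Matrix.updateRow_ne hi, Matrix.updateRow_ne hi]
  · refine ⟨(((HM A u).updateRow x (Pi.single y 1)).updateRow s (fun y => (A s y : ℂ))).det,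
      (((HM A u).updateRow x (Pi.single y 1)).updateRow s (Pi.single s (1 : ℂ))).det, fun t => ?_⟩
    rw [Matrix.adjugate_apply, HM_update_row, updateRow_comm' (Ne.symm h),
      Matrix.det_updateRow_add, Matrix.det_updateRow_smul]
    ring

theorem continuous_HM (A : Matrix ι ι ℝ) : Continuous fun u : ι → ℂ => HM A u := by
  unfold HM
  exact continuous_const.add continuous_id.matrix_diagonal

theorem continuous_dt (A : Matrix ι ι ℝ) : Continuous (dt A) := (continuous_HM A).matrix_det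

theorem continuous_adj (A : Matrix ι ι ℝ) (y x : ι) : Continuous (adj A y x) :=
  ((continuous_HM A).matrix_adjugate).matrix_elem y x

theorem continuous_W (a : ℝ) (v : ι → ℂ) (Lam : Finset ι) (s : ι) {f : ℝ → ℂ}
    (hf : Continuous f) : Continuous fun p : (ι → ℝ) × ℝ =>
      Function.update (pot Lam (fun _ => a) v p.1) s (f p.2) := by
  refine continuous_pi fun y => ?_
  by_cases h : y = s
  · subst h
    simp only [Function.update_self]
    exact hf.comp continuous_snd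
  · simp only [Function.update_of_ne h, pot]
    by_cases h2 : y ∈ Lam
    · simp only [if_pos h2]
      fun_prop
    · simp only [if_neg h2]
      exact continuous_const

theorem loss_W {a : ℝ} (ha : 0 < a) {v : ι → ℂ} (hv : Loss v) (Lam : Finset ι) (s : ι) {us : ℂ}
    (hus : us.im < 0) (V : ι → ℝ) :
    Loss (Function.update (pot Lam (fun _ => a) v V) s us) := by
  intro y
  by_cases h : y = s
  · subst h
    rw [Function.update_self]
    exact hus
  · rw [Function.update_of_ne h, pot]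
    by_cases h2 : y ∈ Lam
    · rw [if_pos h2]
      simp [ha]
    · rw [if_neg h2]
      exact hv y

theorem loss_flat {v : ι → ℂ} (hv : Loss v) (S : Finset ι) : Loss (flat S v) := by
  intro y
  unfold flat
  by_cases h : y ∈ S
  · rw [if_pos h]; simp
  · rw [if_neg h]; exact hv y

end alg

section pointwise

variable {ι : Type} [Fintype ι] [DecidableEq ι] {c a R : ℝ} {A : Matrix ι ι ℝ} {v : ι → ℂ}
  {Lam Fz : Finset ι} {s x : ι}

/-- the potential on the region is bounded by `R` -/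
theorem W_le (hS : Setup c a A v Lam Fz s R) {V : ι → ℝ} (hV : ∀ y ∈ Lam, V y ∈ Set.Icc (-c) c)
    {us : ℂ} (husR : ‖us‖ ≤ R) (y : ι) (hy : y ∈ BB Lam Fz s) :
    ‖Function.update (pot Lam (fun _ => a) v V) s us y‖ ≤ R := by
  by_cases h : y = s
  · subst h
    rw [Function.update_self]
    exact husR
  · rw [Function.update_of_ne h]
    unfold pot
    by_cases h2 : y ∈ Lam
    · rw [if_pos h2]
      refine (norm_sub_le _ _).trans ?_
      rw [norm_mul, Complex.norm_real, Complex.norm_real, Complex.norm_I, Real.norm_eq_abs,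
        Real.norm_eq_abs, abs_of_pos hS.a_pos, mul_one]
      have h3 : |V y| ≤ c := abs_le.2 (hV y h2)
      linarith [hS.R_ge, hS.a_le, hS.c_pos]
    · rw [if_neg h2]
      unfold BB at hy
      rw [mem_insert, mem_union] at hy
      rcases hy with rfl | hy | hy
      · exact absurd rfl h
      · exact absurd hy h2
      · exact hS.frz y hy

theorem W_off {V : ι → ℝ} {us : ℂ} (y : ι) (hy : y ∉ BB Lam Fz s) :
    Function.update (pot Lam (fun _ => a) v V) s us y = v y := by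
  unfold BB at hy
  rw [mem_insert, mem_union, not_or, not_or] at hy
  rw [Function.update_of_ne hy.1, pot, if_neg hy.2.1]

theorem flat_off {S : Finset ι} (y : ι) (hy : y ∉ S) : flat S v y = v y := if_neg hy

theorem flat_le (hR : 1 ≤ R) {S : Finset ι} (y : ι) (hy : y ∈ S) : ‖flat S v y‖ ≤ R := by
  unfold flat
  rw [if_pos hy, norm_neg, Complex.norm_I]
  exact hR

/-- the sum of the absolute values over the region when all numerators are small -/
theorem sum_le (Γ g : ℝ) (hΓ : 1 ≤ Γ) (hg : 0 ≤ g) (ψ : ι → ℝ) (h0 : ∀ y, 0 ≤ ψ y)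
    (h1 : ∀ y ∈ insert s Lam, ψ y ≤ g)
    (hF : ∑ y ∈ Fz, ψ y ^ 2 ≤ Γ ^ 2 * ∑ y ∈ insert s Lam, ψ y ^ 2) :
    ∑ y ∈ BB Lam Fz s, ψ y ≤ 2 * Γ * (BB Lam Fz s).card * g := by
  have hsub1 : insert s Lam ⊆ BB Lam Fz s := by
    unfold BB
    exact insert_subset_insert _ subset_union_left
  have hsub2 : Fz ⊆ BB Lam Fz s := by
    unfold BB
    exact subset_union_right.trans (subset_insert _ _)
  have hb1 : ((insert s Lam).card : ℝ) ≤ (BB Lam Fz s).card := by
    exact_mod_cast card_le_card hsub1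
  have hb2 : (Fz.card : ℝ) ≤ (BB Lam Fz s).card := by
    exact_mod_cast card_le_card hsub2
  have hb0 : (0 : ℝ) ≤ (insert s Lam).card := by positivity
  have hb0' : (0 : ℝ) ≤ Fz.card := by positivity
  have hcov : BB Lam Fz s = insert s Lam ∪ Fz := by
    unfold BB
    rw [insert_union]
  have s0 : ∑ y ∈ BB Lam Fz s, ψ y ≤ ∑ y ∈ insert s Lam, ψ y + ∑ y ∈ Fz, ψ y := by
    rw [hcov]
    have := sum_union_inter (s₁ := insert s Lam) (s₂ := Fz) (f := ψ)
    have h2 : 0 ≤ ∑ y ∈ insert s Lam ∩ Fz, ψ y := sum_nonneg fun y _ => h0 y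
    linarith
  have s1 : ∑ y ∈ insert s Lam, ψ y ≤ (BB Lam Fz s).card * g := by
    refine (sum_le_card_nsmul _ _ _ h1).trans ?_
    rw [nsmul_eq_mul]
    exact mul_le_mul_of_nonneg_right hb1 hg
  have s2 : ∑ y ∈ insert s Lam, ψ y ^ 2 ≤ (BB Lam Fz s).card * g ^ 2 := by
    refine (sum_le_card_nsmul _ _ (g ^ 2) fun y hy => pow_le_pow_left₀ (h0 y) (h1 y hy) 2).trans ?_
    rw [nsmul_eq_mul]
    exact mul_le_mul_of_nonneg_right hb1 (by positivity)
  have s3 : (∑ y ∈ Fz, ψ y) ^ 2 ≤ (Γ * (BB Lam Fz s).card * g) ^ 2 := by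
    calc (∑ y ∈ Fz, ψ y) ^ 2 ≤ Fz.card * ∑ y ∈ Fz, ψ y ^ 2 := sq_sum_le_card_mul_sum_sq
      _ ≤ (BB Lam Fz s).card * (Γ ^ 2 * ((BB Lam Fz s).card * g ^ 2)) := by
          refine mul_le_mul hb2 (hF.trans (mul_le_mul_of_nonneg_left s2 (by positivity)))
            (sum_nonneg fun y _ => by positivity) (by positivity)
      _ = _ := by ring
  have s4 : ∑ y ∈ Fz, ψ y ≤ Γ * (BB Lam Fz s).card * g :=
    (pow_le_pow_iff_left₀ (sum_nonneg fun y _ => h0 y) (by positivity) two_ne_zero).1 s3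
  have s5 : ((BB Lam Fz s).card : ℝ) * g ≤ Γ * (BB Lam Fz s).card * g := by
    have : 0 ≤ ((BB Lam Fz s).card : ℝ) * g := by positivity
    nlinarith
  linarith

/-- passivity where the numerators are small -/
theorem pw1 (hS : Setup c a A v Lam Fz s R) {V : ι → ℝ} (hV : ∀ y ∈ Lam, V y ∈ Set.Icc (-c) c)
    {us : ℂ} (hus : us.im < 0) (husR : ‖us‖ ≤ R) {Γ : ℝ} (hΓ : 1 ≤ Γ)
    (hF : HypF c a A v Lam Fz s x Γ us) {kap m : ℝ} (hkap : 0 ≤ kap) (hm : 0 ≤ m)
    (hN : ∀ u : ι → ℂ, (∀ y ∈ BB Lam Fz s, ‖u y‖ ≤ R) → (∀ y, y ∉ BB Lam Fz s → u y = v y) →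
      ∀ y ∈ BB Lam Fz s, ‖adj A y x u‖ ≤ kap * ‖dt A (flat (BB Lam Fz s) v)‖)
    (h1 : ∀ y ∈ insert s Lam, ‖adj A y x (Function.update (pot Lam (fun _ => a) v V) s us)‖ ≤
      m * ‖dt A (flat (BB Lam Fz s) v)‖) :
    ‖GM A (Function.update (pot Lam (fun _ => a) v V) s us) s x‖ ^ 2 ≤
      4 * R * Γ * (BB Lam Fz s).card * (m * kap) / (-us.im) *
        (‖dt A (flat (BB Lam Fz s) v)‖ *
          ‖dt A (Function.update (pot Lam (fun _ => a) v V) s us)‖⁻¹) := by
  set B := BB Lam Fz s with hB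
  set u := Function.update (pot Lam (fun _ => a) v V) s us with hu
  set D := ‖dt A (flat B v)‖ with hD
  have hA := hS.symm
  have hlu : Loss u := loss_W hS.a_pos hS.loss Lam s hus V
  have hlf : Loss (flat B v) := loss_flat hS.loss B
  have hR0 : 0 < R := by linarith [hS.R_ge, hS.c_pos]
  have hR1 : 1 ≤ R := by linarith [hS.R_ge, hS.c_pos]
  have hD0 : 0 < D := norm_pos_iff.2 (dt_ne hA hlf)
  have hDu : 0 < ‖dt A u‖ := norm_pos_iff.2 (dt_ne hA hlu)
  have hsB : s ∈ B := by rw [hB]; unfold BB; exact mem_insert_self _ _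
  -- passivity
  have p1 := pass hA hlu hlf B x fun y hy => by
    rw [flat_off y hy, hu]
    exact W_off y (hB ▸ hy)
  have p2 := Psi_le A u (flat B v) B x
  have p3 : ∑ y ∈ B, ‖(starRingEnd ℂ) (flat B v y) - u y‖ *
      (‖GM A (flat B v) y x‖ * ‖GM A u y x‖) ≤ ∑ y ∈ B, 2 * R * (kap * ‖GM A u y x‖) := by
    refine sum_le_sum fun y hy => ?_
    have q1 : ‖(starRingEnd ℂ) (flat B v y) - u y‖ ≤ 2 * R := by
      refine (norm_sub_le _ _).trans ?_
      rw [RCLike.norm_conj]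
      have := flat_le (v := v) hR1 y hy
      have := W_le hS hV husR y hy
      rw [← hu] at this
      linarith
    have q2 : ‖GM A (flat B v) y x‖ ≤ kap := by
      rw [norm_GM, ← hD, div_le_iff₀ hD0]
      exact hN (flat B v) (fun z hz => flat_le hR1 z hz) (fun z hz => flat_off z hz) y hy
    exact mul_le_mul q1 (mul_le_mul_of_nonneg_right q2 (norm_nonneg _)) (by positivity)
      (by positivity)
  have p4 : (-us.im) * ‖GM A u s x‖ ^ 2 ≤ ∑ y ∈ B, gam u y * ‖GM A u y x‖ ^ 2 := by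
    have := single_le_sum (f := fun y => gam u y * ‖GM A u y x‖ ^ 2)
      (fun y _ => mul_nonneg (by unfold gam; linarith [hlu y]) (by positivity)) hsB
    refine le_trans (le_of_eq ?_) this
    simp only [gam]
    rw [hu, Function.update_self]
  have p5 : 0 ≤ ∑ y ∈ B, gam (flat B v) y * ‖GM A (flat B v) y x‖ ^ 2 :=
    sum_nonneg fun y _ => mul_nonneg (by unfold gam; linarith [hlf y]) (by positivity)
  have p6 : ∑ y ∈ B, ‖GM A u y x‖ ≤ 2 * Γ * B.card * (m * D / ‖dt A u‖) := by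
    refine sum_le Γ _ hΓ (by positivity) (fun y => ‖GM A u y x‖) (fun y => norm_nonneg _) ?_
      (hF V hV)
    intro y hy
    show ‖GM A u y x‖ ≤ _
    rw [norm_GM]
    exact div_le_div_of_nonneg_right (h1 y hy) hDu.le
  have p7 : (-us.im) * ‖GM A u s x‖ ^ 2 ≤
      2 * R * kap * (2 * Γ * B.card * (m * D / ‖dt A u‖)) := by
    calc (-us.im) * ‖GM A u s x‖ ^ 2 ≤ ∑ y ∈ B, 2 * R * (kap * ‖GM A u y x‖) := by linarith
      _ = 2 * R * kap * ∑ y ∈ B, ‖GM A u y x‖ := by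
          rw [mul_sum]
          exact sum_congr rfl fun y _ => by ring
      _ ≤ _ := mul_le_mul_of_nonneg_left p6 (by positivity)
  have hneg : 0 < -us.im := by linarith
  have e : 4 * R * Γ * B.card * (m * kap) / (-us.im) * (D * ‖dt A u‖⁻¹) =
      (2 * R * kap * (2 * Γ * B.card * (m * D / ‖dt A u‖))) / (-us.im) := by
    field_simp
    ring
  rw [e, le_div_iff₀ hneg, mul_comm]
  exact p7

/-- the pointwise split -/
theorem pw2 (hS : Setup c a A v Lam Fz s R) {V : ι → ℝ} (hV : ∀ y ∈ Lam, V y ∈ Set.Icc (-c) c)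
    {us : ℂ} (hus : us.im < 0) (husR : ‖us‖ ≤ R) {Γ : ℝ} (hΓ : 1 ≤ Γ)
    (hF : HypF c a A v Lam Fz s x Γ us) {kap eps del : ℝ} (hkap : 0 < kap) (heps : 0 ≤ eps)
    (hdel : 0 < del)
    (hN : ∀ u : ι → ℂ, (∀ y ∈ BB Lam Fz s, ‖u y‖ ≤ R) → (∀ y, y ∉ BB Lam Fz s → u y = v y) →
      ∀ y ∈ BB Lam Fz s, ‖adj A y x u‖ ≤ kap * ‖dt A (flat (BB Lam Fz s) v)‖)
    (hNs : ∀ u : ι → ℂ, (∀ y ∈ BB Lam Fz s, ‖u y‖ ≤ R) → (∀ y, y ∉ BB Lam Fz s → u y = v y) →
      ‖adj A s x u‖ ≤ eps * ‖dt A (flat (BB Lam Fz s) v)‖) :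
    ‖GM A (Function.update (pot Lam (fun _ => a) v V) s us) s x‖ ^ 2 ≤
      4 * R * Γ * (BB Lam Fz s).card * (del * kap * kap) / (-us.im) *
        (‖dt A (flat (BB Lam Fz s) v)‖ *
          ‖dt A (Function.update (pot Lam (fun _ => a) v V) s us)‖⁻¹) +
      (eps / (del * kap)) ^ 2 * ∑ y ∈ insert s Lam,
        ‖GM A (Function.update (pot Lam (fun _ => a) v V) s us) y x‖ ^ 2 := by
  have hR0 : 0 < R := by linarith [hS.R_ge, hS.c_pos]
  set u := Function.update (pot Lam (fun _ => a) v V) s us with hu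
  set D := ‖dt A (flat (BB Lam Fz s) v)‖ with hD
  have hlu : Loss u := loss_W hS.a_pos hS.loss Lam s hus V
  have hD0 : 0 < D := norm_pos_iff.2 (dt_ne hS.symm (loss_flat hS.loss _))
  have hDu : 0 < ‖dt A u‖ := norm_pos_iff.2 (dt_ne hS.symm hlu)
  have hneg : 0 < -us.im := by linarith
  by_cases hall : ∀ y ∈ insert s Lam, ‖adj A y x u‖ ≤ del * kap * D
  · have h1 := pw1 hS hV hus husR hΓ hF hkap.le (m := del * kap) (by positivity) hN hall
    refine h1.trans (le_add_of_nonneg_right ?_)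
    exact mul_nonneg (by positivity) (sum_nonneg fun y _ => by positivity)
  · simp only [not_forall, not_le] at hall
    obtain ⟨y, hy, hlt⟩ := hall
    have h2 : ‖GM A u s x‖ ^ 2 ≤ (eps / (del * kap)) ^ 2 * ‖GM A u y x‖ ^ 2 := by
      rw [← mul_pow]
      refine pow_le_pow_left₀ (norm_nonneg _) ?_ 2
      rw [norm_GM, norm_GM]
      have q1 : ‖adj A s x u‖ ≤ eps * D :=
        hNs u (fun z hz => W_le hS hV husR z hz) (fun z hz => W_off z hz)
      have q2 : eps * D ≤ eps / (del * kap) * ‖adj A y x u‖ := by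
        have : eps * D = eps / (del * kap) * (del * kap * D) := by
          field_simp
        rw [this]
        exact mul_le_mul_of_nonneg_left hlt.le (by positivity)
      rw [← mul_div_assoc]
      exact div_le_div_of_nonneg_right (q1.trans q2) hDu.le
    have h3 : ‖GM A u y x‖ ^ 2 ≤ ∑ y ∈ insert s Lam, ‖GM A u y x‖ ^ 2 :=
      single_le_sum (f := fun y => ‖GM A u y x‖ ^ 2) (fun y _ => by positivity) hy
    refine (h2.trans (mul_le_mul_of_nonneg_left h3 (by positivity))).trans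
      (le_add_of_nonneg_left ?_)
    positivity

end pointwise

section measure

variable {ι : Type} [Fintype ι] [DecidableEq ι] {c a R : ℝ} {A : Matrix ι ι ℝ} {v : ι → ℂ}
  {Lam Fz : Finset ι} {s x : ι}

theorem muc_ae {c : ℝ} (hc : 0 < c) : ∀ᵐ V ∂(muc ι c), ∀ y, V y ∈ Set.Icc (-c) c := by
  have := unif_prob hc
  rw [ae_all_iff]
  intro y
  unfold muc
  exact (Measure.tendsto_eval_ae_ae (μ := fun _ : ι => unif c) (i := y)).eventually (ae_unif c)

theorem integrable_cube {c l : ℝ} (hc : 0 < c) {F : (ι → ℝ) × ℝ → ℝ} (hm : Measurable F)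
    (hcont : ContinuousOn F (Set.univ ×ˢ Set.Icc 0 l)) :
    Integrable F ((muc ι c).prod (volume.restrict (Set.Ioc 0 l))) := by
  have := muc_prob (ι := ι) hc
  have hK : IsCompact ((Set.pi Set.univ fun _ : ι => Set.Icc (-c) c) ×ˢ Set.Icc (0 : ℝ) l) :=
    (isCompact_univ_pi fun _ => isCompact_Icc).prod isCompact_Icc
  obtain ⟨C, hC⟩ := hK.exists_bound_of_continuousOn
    (hcont.mono (Set.prod_mono (Set.subset_univ _) le_rfl))
  refine Integrable.mono' (integrable_const C) hm.aestronglyMeasurable ?_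
  have h1 : ∀ᵐ p ∂((muc ι c).prod (volume.restrict (Set.Ioc 0 l))),
      ∀ y, p.1 y ∈ Set.Icc (-c) c := Measure.quasiMeasurePreserving_fst.ae (muc_ae hc)
  have h2 : ∀ᵐ p ∂((muc ι c).prod (volume.restrict (Set.Ioc 0 l))), p.2 ∈ Set.Ioc 0 l :=
    Measure.quasiMeasurePreserving_snd.ae (ae_restrict_mem measurableSet_Ioc)
  filter_upwards [h1, h2] with p hp1 hp2
  exact hC p ⟨fun y _ => hp1 y, ⟨hp2.1.le, hp2.2⟩⟩

/-- the conversion for the Green function -/
theorem conv_GM (hA : A.IsSymm) (hv : Loss v) (ha : 0 < a) {e l σ : ℝ} (hl : 0 ≤ l)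
    (hσ : σ = 1 ∨ σ = -1) (V : ι → ℝ) (y : ι) :
    ∫ t in (0 : ℝ)..l, ‖GM A (Function.update (pot Lam (fun _ => a) v V) s
      ((e : ℂ) - ((t + a : ℝ) : ℂ) * Complex.I)) y x‖ ^ 2 ≤
    32 * ∫ w in (0 : ℝ)..l, ‖GM A (Function.update (pot Lam (fun _ => a) v V) s
      (((e + σ * w : ℝ) : ℂ) - (a : ℂ) * Complex.I)) y x‖ ^ 2 := by
  obtain ⟨α, β, h1⟩ := adj_aff A y x (pot Lam (fun _ => a) v V) s
  obtain ⟨α', β', h2⟩ := dt_aff A (pot Lam (fun _ => a) v V) s
  have hne : ∀ z : ℂ, z.im < 0 → α' + β' * z ≠ 0 := fun z hz => by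
    rw [← h2]
    exact dt_ne hA (loss_W ha hv Lam s hz V)
  have h3 := conv_le α β α' β' ((e : ℂ) - (a : ℂ) * Complex.I) (by simp [ha]) hne hl hσ
  simp_rw [GM_eq, h1, h2]
  have e1 : ∀ t : ℝ, (e : ℂ) - (a : ℂ) * Complex.I - (t : ℂ) * Complex.I =
      (e : ℂ) - ((t + a : ℝ) : ℂ) * Complex.I := fun t => by push_cast; ring
  have e2 : ∀ w : ℝ, (e : ℂ) - (a : ℂ) * Complex.I + ((σ * w : ℝ) : ℂ) =
      ((e + σ * w : ℝ) : ℂ) - (a : ℂ) * Complex.I := fun w => by push_cast; ring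
  simp_rw [e1, e2] at h3
  exact h3

theorem conv1_GM (hA : A.IsSymm) (hv : Loss v) (ha : 0 < a) (hc : 0 < c) (hR : 3 * c + 3 ≤ R)
    {e l σ : ℝ} (he : |e| ≤ c) (hl : 0 < l) (hl2 : l ≤ 2 * c)
    (hσ : σ = 1 ∨ σ = -1) (V : ι → ℝ) (y : ι) :
    ‖GM A (Function.update (pot Lam (fun _ => a) v V) s
      (-((1 + a : ℝ) : ℂ) * Complex.I)) y x‖ ^ 2 ≤
    24 * R ^ 4 / l ^ 3 * ∫ w in (0 : ℝ)..l, ‖GM A (Function.update (pot Lam (fun _ => a) v V) s
      (((e + σ * w : ℝ) : ℂ) - (a : ℂ) * Complex.I)) y x‖ ^ 2 := by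
  obtain ⟨α, β, h1⟩ := adj_aff A y x (pot Lam (fun _ => a) v V) s
  obtain ⟨α', β', h2⟩ := dt_aff A (pot Lam (fun _ => a) v V) s
  have hne : ∀ z : ℂ, z.im < 0 → α' + β' * z ≠ 0 := fun z hz => by
    rw [← h2]
    exact dt_ne hA (loss_W ha hv Lam s hz V)
  have h3 := conv1_le α β α' β' hne ha hc hR he hl hl2 hσ
  simp_rw [GM_eq, h1, h2]
  exact h3

theorem continuous_GMr (hA : A.IsSymm) (hv : Loss v) (ha : 0 < a) (e σ : ℝ) (y : ι) :
    Continuous fun p : (ι → ℝ) × ℝ => ‖GM A (Function.update (pot Lam (fun _ => a) v p.1) s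
      (((e + σ * p.2 : ℝ) : ℂ) - (a : ℂ) * Complex.I)) y x‖ ^ 2 := by
  have hW := continuous_W a v Lam s (f := fun w => (((e + σ * w : ℝ) : ℂ) - (a : ℂ) * Complex.I))
    (by fun_prop)
  simp_rw [GM_eq]
  refine Continuous.pow (Continuous.norm (Continuous.div ((continuous_adj A y x).comp hW)
    ((continuous_dt A).comp hW) fun p => dt_ne hA (loss_W ha hv Lam s ?_ p.1))) 2
  simp only [Complex.sub_im, Complex.mul_im, Complex.ofReal_re, Complex.ofReal_im, Complex.I_re,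
    Complex.I_im]
  linarith

/-- integrability of the real world share -/
theorem integrable_A3 (hA : A.IsSymm) (hv : Loss v) (ha : 0 < a) (hc : 0 < c) {e l σ : ℝ}
    (hl : 0 ≤ l) {om : (ι → ℝ) → ℝ} (hom : Measurable om) (h0 : ∀ V, 0 ≤ om V)
    (h1 : ∀ V, om V ≤ 1) :
    Integrable (fun V => om V * ∫ w in (0 : ℝ)..l, ∑ y ∈ insert s Lam,
      a * ‖GM A (Function.update (pot Lam (fun _ => a) v V) s
      (((e + σ * w : ℝ) : ℂ) - (a : ℂ) * Complex.I)) y x‖ ^ 2) (muc ι c) := by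
  have := muc_prob (ι := ι) hc
  have hcont : Continuous fun p : (ι → ℝ) × ℝ => ∑ y ∈ insert s Lam,
      a * ‖GM A (Function.update (pot Lam (fun _ => a) v p.1) s
      (((e + σ * p.2 : ℝ) : ℂ) - (a : ℂ) * Complex.I)) y x‖ ^ 2 :=
    continuous_finsetSum _ fun y _ => continuous_const.mul (continuous_GMr hA hv ha e σ y)
  have hint := (integrable_cube hc (l := l) hcont.measurable hcont.continuousOn).integral_prod_left
  simp_rw [intervalIntegral.integral_of_le hl]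
  refine hint.bdd_mul hom.aestronglyMeasurable (c := 1) (Filter.Eventually.of_forall fun V => ?_)
  rw [Real.norm_of_nonneg (h0 V)]
  exact h1 V

theorem cont_dt (hA : A.IsSymm) (hv : Loss v) (ha : 0 < a) (e l : ℝ) :
    ContinuousOn (fun p : (ι → ℝ) × ℝ => (p.2 + a)⁻¹ *
      ‖dt A (Function.update (pot Lam (fun _ => a) v p.1) s
      ((e : ℂ) - ((p.2 + a : ℝ) : ℂ) * Complex.I))‖⁻¹) (Set.univ ×ˢ Set.Icc 0 l) := by
  have hW := continuous_W a v Lam s (f := fun t => ((e : ℂ) - ((t + a : ℝ) : ℂ) * Complex.I))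
    (by fun_prop)
  refine ContinuousOn.mul (ContinuousOn.inv₀ (by fun_prop) fun p hp => ?_)
    (ContinuousOn.inv₀ ((continuous_dt A).comp hW).norm.continuousOn fun p hp => ?_)
  · have := hp.2.1
    have : 0 < p.2 + a := by linarith
    exact this.ne'
  · refine (norm_pos_iff.2 (dt_ne hA (loss_W ha hv Lam s ?_ p.1))).ne'
    simp only [Complex.sub_im, Complex.mul_im, Complex.ofReal_re, Complex.ofReal_im, Complex.I_re,
      Complex.I_im]
    have := hp.2.1
    linarith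

theorem meas_dt (e : ℝ) : Measurable (fun p : (ι → ℝ) × ℝ => (p.2 + a)⁻¹ *
      ‖dt A (Function.update (pot Lam (fun _ => a) v p.1) s
      ((e : ℂ) - ((p.2 + a : ℝ) : ℂ) * Complex.I))‖⁻¹) := by
  have hW := continuous_W a v Lam s (f := fun t => ((e : ℂ) - ((t + a : ℝ) : ℂ) * Complex.I))
    (by fun_prop)
  have h1 : Measurable fun p : (ι → ℝ) × ℝ => (p.2 + a)⁻¹ := by fun_prop
  exact h1.mul ((continuous_dt A).comp hW).norm.measurable.inv

theorem int_inv {a l : ℝ} (ha : 0 < a) (hl : 0 ≤ l) :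
    ∫ t in (0 : ℝ)..l, (t + a)⁻¹ = Real.log ((l + a) / a) := by
  have h := intervalIntegral.integral_comp_add_right (a := 0) (b := l) (fun t : ℝ => t⁻¹) a
  simp only [zero_add] at h
  rw [h, integral_inv]
  rw [Set.uIcc_of_le (by linarith)]
  intro h0
  linarith [h0.1]

theorem log_le {a c R l : ℝ} (ha : 0 < a) (ha2 : a ≤ 1 / 2) (hc : 0 < c) (hR : 3 * c + 3 ≤ R)
    (hl : 0 ≤ l) (hl2 : l ≤ 2 * c) : Real.log ((l + a) / a) ≤ R * Real.log (2 / a) := by
  have h4 : (1 : ℝ) ≤ Real.log (2 / a) := by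
    rw [Real.le_log_iff_exp_le (by positivity)]
    have h1 : Real.exp 1 ≤ 4 := by
      have := Real.exp_one_lt_d9
      linarith
    refine h1.trans ?_
    rw [le_div_iff₀ ha]
    linarith
  have h1 : (l + a) / a ≤ (1 + c) * (2 / a) := by
    rw [← mul_div_assoc]
    refine div_le_div_of_nonneg_right ?_ ha.le
    linarith
  have h2 : Real.log ((l + a) / a) ≤ Real.log ((1 + c) * (2 / a)) :=
    Real.log_le_log (by positivity) h1
  rw [Real.log_mul (by positivity) (by positivity)] at h2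
  have h3 : Real.log (1 + c) ≤ c := by
    have := Real.log_le_sub_one_of_pos (show 0 < 1 + c by linarith)
    linarith
  nlinarith

end measure

end Sp

open Sp

variable {ι : Type} [Fintype ι] [DecidableEq ι] {c a R : ℝ} {A : Matrix ι ι ℝ} {v : ι → ℂ}
  {Lam Fz : Finset ι} {s x : ι}

/-- integration of a pointwise bound -/
theorem split_gen (hS : Setup c a A v Lam Fz s R) {e l σ : ℝ} (he : |e| ≤ c) (hl : 0 ≤ l)
    (hl2 : l ≤ 2 * c) (hσ : σ = 1 ∨ σ = -1) {om : (ι → ℝ) → ℝ}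
    (hom : Measurable om) (h0 : ∀ V, 0 ≤ om V) (h1 : ∀ V, om V ≤ 1)
    {c1 c2 K L : ℝ} (hc10 : 0 ≤ c1) (hc20 : 0 ≤ c2) (hK : 0 ≤ K) (hL : 0 ≤ L)
    (hpw : ∀ V : ι → ℝ, (∀ y, V y ∈ Set.Icc (-c) c) → ∀ t ∈ Set.Icc 0 l,
      ‖GM A (Function.update (pot Lam (fun _ => a) v V) s
        ((e : ℂ) - ((t + a : ℝ) : ℂ) * Complex.I)) s x‖ ^ 2 ≤
      c1 / (t + a) * (‖dt A (flat (BB Lam Fz s) v)‖ *
        ‖dt A (Function.update (pot Lam (fun _ => a) v V) s
          ((e : ℂ) - ((t + a : ℝ) : ℂ) * Complex.I))‖⁻¹) +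
      c2 * ∑ y ∈ insert s Lam, ‖GM A (Function.update (pot Lam (fun _ => a) v V) s
          ((e : ℂ) - ((t + a : ℝ) : ℂ) * Complex.I)) y x‖ ^ 2)
    (hRat : ∀ t ∈ Set.Icc 0 l, ‖dt A (flat (BB Lam Fz s) v)‖ ≤
      K * ‖dt A (Function.update (flat Lam v) s ((e : ℂ) - ((t + a : ℝ) : ℂ) * Complex.I))‖)
    (hLog : ∀ t ∈ Set.Icc 0 l,
      ∫ V, ‖dt A (Function.update (pot Lam (fun _ => a) v V) s
        ((e : ℂ) - ((t + a : ℝ) : ℂ) * Complex.I))‖⁻¹ ∂(muc ι c) ≤
      L * ‖dt A (Function.update (flat Lam v) s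
        ((e : ℂ) - ((t + a : ℝ) : ℂ) * Complex.I))‖⁻¹) :
    UU c a A v Lam s x e l om ≤ c1 * (K * L * (R * Real.log (2 / a))) +
      32 * c2 * (a⁻¹ * A3 c a A v Lam s x e l σ om) := by
  have hA := hS.symm
  have hv := hS.loss
  have ha := hS.a_pos
  have hc := hS.c_pos
  have hR0 : 0 < R := by linarith [hS.R_ge]
  have hprob := muc_prob (ι := ι) hc
  set D := ‖dt A (flat (BB Lam Fz s) v)‖ with hD
  have hD0 : 0 < D := norm_pos_iff.2 (dt_ne hA (loss_flat hv _))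
  -- the two comparison functions
  have hI1 := integrable_cube hc (l := l) (meas_dt (A := A) (v := v) (Lam := Lam) (s := s)
    (a := a) e) (cont_dt hA hv ha e l)
  have hI2 := integrable_A3 (s := s) (x := x) (Lam := Lam) hA hv ha hc (e := e) (σ := σ) hl
    hom h0 h1
  have hI1' : Integrable (fun V => ∫ t in (0 : ℝ)..l, (t + a)⁻¹ *
      ‖dt A (Function.update (pot Lam (fun _ => a) v V) s
      ((e : ℂ) - ((t + a : ℝ) : ℂ) * Complex.I))‖⁻¹) (muc ι c) := by
    simp_rw [intervalIntegral.integral_of_le hl]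
    exact hI1.integral_prod_left
  have hIm : ∀ t : ℝ, 0 ≤ t → ((e : ℂ) - ((t + a : ℝ) : ℂ) * Complex.I).im < 0 := fun t ht => by
    simp only [Complex.sub_im, Complex.mul_im, Complex.ofReal_re, Complex.ofReal_im, Complex.I_re,
      Complex.I_im]
    linarith
  have hIm' : ∀ t : ℝ, -((e : ℂ) - ((t + a : ℝ) : ℂ) * Complex.I).im = t + a := fun t => by
    simp only [Complex.sub_im, Complex.mul_im, Complex.ofReal_re, Complex.ofReal_im, Complex.I_re,
      Complex.I_im]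
    ring
  have husR : ∀ t ∈ Set.Icc 0 l, ‖(e : ℂ) - ((t + a : ℝ) : ℂ) * Complex.I‖ ≤ R := fun t ht => by
    refine (norm_sub_le _ _).trans ?_
    rw [norm_mul, Complex.norm_real, Complex.norm_real, Complex.norm_I, mul_one,
      Real.norm_eq_abs, Real.norm_of_nonneg (by linarith [ht.1])]
    linarith [ht.2, hS.a_le, hS.R_ge]
  -- continuity in `t`
  have hcont : ∀ (V : ι → ℝ) (y : ι), ContinuousOn (fun t : ℝ =>
      ‖GM A (Function.update (pot Lam (fun _ => a) v V) s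
      ((e : ℂ) - ((t + a : ℝ) : ℂ) * Complex.I)) y x‖ ^ 2) (Set.Icc 0 l) := by
    intro V y
    have hW := (continuous_W a v Lam s (f := fun t => ((e : ℂ) - ((t + a : ℝ) : ℂ) * Complex.I))
      (by fun_prop)).comp (Continuous.prodMk_right V)
    simp_rw [GM_eq]
    refine ContinuousOn.pow (ContinuousOn.norm (ContinuousOn.div
      ((continuous_adj A y x).comp hW).continuousOn ((continuous_dt A).comp hW).continuousOn
      fun t ht => dt_ne hA (loss_W ha hv Lam s (hIm t ht.1) V))) 2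
  have hcontD : ∀ (V : ι → ℝ), ContinuousOn (fun t : ℝ => (t + a)⁻¹ *
      ‖dt A (Function.update (pot Lam (fun _ => a) v V) s
      ((e : ℂ) - ((t + a : ℝ) : ℂ) * Complex.I))‖⁻¹) (Set.Icc 0 l) := by
    intro V
    exact (cont_dt hA hv ha e l).comp (f := fun t : ℝ => (V, t))
      (Continuous.prodMk_right V).continuousOn (fun t ht => ⟨Set.mem_univ _, ht⟩)
  have hiG : ∀ (V : ι → ℝ) (y : ι), IntervalIntegrable (fun t : ℝ =>
      ‖GM A (Function.update (pot Lam (fun _ => a) v V) s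
      ((e : ℂ) - ((t + a : ℝ) : ℂ) * Complex.I)) y x‖ ^ 2) volume 0 l := fun V y => by
    refine ContinuousOn.intervalIntegrable ?_
    rw [Set.uIcc_of_le hl]
    exact hcont V y
  have hiD : ∀ (V : ι → ℝ), IntervalIntegrable (fun t : ℝ => (t + a)⁻¹ *
      ‖dt A (Function.update (pot Lam (fun _ => a) v V) s
      ((e : ℂ) - ((t + a : ℝ) : ℂ) * Complex.I))‖⁻¹) volume 0 l := fun V => by
    refine ContinuousOn.intervalIntegrable ?_
    rw [Set.uIcc_of_le hl]
    exact hcontD V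
  have hiS : ∀ (V : ι → ℝ), IntervalIntegrable (fun t : ℝ => ∑ y ∈ insert s Lam,
      ‖GM A (Function.update (pot Lam (fun _ => a) v V) s
      ((e : ℂ) - ((t + a : ℝ) : ℂ) * Complex.I)) y x‖ ^ 2) volume 0 l := fun V => by
    refine ContinuousOn.intervalIntegrable ?_
    rw [Set.uIcc_of_le hl]
    exact continuousOn_finsetSum _ fun y _ => hcont V y
  -- pointwise in `V`
  have hpt : ∀ V : ι → ℝ, (∀ y, V y ∈ Set.Icc (-c) c) →
      om V * ∫ t in (0 : ℝ)..l, ‖GM A (Function.update (pot Lam (fun _ => a) v V) s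
        ((e : ℂ) - ((t + a : ℝ) : ℂ) * Complex.I)) s x‖ ^ 2 ≤
      c1 * D * (∫ t in (0 : ℝ)..l, (t + a)⁻¹ *
        ‖dt A (Function.update (pot Lam (fun _ => a) v V) s
        ((e : ℂ) - ((t + a : ℝ) : ℂ) * Complex.I))‖⁻¹) +
      32 * c2 * a⁻¹ * (om V * ∫ w in (0 : ℝ)..l, ∑ y ∈ insert s Lam,
        a * ‖GM A (Function.update (pot Lam (fun _ => a) v V) s
        (((e + σ * w : ℝ) : ℂ) - (a : ℂ) * Complex.I)) y x‖ ^ 2) := by
    intro V hV
    set J := ∫ t in (0 : ℝ)..l, (t + a)⁻¹ *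
        ‖dt A (Function.update (pot Lam (fun _ => a) v V) s
        ((e : ℂ) - ((t + a : ℝ) : ℂ) * Complex.I))‖⁻¹ with hJ
    have hJ0 : 0 ≤ J := by
      refine intervalIntegral.integral_nonneg hl fun t ht => ?_
      have : 0 < t + a := by linarith [ht.1]
      positivity
    have s1 : ∫ t in (0 : ℝ)..l, ‖GM A (Function.update (pot Lam (fun _ => a) v V) s
        ((e : ℂ) - ((t + a : ℝ) : ℂ) * Complex.I)) s x‖ ^ 2 ≤
        ∫ t in (0 : ℝ)..l, (c1 * D * ((t + a)⁻¹ *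
          ‖dt A (Function.update (pot Lam (fun _ => a) v V) s
          ((e : ℂ) - ((t + a : ℝ) : ℂ) * Complex.I))‖⁻¹) +
          c2 * ∑ y ∈ insert s Lam, ‖GM A (Function.update (pot Lam (fun _ => a) v V) s
            ((e : ℂ) - ((t + a : ℝ) : ℂ) * Complex.I)) y x‖ ^ 2) := by
      refine intervalIntegral.integral_mono_on hl (hiG V s) ?_ fun t ht => ?_
      · refine ((hiD V).const_mul _).add ?_
        refine IntervalIntegrable.const_mul ?_ _
        exact hiS V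
      · refine (hpw V hV t ht).trans (le_of_eq ?_)
        rw [div_eq_mul_inv]
        ring
    have s2 : ∫ t in (0 : ℝ)..l, (c1 * D * ((t + a)⁻¹ *
          ‖dt A (Function.update (pot Lam (fun _ => a) v V) s
          ((e : ℂ) - ((t + a : ℝ) : ℂ) * Complex.I))‖⁻¹) +
          c2 * ∑ y ∈ insert s Lam, ‖GM A (Function.update (pot Lam (fun _ => a) v V) s
            ((e : ℂ) - ((t + a : ℝ) : ℂ) * Complex.I)) y x‖ ^ 2) =
        c1 * D * J + c2 * ∑ y ∈ insert s Lam, ∫ t in (0 : ℝ)..l,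
          ‖GM A (Function.update (pot Lam (fun _ => a) v V) s
            ((e : ℂ) - ((t + a : ℝ) : ℂ) * Complex.I)) y x‖ ^ 2 := by
      rw [intervalIntegral.integral_add, intervalIntegral.integral_const_mul,
        intervalIntegral.integral_const_mul, intervalIntegral.integral_finsetSum]
      · exact fun y _ => hiG V y
      · exact (hiD V).const_mul _
      · refine IntervalIntegrable.const_mul ?_ _
        exact hiS V
    have s3 : ∑ y ∈ insert s Lam, ∫ t in (0 : ℝ)..l,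
          ‖GM A (Function.update (pot Lam (fun _ => a) v V) s
            ((e : ℂ) - ((t + a : ℝ) : ℂ) * Complex.I)) y x‖ ^ 2 ≤
        32 * (a⁻¹ * ∫ w in (0 : ℝ)..l, ∑ y ∈ insert s Lam,
          a * ‖GM A (Function.update (pot Lam (fun _ => a) v V) s
          (((e + σ * w : ℝ) : ℂ) - (a : ℂ) * Complex.I)) y x‖ ^ 2) := by
      have hc3 : ∀ y : ι, IntervalIntegrable (fun w : ℝ =>
          a * ‖GM A (Function.update (pot Lam (fun _ => a) v V) s
          (((e + σ * w : ℝ) : ℂ) - (a : ℂ) * Complex.I)) y x‖ ^ 2) volume 0 l := fun y =>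
        (continuous_const.mul ((continuous_GMr (x := x) hA hv ha e σ y).comp
          (Continuous.prodMk_right V))).intervalIntegrable _ _
      rw [intervalIntegral.integral_finsetSum fun y _ => hc3 y, mul_sum, mul_sum]
      refine sum_le_sum fun y _ => ?_
      rw [intervalIntegral.integral_const_mul, inv_mul_cancel_left₀ ha.ne']
      exact conv_GM hA hv ha hl hσ V y
    set M := ∫ w in (0 : ℝ)..l, ∑ y ∈ insert s Lam,
        a * ‖GM A (Function.update (pot Lam (fun _ => a) v V) s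
        (((e + σ * w : ℝ) : ℂ) - (a : ℂ) * Complex.I)) y x‖ ^ 2 with hM
    have s4 : ∫ t in (0 : ℝ)..l, ‖GM A (Function.update (pot Lam (fun _ => a) v V) s
        ((e : ℂ) - ((t + a : ℝ) : ℂ) * Complex.I)) s x‖ ^ 2 ≤
        c1 * D * J + 32 * c2 * a⁻¹ * M := by
      rw [s2] at s1
      have := mul_le_mul_of_nonneg_left s3 hc20
      linarith
    calc _ ≤ om V * (c1 * D * J + 32 * c2 * a⁻¹ * M) := mul_le_mul_of_nonneg_left s4 (h0 V)
      _ = om V * (c1 * D * J) + 32 * c2 * a⁻¹ * (om V * M) := by ring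
      _ ≤ 1 * (c1 * D * J) + 32 * c2 * a⁻¹ * (om V * M) := by
          have : om V * (c1 * D * J) ≤ 1 * (c1 * D * J) :=
            mul_le_mul_of_nonneg_right (h1 V) (by positivity)
          linarith
      _ = _ := by rw [one_mul]
  -- integrate
  have hint : UU c a A v Lam s x e l om ≤
      c1 * D * (∫ V, (∫ t in (0 : ℝ)..l, (t + a)⁻¹ *
        ‖dt A (Function.update (pot Lam (fun _ => a) v V) s
        ((e : ℂ) - ((t + a : ℝ) : ℂ) * Complex.I))‖⁻¹) ∂(muc ι c)) +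
      32 * c2 * a⁻¹ * A3 c a A v Lam s x e l σ om := by
    unfold UU A3
    rw [← integral_const_mul, ← integral_const_mul, ← integral_add (hI1'.const_mul _)
      (hI2.const_mul _)]
    refine integral_mono_of_nonneg (Filter.Eventually.of_forall fun V => ?_)
      ((hI1'.const_mul _).add (hI2.const_mul _)) ?_
    · exact mul_nonneg (h0 V) (intervalIntegral.integral_nonneg hl fun t _ => by positivity)
    · filter_upwards [muc_ae (ι := ι) hc] with V hV
      exact hpt V hV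
  -- the first integral
  have hfub : c1 * D * (∫ V, (∫ t in (0 : ℝ)..l, (t + a)⁻¹ *
        ‖dt A (Function.update (pot Lam (fun _ => a) v V) s
        ((e : ℂ) - ((t + a : ℝ) : ℂ) * Complex.I))‖⁻¹) ∂(muc ι c)) ≤
      c1 * (K * L * (R * Real.log (2 / a))) := by
    rw [mul_assoc]
    refine mul_le_mul_of_nonneg_left ?_ hc10
    simp_rw [intervalIntegral.integral_of_le hl]
    rw [integral_integral_swap hI1, ← integral_const_mul]
    have f1 : ∀ t ∈ Set.Ioc 0 l, D * (∫ V, (t + a)⁻¹ *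
        ‖dt A (Function.update (pot Lam (fun _ => a) v V) s
        ((e : ℂ) - ((t + a : ℝ) : ℂ) * Complex.I))‖⁻¹ ∂(muc ι c)) ≤ K * L * (t + a)⁻¹ := by
      intro t ht
      have ht' : t ∈ Set.Icc 0 l := ⟨ht.1.le, ht.2⟩
      have hta : 0 < t + a := by linarith [ht.1]
      rw [integral_const_mul]
      have g1 := hLog t ht'
      have g2 := hRat t ht'
      set X := ‖dt A (Function.update (flat Lam v) s
        ((e : ℂ) - ((t + a : ℝ) : ℂ) * Complex.I))‖ with hX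
      have hX0 : 0 < X := by
        by_contra hneg
        have : X = 0 := le_antisymm (not_lt.1 hneg) (norm_nonneg _)
        rw [this, mul_zero] at g2
        linarith
      have g3 : D * X⁻¹ ≤ K := by
        rw [← div_eq_mul_inv, div_le_iff₀ hX0]
        exact g2
      calc D * ((t + a)⁻¹ * ∫ V, ‖dt A (Function.update (pot Lam (fun _ => a) v V) s
          ((e : ℂ) - ((t + a : ℝ) : ℂ) * Complex.I))‖⁻¹ ∂(muc ι c))
          ≤ D * ((t + a)⁻¹ * (L * X⁻¹)) :=
            mul_le_mul_of_nonneg_left (mul_le_mul_of_nonneg_left g1 (by positivity)) hD0.le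
        _ = (D * X⁻¹) * (L * (t + a)⁻¹) := by ring
        _ ≤ K * (L * (t + a)⁻¹) := mul_le_mul_of_nonneg_right g3 (by positivity)
        _ = K * L * (t + a)⁻¹ := by ring
    have f2 : IntegrableOn (fun t : ℝ => K * L * (t + a)⁻¹) (Set.Ioc 0 l) := by
      have : IntervalIntegrable (fun t : ℝ => K * L * (t + a)⁻¹) volume 0 l := by
        refine ContinuousOn.intervalIntegrable ?_
        rw [Set.uIcc_of_le hl]
        refine ContinuousOn.mul continuousOn_const (ContinuousOn.inv₀ (by fun_prop) fun t ht => ?_)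
        have : 0 < t + a := by linarith [ht.1]
        exact this.ne'
      exact (intervalIntegrable_iff_integrableOn_Ioc_of_le hl).1 this
    have f3 : ∫ t in Set.Ioc 0 l, D * (∫ V, (t + a)⁻¹ *
        ‖dt A (Function.update (pot Lam (fun _ => a) v V) s
        ((e : ℂ) - ((t + a : ℝ) : ℂ) * Complex.I))‖⁻¹ ∂(muc ι c)) ≤
        ∫ t in Set.Ioc 0 l, K * L * (t + a)⁻¹ :=
      setIntegral_mono_on (hI1.integral_prod_right.const_mul _) f2 measurableSet_Ioc f1
    refine f3.trans ?_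
    rw [integral_const_mul, ← intervalIntegral.integral_of_le hl, int_inv ha hl]
    exact mul_le_mul_of_nonneg_left (log_le ha hS.a_le hc hS.R_ge hl hl2) (by positivity)
  have e2 : 32 * c2 * a⁻¹ * A3 c a A v Lam s x e l σ om =
      32 * c2 * (a⁻¹ * A3 c a A v Lam s x e l σ om) := by ring
  rw [e2] at hint
  linarith

/-- `us = e - i (t + a)` -/
theorem us_im (ha : 0 < a) {e t : ℝ} (ht : 0 ≤ t) :
    ((e : ℂ) - ((t + a : ℝ) : ℂ) * Complex.I).im < 0 := by
  simp only [Complex.sub_im, Complex.mul_im, Complex.ofReal_re, Complex.ofReal_im, Complex.I_re,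
    Complex.I_im]
  linarith

theorem us_im_neg (e t : ℝ) : -((e : ℂ) - ((t + a : ℝ) : ℂ) * Complex.I).im = t + a := by
  simp only [Complex.sub_im, Complex.mul_im, Complex.ofReal_re, Complex.ofReal_im, Complex.I_re,
    Complex.I_im]
  ring

theorem us_le (ha : 0 < a) (ha2 : a ≤ 1 / 2) (hR : 3 * c + 3 ≤ R) {e l t : ℝ} (he : |e| ≤ c)
    (hl2 : l ≤ 2 * c) (ht : t ∈ Set.Icc 0 l) :
    ‖(e : ℂ) - ((t + a : ℝ) : ℂ) * Complex.I‖ ≤ R := by
  refine (norm_sub_le _ _).trans ?_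
  rw [norm_mul, Complex.norm_real, Complex.norm_real, Complex.norm_I, mul_one,
    Real.norm_eq_abs, Real.norm_of_nonneg (by linarith [ht.1])]
  linarith [ht.2]

/-- THE SPLIT -/
theorem split (hS : Setup c a A v Lam Fz s R) {e l σ : ℝ} (he : |e| ≤ c) (hl : 0 ≤ l)
    (hl2 : l ≤ 2 * c) (hσ : σ = 1 ∨ σ = -1) {Γ : ℝ} (hΓ : 1 ≤ Γ) {om : (ι → ℝ) → ℝ}
    (hom : Measurable om) (h0 : ∀ V, 0 ≤ om V) (h1 : ∀ V, om V ≤ 1)
    (hF : ∀ t ∈ Set.Icc 0 l, HypF c a A v Lam Fz s x Γ ((e : ℂ) - ((t + a : ℝ) : ℂ) * Complex.I))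
    {kap eps del K L : ℝ} (hkap : 0 < kap) (heps : 0 ≤ eps) (hdel : 0 < del) (hK : 0 ≤ K)
    (hL : 0 ≤ L)
    (hN : ∀ u : ι → ℂ, (∀ y ∈ BB Lam Fz s, ‖u y‖ ≤ R) → (∀ y, y ∉ BB Lam Fz s → u y = v y) →
      ∀ y ∈ BB Lam Fz s, ‖adj A y x u‖ ≤ kap * ‖dt A (flat (BB Lam Fz s) v)‖)
    (hNs : ∀ u : ι → ℂ, (∀ y ∈ BB Lam Fz s, ‖u y‖ ≤ R) → (∀ y, y ∉ BB Lam Fz s → u y = v y) →
      ‖adj A s x u‖ ≤ eps * ‖dt A (flat (BB Lam Fz s) v)‖)
    (hRat : ∀ t ∈ Set.Icc 0 l, ‖dt A (flat (BB Lam Fz s) v)‖ ≤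
      K * ‖dt A (Function.update (flat Lam v) s ((e : ℂ) - ((t + a : ℝ) : ℂ) * Complex.I))‖)
    (hLog : ∀ t ∈ Set.Icc 0 l,
      ∫ V, ‖dt A (Function.update (pot Lam (fun _ => a) v V) s
        ((e : ℂ) - ((t + a : ℝ) : ℂ) * Complex.I))‖⁻¹ ∂(muc ι c) ≤
      L * ‖dt A (Function.update (flat Lam v) s
        ((e : ℂ) - ((t + a : ℝ) : ℂ) * Complex.I))‖⁻¹) :
    UU c a A v Lam s x e l om ≤
      4 * R ^ 2 * Γ * (BB Lam Fz s).card * K * L * Real.log (2 / a) * (del * kap ^ 2) +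
      32 * (eps / (del * kap)) ^ 2 * (a⁻¹ * A3 c a A v Lam s x e l σ om) := by
  have hR0 : 0 < R := by linarith [hS.R_ge, hS.c_pos]
  have h := split_gen (x := x) hS he hl hl2 hσ hom h0 h1
    (c1 := 4 * R * Γ * (BB Lam Fz s).card * (del * kap * kap)) (c2 := (eps / (del * kap)) ^ 2)
    (by positivity) (by positivity) hK hL (fun V hV t ht => by
      have h2 := pw2 (x := x) hS (V := V) (fun y _ => hV y) (us_im hS.a_pos ht.1)
        (us_le hS.a_pos hS.a_le hS.R_ge he hl2 ht) hΓ (hF t ht) hkap heps hdel hN hNs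
      rwa [us_im_neg] at h2) hRat hLog
  refine h.trans (le_of_eq ?_)
  ring

/-- everything in the first region -/
theorem split_all (hS : Setup c a A v Lam Fz s R) {e l : ℝ} (he : |e| ≤ c) (hl : 0 ≤ l)
    (hl2 : l ≤ 2 * c) {Γ : ℝ} (hΓ : 1 ≤ Γ) {om : (ι → ℝ) → ℝ}
    (hom : Measurable om) (h0 : ∀ V, 0 ≤ om V) (h1 : ∀ V, om V ≤ 1)
    (hF : ∀ t ∈ Set.Icc 0 l, HypF c a A v Lam Fz s x Γ ((e : ℂ) - ((t + a : ℝ) : ℂ) * Complex.I))
    {kap K L : ℝ} (hkap : 0 ≤ kap) (hK : 0 ≤ K) (hL : 0 ≤ L)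
    (hN : ∀ u : ι → ℂ, (∀ y ∈ BB Lam Fz s, ‖u y‖ ≤ R) → (∀ y, y ∉ BB Lam Fz s → u y = v y) →
      ∀ y ∈ BB Lam Fz s, ‖adj A y x u‖ ≤ kap * ‖dt A (flat (BB Lam Fz s) v)‖)
    (hRat : ∀ t ∈ Set.Icc 0 l, ‖dt A (flat (BB Lam Fz s) v)‖ ≤
      K * ‖dt A (Function.update (flat Lam v) s ((e : ℂ) - ((t + a : ℝ) : ℂ) * Complex.I))‖)
    (hLog : ∀ t ∈ Set.Icc 0 l,
      ∫ V, ‖dt A (Function.update (pot Lam (fun _ => a) v V) s
        ((e : ℂ) - ((t + a : ℝ) : ℂ) * Complex.I))‖⁻¹ ∂(muc ι c) ≤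
      L * ‖dt A (Function.update (flat Lam v) s
        ((e : ℂ) - ((t + a : ℝ) : ℂ) * Complex.I))‖⁻¹) :
    UU c a A v Lam s x e l om ≤
      4 * R ^ 2 * Γ * (BB Lam Fz s).card * K * L * Real.log (2 / a) * kap ^ 2 := by
  have hR0 : 0 < R := by linarith [hS.R_ge, hS.c_pos]
  have hsub1 : insert s Lam ⊆ BB Lam Fz s := by
    unfold BB
    exact insert_subset_insert _ subset_union_left
  have h := split_gen (x := x) (σ := 1) hS he hl hl2 (Or.inl rfl) hom h0 h1
    (c1 := 4 * R * Γ * (BB Lam Fz s).card * (kap * kap)) (c2 := 0)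
    (by positivity) le_rfl hK hL (fun V hV t ht => by
      have h2 := pw1 (x := x) hS (V := V) (fun y _ => hV y) (us_im hS.a_pos ht.1)
        (us_le hS.a_pos hS.a_le hS.R_ge he hl2 ht) hΓ (hF t ht) hkap hkap hN
        (fun y hy => hN _ (fun z hz => W_le hS (fun y _ => hV y)
          (us_le hS.a_pos hS.a_le hS.R_ge he hl2 ht) z hz) (fun z hz => W_off z hz) y
          (hsub1 hy))
      rw [us_im_neg] at h2
      rwa [zero_mul, add_zero]) hRat hLog
  refine h.trans (le_of_eq ?_)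
  ring

/-- integration of a pointwise bound, the value `- i (1 + a)` -/
theorem split1_gen (hS : Setup c a A v Lam Fz s R) {e l σ : ℝ} (he : |e| ≤ c) (hl : 0 < l)
    (hl2 : l ≤ 2 * c) (hσ : σ = 1 ∨ σ = -1) {om : (ι → ℝ) → ℝ}
    (hom : Measurable om) (h0 : ∀ V, 0 ≤ om V) (h1 : ∀ V, om V ≤ 1)
    {c1 c2 K L : ℝ} (hc10 : 0 ≤ c1) (hc20 : 0 ≤ c2) (hK : 0 ≤ K) (hL : 0 ≤ L)
    (hpw : ∀ V : ι → ℝ, (∀ y, V y ∈ Set.Icc (-c) c) →
      ‖GM A (Function.update (pot Lam (fun _ => a) v V) s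
        (-((1 + a : ℝ) : ℂ) * Complex.I)) s x‖ ^ 2 ≤
      c1 * (‖dt A (flat (BB Lam Fz s) v)‖ *
        ‖dt A (Function.update (pot Lam (fun _ => a) v V) s
          (-((1 + a : ℝ) : ℂ) * Complex.I))‖⁻¹) +
      c2 * ∑ y ∈ insert s Lam, ‖GM A (Function.update (pot Lam (fun _ => a) v V) s
          (-((1 + a : ℝ) : ℂ) * Complex.I)) y x‖ ^ 2)
    (hRat : ‖dt A (flat (BB Lam Fz s) v)‖ ≤
      K * ‖dt A (Function.update (flat Lam v) s (-((1 + a : ℝ) : ℂ) * Complex.I))‖)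
    (hLog : ∫ V, ‖dt A (Function.update (pot Lam (fun _ => a) v V) s
        (-((1 + a : ℝ) : ℂ) * Complex.I))‖⁻¹ ∂(muc ι c) ≤
      L * ‖dt A (Function.update (flat Lam v) s (-((1 + a : ℝ) : ℂ) * Complex.I))‖⁻¹) :
    UU1 c a A v Lam s x om ≤ c1 * (K * L) +
      24 * R ^ 4 / l ^ 3 * c2 * (a⁻¹ * A3 c a A v Lam s x e l σ om) := by
  have hA := hS.symm
  have hv := hS.loss
  have ha := hS.a_pos
  have hc := hS.c_pos
  have hR0 : 0 < R := by linarith [hS.R_ge]
  have hprob := muc_prob (ι := ι) hc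
  set D := ‖dt A (flat (BB Lam Fz s) v)‖ with hD
  have hD0 : 0 < D := norm_pos_iff.2 (dt_ne hA (loss_flat hv _))
  have hI2 := integrable_A3 (s := s) (x := x) (Lam := Lam) hA hv ha hc (e := e) (σ := σ) hl.le
    hom h0 h1
  have him : (-((1 + a : ℝ) : ℂ) * Complex.I).im < 0 := by
    simp only [Complex.mul_im, Complex.neg_re, Complex.neg_im, Complex.ofReal_re,
      Complex.ofReal_im, Complex.I_re, Complex.I_im]
    linarith
  -- integrability of `1 / |det|`
  have hI1 : Integrable (fun V => ‖dt A (Function.update (pot Lam (fun _ => a) v V) s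
        (-((1 + a : ℝ) : ℂ) * Complex.I))‖⁻¹) (muc ι c) := by
    have hW := (continuous_W a v Lam s (f := fun _ => (-((1 + a : ℝ) : ℂ) * Complex.I))
      continuous_const).comp (Continuous.prodMk_left (0 : ℝ))
    have hcont : Continuous fun V : ι → ℝ =>
        ‖dt A (Function.update (pot Lam (fun _ => a) v V) s
        (-((1 + a : ℝ) : ℂ) * Complex.I))‖⁻¹ :=
      Continuous.inv₀ ((continuous_dt A).comp hW).norm fun V =>
        (norm_pos_iff.2 (dt_ne hA (loss_W ha hv Lam s him V))).ne'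
    have hK : IsCompact (Set.pi Set.univ fun _ : ι => Set.Icc (-c) c) :=
      isCompact_univ_pi fun _ => isCompact_Icc
    obtain ⟨C, hC⟩ := hK.exists_bound_of_continuousOn hcont.continuousOn
    refine Integrable.mono' (integrable_const C) hcont.aestronglyMeasurable ?_
    filter_upwards [muc_ae (ι := ι) hc] with V hV
    exact hC V fun y _ => hV y
  have hpt : ∀ V : ι → ℝ, (∀ y, V y ∈ Set.Icc (-c) c) →
      om V * ‖GM A (Function.update (pot Lam (fun _ => a) v V) s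
        (-((1 + a : ℝ) : ℂ) * Complex.I)) s x‖ ^ 2 ≤
      c1 * D * ‖dt A (Function.update (pot Lam (fun _ => a) v V) s
          (-((1 + a : ℝ) : ℂ) * Complex.I))‖⁻¹ +
      24 * R ^ 4 / l ^ 3 * c2 * a⁻¹ * (om V * ∫ w in (0 : ℝ)..l, ∑ y ∈ insert s Lam,
        a * ‖GM A (Function.update (pot Lam (fun _ => a) v V) s
        (((e + σ * w : ℝ) : ℂ) - (a : ℂ) * Complex.I)) y x‖ ^ 2) := by
    intro V hV
    have s3 : ∑ y ∈ insert s Lam, ‖GM A (Function.update (pot Lam (fun _ => a) v V) s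
            (-((1 + a : ℝ) : ℂ) * Complex.I)) y x‖ ^ 2 ≤
        24 * R ^ 4 / l ^ 3 * (a⁻¹ * ∫ w in (0 : ℝ)..l, ∑ y ∈ insert s Lam,
          a * ‖GM A (Function.update (pot Lam (fun _ => a) v V) s
          (((e + σ * w : ℝ) : ℂ) - (a : ℂ) * Complex.I)) y x‖ ^ 2) := by
      have hc3 : ∀ y : ι, IntervalIntegrable (fun w : ℝ =>
          a * ‖GM A (Function.update (pot Lam (fun _ => a) v V) s
          (((e + σ * w : ℝ) : ℂ) - (a : ℂ) * Complex.I)) y x‖ ^ 2) volume 0 l := fun y =>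
        (continuous_const.mul ((continuous_GMr (x := x) hA hv ha e σ y).comp
          (Continuous.prodMk_right V))).intervalIntegrable _ _
      rw [intervalIntegral.integral_finsetSum fun y _ => hc3 y, mul_sum, mul_sum]
      refine sum_le_sum fun y _ => ?_
      rw [intervalIntegral.integral_const_mul, inv_mul_cancel_left₀ ha.ne']
      exact conv1_GM hA hv ha hc hS.R_ge he hl hl2 hσ V y
    set M := ∫ w in (0 : ℝ)..l, ∑ y ∈ insert s Lam,
        a * ‖GM A (Function.update (pot Lam (fun _ => a) v V) s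
        (((e + σ * w : ℝ) : ℂ) - (a : ℂ) * Complex.I)) y x‖ ^ 2 with hM
    set X := ‖dt A (Function.update (pot Lam (fun _ => a) v V) s
          (-((1 + a : ℝ) : ℂ) * Complex.I))‖⁻¹ with hX
    have hX0 : 0 ≤ X := by rw [hX]; positivity
    have s4 : ‖GM A (Function.update (pot Lam (fun _ => a) v V) s
        (-((1 + a : ℝ) : ℂ) * Complex.I)) s x‖ ^ 2 ≤
        c1 * D * X + 24 * R ^ 4 / l ^ 3 * c2 * a⁻¹ * M := by
      have h2 := hpw V hV
      rw [← hX] at h2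
      have := mul_le_mul_of_nonneg_left s3 hc20
      linarith
    calc _ ≤ om V * (c1 * D * X + 24 * R ^ 4 / l ^ 3 * c2 * a⁻¹ * M) :=
          mul_le_mul_of_nonneg_left s4 (h0 V)
      _ = om V * (c1 * D * X) + 24 * R ^ 4 / l ^ 3 * c2 * a⁻¹ * (om V * M) := by ring
      _ ≤ 1 * (c1 * D * X) + 24 * R ^ 4 / l ^ 3 * c2 * a⁻¹ * (om V * M) := by
          have : om V * (c1 * D * X) ≤ 1 * (c1 * D * X) :=
            mul_le_mul_of_nonneg_right (h1 V) (by positivity)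
          linarith
      _ = _ := by rw [one_mul]
  have hint : UU1 c a A v Lam s x om ≤
      c1 * D * (∫ V, ‖dt A (Function.update (pot Lam (fun _ => a) v V) s
          (-((1 + a : ℝ) : ℂ) * Complex.I))‖⁻¹ ∂(muc ι c)) +
      24 * R ^ 4 / l ^ 3 * c2 * a⁻¹ * A3 c a A v Lam s x e l σ om := by
    unfold UU1 A3
    rw [← integral_const_mul, ← integral_const_mul, ← integral_add (hI1.const_mul _)
      (hI2.const_mul _)]
    refine integral_mono_of_nonneg (Filter.Eventually.of_forall fun V => ?_)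
      ((hI1.const_mul _).add (hI2.const_mul _)) ?_
    · exact mul_nonneg (h0 V) (by positivity)
    · filter_upwards [muc_ae (ι := ι) hc] with V hV
      exact hpt V hV
  have hfub : c1 * D * (∫ V, ‖dt A (Function.update (pot Lam (fun _ => a) v V) s
          (-((1 + a : ℝ) : ℂ) * Complex.I))‖⁻¹ ∂(muc ι c)) ≤ c1 * (K * L) := by
    rw [mul_assoc]
    refine mul_le_mul_of_nonneg_left ?_ hc10
    set X := ‖dt A (Function.update (flat Lam v) s (-((1 + a : ℝ) : ℂ) * Complex.I))‖ with hX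
    have hX0 : 0 < X := by
      by_contra hneg
      have : X = 0 := le_antisymm (not_lt.1 hneg) (norm_nonneg _)
      rw [this, mul_zero] at hRat
      linarith
    have g3 : D * X⁻¹ ≤ K := by
      rw [← div_eq_mul_inv, div_le_iff₀ hX0]
      exact hRat
    calc _ ≤ D * (L * X⁻¹) := mul_le_mul_of_nonneg_left hLog hD0.le
      _ = (D * X⁻¹) * L := by ring
      _ ≤ K * L := mul_le_mul_of_nonneg_right g3 hL
  have e2 : 24 * R ^ 4 / l ^ 3 * c2 * a⁻¹ * A3 c a A v Lam s x e l σ om =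
      24 * R ^ 4 / l ^ 3 * c2 * (a⁻¹ * A3 c a A v Lam s x e l σ om) := by ring
  rw [e2] at hint
  linarith

theorem us1_im (ha : 0 < a) : (-((1 + a : ℝ) : ℂ) * Complex.I).im < 0 := by
  simp only [Complex.mul_im, Complex.neg_re, Complex.neg_im, Complex.ofReal_re,
    Complex.ofReal_im, Complex.I_re, Complex.I_im]
  linarith

theorem us1_im_neg : -(-((1 + a : ℝ) : ℂ) * Complex.I).im = 1 + a := by
  simp only [Complex.mul_im, Complex.neg_re, Complex.neg_im, Complex.ofReal_re,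
    Complex.ofReal_im, Complex.I_re, Complex.I_im]
  ring

theorem us1_le (ha : 0 < a) (ha2 : a ≤ 1 / 2) (hc : 0 < c) (hR : 3 * c + 3 ≤ R) :
    ‖-((1 + a : ℝ) : ℂ) * Complex.I‖ ≤ R := by
  rw [norm_mul, norm_neg, Complex.norm_real, Complex.norm_I, mul_one,
    Real.norm_of_nonneg (by linarith)]
  linarith

/-- THE SPLIT at `- i (1 + a)` -/
theorem split1 (hS : Setup c a A v Lam Fz s R) {e l σ : ℝ} (he : |e| ≤ c) (hl : 0 < l)
    (hl2 : l ≤ 2 * c) (hσ : σ = 1 ∨ σ = -1) {Γ : ℝ} (hΓ : 1 ≤ Γ) {om : (ι → ℝ) → ℝ}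
    (hom : Measurable om) (h0 : ∀ V, 0 ≤ om V) (h1 : ∀ V, om V ≤ 1)
    (hF : HypF c a A v Lam Fz s x Γ (-((1 + a : ℝ) : ℂ) * Complex.I))
    {kap eps del K L : ℝ} (hkap : 0 < kap) (heps : 0 ≤ eps) (hdel : 0 < del) (hK : 0 ≤ K)
    (hL : 0 ≤ L)
    (hN : ∀ u : ι → ℂ, (∀ y ∈ BB Lam Fz s, ‖u y‖ ≤ R) → (∀ y, y ∉ BB Lam Fz s → u y = v y) →
      ∀ y ∈ BB Lam Fz s, ‖adj A y x u‖ ≤ kap * ‖dt A (flat (BB Lam Fz s) v)‖)
    (hNs : ∀ u : ι → ℂ, (∀ y ∈ BB Lam Fz s, ‖u y‖ ≤ R) → (∀ y, y ∉ BB Lam Fz s → u y = v y) →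
      ‖adj A s x u‖ ≤ eps * ‖dt A (flat (BB Lam Fz s) v)‖)
    (hRat : ‖dt A (flat (BB Lam Fz s) v)‖ ≤
      K * ‖dt A (Function.update (flat Lam v) s (-((1 + a : ℝ) : ℂ) * Complex.I))‖)
    (hLog : ∫ V, ‖dt A (Function.update (pot Lam (fun _ => a) v V) s
        (-((1 + a : ℝ) : ℂ) * Complex.I))‖⁻¹ ∂(muc ι c) ≤
      L * ‖dt A (Function.update (flat Lam v) s (-((1 + a : ℝ) : ℂ) * Complex.I))‖⁻¹) :
    UU1 c a A v Lam s x om ≤
      4 * R * Γ * (BB Lam Fz s).card * K * L * (del * kap ^ 2) +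
      24 * R ^ 4 / l ^ 3 * (eps / (del * kap)) ^ 2 * (a⁻¹ * A3 c a A v Lam s x e l σ om) := by
  have hR0 : 0 < R := by linarith [hS.R_ge, hS.c_pos]
  have h := split1_gen (x := x) hS he hl hl2 hσ hom h0 h1
    (c1 := 4 * R * Γ * (BB Lam Fz s).card * (del * kap * kap)) (c2 := (eps / (del * kap)) ^ 2)
    (by positivity) (by positivity) hK hL (fun V hV => by
      have h2 := pw2 (x := x) hS (V := V) (fun y _ => hV y) (us1_im hS.a_pos)
        (us1_le hS.a_pos hS.a_le hS.c_pos hS.R_ge) hΓ hF hkap heps hdel hN hNs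
      rw [us1_im_neg] at h2
      refine h2.trans (add_le_add_left (mul_le_mul_of_nonneg_right ?_ (by positivity)) _)
      exact div_le_self (by positivity) (by linarith [hS.a_pos])) hRat hLog
  refine h.trans (le_of_eq ?_)
  ring

/-- everything in the first region, at `- i (1 + a)` -/
theorem split1_all (hS : Setup c a A v Lam Fz s R) {Γ : ℝ} (hΓ : 1 ≤ Γ) {om : (ι → ℝ) → ℝ}
    (hom : Measurable om) (h0 : ∀ V, 0 ≤ om V) (h1 : ∀ V, om V ≤ 1)
    (hF : HypF c a A v Lam Fz s x Γ (-((1 + a : ℝ) : ℂ) * Complex.I))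
    {kap K L : ℝ} (hkap : 0 ≤ kap) (hK : 0 ≤ K) (hL : 0 ≤ L)
    (hN : ∀ u : ι → ℂ, (∀ y ∈ BB Lam Fz s, ‖u y‖ ≤ R) → (∀ y, y ∉ BB Lam Fz s → u y = v y) →
      ∀ y ∈ BB Lam Fz s, ‖adj A y x u‖ ≤ kap * ‖dt A (flat (BB Lam Fz s) v)‖)
    (hRat : ‖dt A (flat (BB Lam Fz s) v)‖ ≤
      K * ‖dt A (Function.update (flat Lam v) s (-((1 + a : ℝ) : ℂ) * Complex.I))‖)
    (hLog : ∫ V, ‖dt A (Function.update (pot Lam (fun _ => a) v V) s
        (-((1 + a : ℝ) : ℂ) * Complex.I))‖⁻¹ ∂(muc ι c) ≤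
      L * ‖dt A (Function.update (flat Lam v) s (-((1 + a : ℝ) : ℂ) * Complex.I))‖⁻¹) :
    UU1 c a A v Lam s x om ≤
      4 * R * Γ * (BB Lam Fz s).card * K * L * kap ^ 2 := by
  have hR0 : 0 < R := by linarith [hS.R_ge, hS.c_pos]
  have hc := hS.c_pos
  have hsub1 : insert s Lam ⊆ BB Lam Fz s := by
    unfold BB
    exact insert_subset_insert _ subset_union_left
  have h := split1_gen (x := x) (e := 0) (l := 2 * c) (σ := 1) hS (by rw [abs_zero]; exact hc.le)
    (by linarith) le_rfl (Or.inl rfl) hom h0 h1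
    (c1 := 4 * R * Γ * (BB Lam Fz s).card * (kap * kap)) (c2 := 0)
    (by positivity) le_rfl hK hL (fun V hV => by
      have h2 := pw1 (x := x) hS (V := V) (fun y _ => hV y) (us1_im hS.a_pos)
        (us1_le hS.a_pos hS.a_le hS.c_pos hS.R_ge) hΓ hF hkap hkap hN
        (fun y hy => hN _ (fun z hz => W_le hS (fun y _ => hV y)
          (us1_le hS.a_pos hS.a_le hS.c_pos hS.R_ge) z hz) (fun z hz => W_off z hz) y
          (hsub1 hy))
      rw [us1_im_neg] at h2
      rw [zero_mul, add_zero]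
      refine h2.trans (mul_le_mul_of_nonneg_right ?_ (by positivity))
      exact div_le_self (by positivity) (by linarith [hS.a_pos])) hRat hLog
  refine h.trans (le_of_eq ?_)
  ring

end Pool.Agent.Lib.MP_562b47_mp.LW
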